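import Pool.Agent.K3h54.PC.Stm

/-!
# Brick A1: Möbius inversion for the colourings
-/

set_option autoImplicit false

namespace Pool.Agent.K3h54.PC.A1

open Finset
open Pool.Agent.R498.MT

/-- the coefficients -/
noncomputable def cf {J : Type} [DecidableEq J] : Option J → Option J → ℝ
  | none, none => 1
  | none, some _ => 0
  | some _, none => -1
  | some j, some i => if i = j then 1 else 0

theorem cf_sum {J : Type} [Fintype J] [DecidableEq J] (u a : Option J) :
    ∑ v, cf a v * (if u = none ∨ u = v then (1 : ℝ) else 0) = if u = a then 1 else 0 := by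
  rw [Fintype.sum_option]
  rcases u with _ | j
  · rcases a with _ | i
    · simp [cf]
    · simp [cf]
  · rcases a with _ | i
    · simp [cf]
    · simp [cf]

theorem main : Pool.Agent.K3h54.PC.StA1 := by
  intro S J _ _ _ _ g
  refine ⟨fun x => ∑ V, g V * ∏ t, cf (V t) (x t), fun U => ?_⟩
  have h1 : ∀ x : S → Option J, (if Sub U x then (1 : ℝ) else 0) =
      ∏ t, (if U t = none ∨ U t = x t then (1 : ℝ) else 0) := by
    intro x
    rw [Finset.prod_ite_zero]
    simp [Pool.Agent.R498.MT.Sub]
  have h2 : ∀ x : S → Option J, (∑ V, g V * ∏ t, cf (V t) (x t)) *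
      (if Sub U x then (1 : ℝ) else 0) =
      ∑ V, g V * ∏ t, (cf (V t) (x t) * (if U t = none ∨ U t = x t then (1 : ℝ) else 0)) := by
    intro x
    rw [h1, sum_mul]
    refine sum_congr rfl fun V _ => ?_
    rw [prod_mul_distrib, mul_assoc]
  simp only [h2]
  rw [sum_comm]
  have h3 : ∀ V : S → Option J, ∑ x : S → Option J, g V * ∏ t, (cf (V t) (x t) *
      (if U t = none ∨ U t = x t then (1 : ℝ) else 0)) = if U = V then g V else 0 := by
    intro V
    rw [← mul_sum, sum_prod (fun t v => cf (V t) v * (if U t = none ∨ U t = v then (1 : ℝ) else 0))]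
    simp only [cf_sum]
    rw [Finset.prod_ite_zero]
    by_cases h : U = V
    · subst h; simp
    · have : ¬ ∀ i ∈ (univ : Finset S), U i = V i := fun h' => h (funext fun i => h' i (mem_univ i))
      rw [if_neg this, if_neg h, mul_zero]
  simp only [h3]
  simp

end Pool.Agent.K3h54.PC.A1
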