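import Pool.Agent.K3h54.PC.Stm

/-!
# Brick A2: the effect of an error on the quadratic form
-/

set_option autoImplicit false
set_option linter.unusedSectionVars false

namespace Pool.Agent.K3h54.PC.A2

open Finset
open Pool.Agent.R498.MT

section loc
variable {J : Type} [Fintype J] [DecidableEq J]

/-- the local sum -/
noncomputable def Hl (i : Option J) (q μ : ℝ) (x : Option J) : ℝ := ∑ a, |cf μ a| * |hv i q a x|

theorem Hl_none (i : Option J) (q μ : ℝ) (hμ : 0 ≤ μ) :
    Hl i q μ none = 1 + (Fintype.card J : ℝ) * μ := by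
  unfold Hl
  rw [Fintype.sum_option]
  have h : ∀ j : J, |cf μ (some j)| * |hv i q (some j) none| = μ := by
    intro j
    by_cases h : i = some j
    · rw [hv_i _ _ _ _ h]
      simp [cf, abs_of_nonneg hμ]
    · rw [hv_some _ _ _ _ h]
      simp [cf, abs_of_nonneg hμ]
  rw [sum_congr rfl (fun j _ => h j), sum_const, card_univ, nsmul_eq_mul, hv_none]
  simp [cf]

theorem Hl_some (i : Option J) (q μ : ℝ) (hμ : 0 ≤ μ) (hq : 2 ≤ q) (hμq : μ * (q - 1) ≤ 1) (k : J) :
    Hl i q μ (some k) ≤ 2 + (Fintype.card J : ℝ) * μ := by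
  unfold Hl
  rw [Fintype.sum_option]
  have h : ∀ j : J, |cf μ (some j)| * |hv i q (some j) (some k)| ≤
      μ + if j = k then μ * (q - 1) else 0 := by
    intro j
    have hmq : 0 ≤ μ * (q - 1) := mul_nonneg hμ (by linarith)
    by_cases h : i = some j
    · rw [hv_i _ _ _ _ h]
      simp only [cf, abs_neg, abs_of_nonneg hμ, abs_one, mul_one]
      split_ifs <;> linarith
    · simp only [hv, if_neg h, cf, abs_neg, abs_of_nonneg hμ]
      by_cases h' : k = j
      · subst h'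
        simp only [if_true]
        rw [abs_of_nonneg (by linarith : (0 : ℝ) ≤ q - 1)]
        linarith
      · have h1 : ¬ (some k : Option J) = some j := fun h2 => h' (Option.some.inj h2)
        rw [if_neg h1, if_neg (Ne.symm h')]
        simp
  have h2 : ∑ j, |cf μ (some j)| * |hv i q (some j) (some k)| ≤
      (Fintype.card J : ℝ) * μ + μ * (q - 1) := by
    refine (sum_le_sum fun j _ => h j).trans ?_
    rw [sum_add_distrib, sum_const, card_univ, nsmul_eq_mul, sum_ite_eq' univ k]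
    simp
  rw [hv_none]
  simp only [cf, abs_one, mul_one] at h2 ⊢
  linarith

/-- the local factor -/
noncomputable def Fl (i : Option J) (q μ : ℝ) (tgt : Bool) (v : Option J) : ℝ :=
  ∑ a, ∑ b, |cf μ a| * |cf μ b| * |co (lc2 i q tgt a b) v|

theorem lc_le (i : Option J) (q μ : ℝ) (tgt : Bool) (x : Option J) :
    ∑ a, ∑ b, |cf μ a| * |cf μ b| * |lc2 i q tgt a b x| ≤ Hl i q μ x ^ 2 := by
  unfold Hl
  rw [sq, sum_mul_sum]
  refine sum_le_sum fun a _ => sum_le_sum fun b _ => ?_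
  have h1 : |lc2 i q tgt a b x| ≤ |hv i q a x| * |hv i q b x| := by
    unfold lc2
    rw [abs_mul, abs_mul]
    refine mul_le_of_le_one_right (mul_nonneg (abs_nonneg _) (abs_nonneg _)) ?_
    split_ifs <;> simp
  calc |cf μ a| * |cf μ b| * |lc2 i q tgt a b x| ≤
      |cf μ a| * |cf μ b| * (|hv i q a x| * |hv i q b x|) :=
        mul_le_mul_of_nonneg_left h1 (mul_nonneg (abs_nonneg _) (abs_nonneg _))
    _ = _ := by ring

theorem Fl_none (i : Option J) (q μ : ℝ) (hμ : 0 ≤ μ) (tgt : Bool) :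
    Fl i q μ tgt none ≤ (1 + (Fintype.card J : ℝ) * μ) ^ 2 := by
  unfold Fl
  have := lc_le i q μ tgt (none : Option J)
  rw [Hl_none i q μ hμ] at this
  exact this

theorem Fl_some (i : Option J) (q μ : ℝ) (hμ : 0 ≤ μ) (hq : 2 ≤ q) (hμq : μ * (q - 1) ≤ 1)
    (tgt : Bool) (k : J) :
    Fl i q μ tgt (some k) ≤ 5 * (1 + (Fintype.card J : ℝ) * μ) ^ 2 := by
  have h0 := lc_le i q μ tgt (none : Option J)
  rw [Hl_none i q μ hμ] at h0
  have h1 := lc_le i q μ tgt (some k)
  have h2 := Hl_some i q μ hμ hq hμq k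
  have h3 : 0 ≤ Hl i q μ (some k) :=
    sum_nonneg fun a _ => mul_nonneg (abs_nonneg _) (abs_nonneg _)
  have h4 : Fl i q μ tgt (some k) ≤ ∑ a, ∑ b, |cf μ a| * |cf μ b| * |lc2 i q tgt a b (some k)| +
      ∑ a, ∑ b, |cf μ a| * |cf μ b| * |lc2 i q tgt a b none| := by
    unfold Fl
    rw [← sum_add_distrib]
    refine sum_le_sum fun a _ => ?_
    rw [← sum_add_distrib]
    refine sum_le_sum fun b _ => ?_
    rw [← mul_add]
    refine mul_le_mul_of_nonneg_left ?_ (mul_nonneg (abs_nonneg _) (abs_nonneg _))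
    exact abs_sub _ _
  have hK : 0 ≤ (Fintype.card J : ℝ) * μ := mul_nonneg (Nat.cast_nonneg _) hμ
  nlinarith

end loc

theorem main : Pool.Agent.K3h54.PC.StA2 := by
  classical
  intro S J _ _ _ _ i q μ hq hμ hμq y hy T hT κ Good Rem hRem hGood hG
  have h1 : ∀ x : S → Option J, Lam i q μ y x ^ 2 * (if ∀ t ∈ T, x t = i then 1 else 0) =
      ∑ σ, ∑ τ, cw μ y σ * cw μ y τ * ∏ t, lc2 i (q t) (decide (t ∈ T)) (σ t) (τ t) (x t) := by
    intro x
    have e1 : (if ∀ t ∈ T, x t = i then (1 : ℝ) else 0) =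
        ∏ t, (if decide (t ∈ T) then (if x t = i then 1 else 0) else 1) := by
      rw [prod_tgt T (fun t => if x t = i then 1 else 0)]
      rw [Finset.prod_ite_zero]
      simp
    unfold Lam
    rw [sq, sum_mul_sum, sum_mul, e1]
    refine sum_congr rfl fun σ _ => ?_
    rw [sum_mul]
    refine sum_congr rfl fun τ _ => ?_
    unfold lc2
    rw [prod_mul_distrib, prod_mul_distrib]
    ring
  set C : (S → Option J) → ℝ := fun V => ∑ σ, ∑ τ, cw μ y σ * cw μ y τ *
    ∏ t, co (lc2 i (q t) (decide (t ∈ T)) (σ t) (τ t)) (V t) with hC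
  set D : (S → Option J) → ℝ := fun V =>
    ∑ x, κ x * (if Pool.Agent.R498.MT.Sub V x then (1 : ℝ) else 0) with hD
  have h2 : ∑ x, κ x * (Lam i q μ y x ^ 2 * (if ∀ t ∈ T, x t = i then 1 else 0)) =
      ∑ V, C V * D V := by
    have e2 : ∀ x : S → Option J, Lam i q μ y x ^ 2 * (if ∀ t ∈ T, x t = i then 1 else 0) =
        ∑ V, C V * (if Pool.Agent.R498.MT.Sub V x then (1 : ℝ) else 0) := by
      intro x
      rw [h1]
      have e3 : ∀ σ τ : S → Option J, cw μ y σ * cw μ y τ *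
          ∏ t, lc2 i (q t) (decide (t ∈ T)) (σ t) (τ t) (x t) =
          ∑ V, (cw μ y σ * cw μ y τ * ∏ t, co (lc2 i (q t) (decide (t ∈ T)) (σ t) (τ t)) (V t)) *
            (if Pool.Agent.R498.MT.Sub V x then (1 : ℝ) else 0) := by
        intro σ τ
        rw [expand (fun t => lc2 i (q t) (decide (t ∈ T)) (σ t) (τ t)) x, mul_sum]
        refine sum_congr rfl fun V _ => ?_
        ring
      simp only [e3, hC, sum_mul]
      rw [sum_congr rfl (fun σ _ => sum_comm), sum_comm]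
    simp only [e2, hD, mul_sum]
    rw [sum_comm]
    refine sum_congr rfl fun V _ => sum_congr rfl fun x _ => ?_
    ring
  have h3 : ∀ V, C V ≠ 0 → Good V ∧ ∀ t ∈ T, V t ≠ none := by
    intro V hV
    obtain ⟨σ, -, hσ⟩ := exists_ne_zero_of_sum_ne_zero hV
    obtain ⟨τ, -, hτ⟩ := exists_ne_zero_of_sum_ne_zero hσ
    have a1 : ∏ t, co (lc2 i (q t) (decide (t ∈ T)) (σ t) (τ t)) (V t) ≠ 0 :=
      right_ne_zero_of_mul hτ
    have a2 := left_ne_zero_of_mul hτ
    have a3 : y σ ≠ 0 := right_ne_zero_of_mul (left_ne_zero_of_mul a2)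
    have a4 : y τ ≠ 0 := right_ne_zero_of_mul (right_ne_zero_of_mul a2)
    have a5 : ∀ t, co (lc2 i (q t) (decide (t ∈ T)) (σ t) (τ t)) (V t) ≠ 0 := fun t =>
      (prod_ne_zero_iff.mp a1) t (mem_univ t)
    refine ⟨hG σ τ a3 a4 V a5, fun t ht hn => a5 t ?_⟩
    rw [hn]
    have hi := hT t ht
    simp only [co, lc2, ht, decide_true, if_true]
    rw [if_neg (Ne.symm hi), mul_zero]
  have h4 : ∀ V, |C V| ≤ (∏ t, (1 + (Fintype.card J : ℝ) * μ t) ^ 2) * (5 : ℝ) ^ nc V := by
    intro V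
    have b1 : |C V| ≤ ∏ t, Fl i (q t) (μ t) (decide (t ∈ T)) (V t) := by
      unfold Fl
      rw [← sum_prod2 (fun t a b => |cf (μ t) a| * |cf (μ t) b| *
        |co (lc2 i (q t) (decide (t ∈ T)) a b) (V t)|)]
      refine (abs_sum_le_sum_abs _ _).trans (sum_le_sum fun σ _ => ?_)
      refine (abs_sum_le_sum_abs _ _).trans (sum_le_sum fun τ _ => ?_)
      have h6 : |cw μ y σ * cw μ y τ| ≤ ∏ t, (|cf (μ t) (σ t)| * |cf (μ t) (τ t)|) := by
        unfold cw
        rw [abs_mul, abs_mul, abs_mul, abs_prod, abs_prod, prod_mul_distrib]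
        have p1 : 0 ≤ ∏ t, |cf (μ t) (σ t)| := prod_nonneg fun _ _ => abs_nonneg _
        have p2 : 0 ≤ ∏ t, |cf (μ t) (τ t)| := prod_nonneg fun _ _ => abs_nonneg _
        have p3 := hy σ
        have p4 := hy τ
        calc (∏ t, |cf (μ t) (σ t)|) * |y σ| * ((∏ t, |cf (μ t) (τ t)|) * |y τ|) ≤
            (∏ t, |cf (μ t) (σ t)|) * 1 * ((∏ t, |cf (μ t) (τ t)|) * 1) := by
              gcongr
          _ = _ := by ring
      rw [abs_mul, abs_prod, prod_mul_distrib]
      exact mul_le_mul_of_nonneg_right h6 (prod_nonneg fun _ _ => abs_nonneg _)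
    refine b1.trans ?_
    have b2 : ∀ t, Fl i (q t) (μ t) (decide (t ∈ T)) (V t) ≤
        (1 + (Fintype.card J : ℝ) * μ t) ^ 2 * (if V t ≠ none then 5 else 1) := by
      intro t
      rcases hV : V t with _ | k
      · simpa using Fl_none i (q t) (μ t) (hμ t) (decide (t ∈ T))
      · have := Fl_some i (q t) (μ t) (hμ t) (hq t) (hμq t) (decide (t ∈ T)) k
        simp only [ne_eq, reduceCtorEq, not_false_eq_true, if_true]
        linarith
    have b3 : ∀ t, 0 ≤ Fl i (q t) (μ t) (decide (t ∈ T)) (V t) := fun t =>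
      sum_nonneg fun a _ => sum_nonneg fun b _ =>
        mul_nonneg (mul_nonneg (abs_nonneg _) (abs_nonneg _)) (abs_nonneg _)
    refine (prod_le_prod (fun t _ => b3 t) (fun t _ => b2 t)).trans (le_of_eq ?_)
    rw [prod_mul_distrib]
    congr 1
    unfold nc
    rw [prod_ite, prod_const, prod_const_one, mul_one]
  have hP : 0 ≤ ∏ t, (1 + (Fintype.card J : ℝ) * μ t) ^ 2 := prod_nonneg fun _ _ => sq_nonneg _
  rw [h2, mul_sum]
  refine (abs_sum_le_sum_abs _ _).trans ?_
  have h5 : ∑ V, |C V * D V| =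
      ∑ V ∈ univ.filter (fun V => Good V ∧ ∀ t ∈ T, V t ≠ none), |C V * D V| := by
    symm
    apply sum_subset (filter_subset _ _)
    intro V _ hV
    by_contra hne
    apply hV
    rw [mem_filter]
    refine ⟨mem_univ _, h3 V ?_⟩
    intro h0
    rw [h0, zero_mul, abs_zero] at hne
    exact hne rfl
  rw [h5]
  refine sum_le_sum fun V hV => ?_
  rw [mem_filter] at hV
  rw [abs_mul]
  have h6 := hGood V hV.2.1
  calc |C V| * |D V| ≤ ((∏ t, (1 + (Fintype.card J : ℝ) * μ t) ^ 2) * (5 : ℝ) ^ nc V) * Rem V :=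
        mul_le_mul (h4 V) h6 (abs_nonneg _) (mul_nonneg hP (by positivity))
    _ = _ := by ring

end Pool.Agent.K3h54.PC.A2
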