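import Pool.Agent.K3h54.PC.Stm
import Pool.Agent.R498.MT.Asm

/-!
# Brick A3: the weighted inequality with an average remainder
-/

set_option autoImplicit false
set_option linter.unusedSectionVars false

namespace Pool.Agent.K3h54.PC.A3

open Finset
open Pool.Agent.R498.MT

/-- additional terms in a weighted sum -/
theorem enlarge {X : Type} [Fintype X] [Inhabited X] (N : Finset ℕ) (ν : ℕ → ℝ) (ξ : ℕ → X)
    (κ : X → ℝ) :
    ∃ (N' : Finset ℕ) (ν' : ℕ → ℝ) (ξ' : ℕ → X), ∀ F : X → ℝ,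
      ∑ n ∈ N', ν' n * F (ξ' n) = ∑ n ∈ N, ν n * F (ξ n) + ∑ x, κ x * F x := by
  classical
  let e := Fintype.equivFin (↥N ⊕ X)
  refine ⟨range (Fintype.card (↥N ⊕ X)),
    fun n => if h : n < Fintype.card (↥N ⊕ X) then
      Sum.elim (fun a : ↥N => ν a) κ (e.symm ⟨n, h⟩) else 0,
    fun n => if h : n < Fintype.card (↥N ⊕ X) then
      Sum.elim (fun a : ↥N => ξ a) id (e.symm ⟨n, h⟩) else default, fun F => ?_⟩
  rw [Finset.sum_range]
  have h1 : ∀ j : Fin (Fintype.card (↥N ⊕ X)),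
      ((if h : (j : ℕ) < Fintype.card (↥N ⊕ X) then
        Sum.elim (fun a : ↥N => ν a) κ (e.symm ⟨j, h⟩) else 0) *
        F (if h : (j : ℕ) < Fintype.card (↥N ⊕ X) then
          Sum.elim (fun a : ↥N => ξ a) id (e.symm ⟨j, h⟩) else default)) =
      (fun z : ↥N ⊕ X => Sum.elim (fun a : ↥N => ν a) κ z *
        F (Sum.elim (fun a : ↥N => ξ a) id z)) (e.symm j) := by
    intro j
    rw [dif_pos j.2, dif_pos j.2]
  rw [Finset.sum_congr rfl (fun j _ => h1 j)]
  refine (Equiv.sum_comp e.symm (fun z : ↥N ⊕ X => Sum.elim (fun a : ↥N => ν a) κ z *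
        F (Sum.elim (fun a : ↥N => ξ a) id z))).trans ?_
  rw [Fintype.sum_sum_type]
  simp only [Sum.elim_inl, Sum.elim_inr, id]
  rw [Finset.sum_coe_sort N (fun n => ν n * F (ξ n))]

theorem clip (D P r : ℝ) (hP : 0 ≤ P) (hr : 0 ≤ r) (h : |D| ≤ P + r) :
    ∃ e, |e| ≤ P ∧ |e - D| ≤ r := by
  rw [abs_le] at h
  by_cases h1 : D ≤ P
  · by_cases h2 : -P ≤ D
    · exact ⟨D, abs_le.2 ⟨h2, h1⟩, by simpa using hr⟩
    · refine ⟨-P, by rw [abs_neg, abs_of_nonneg hP], abs_le.2 ⟨by linarith, by linarith⟩⟩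
  · refine ⟨P, by rw [abs_of_nonneg hP], abs_le.2 ⟨by linarith, by linarith⟩⟩

theorem nc_le {S J : Type} [Fintype S] [DecidableEq S] [DecidableEq J] (l : S → ℝ) (ε₁ b : ℝ)
    (hε : 0 < ε₁) (hl : ∀ t, ε₁ ≤ l t) (V : S → Option J) (h : lt l V ≤ b) :
    nc V ≤ ⌈b / ε₁⌉₊ := by
  have h1 : (nc V : ℝ) * ε₁ ≤ lt l V := by
    unfold lt nc
    rw [← nsmul_eq_mul, ← sum_const, sum_filter]
    apply sum_le_sum
    intro t _
    by_cases hV : V t = none
    · simp [hV]
    · simp [hV, hl t]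
  have h2 : (nc V : ℝ) ≤ b / ε₁ := by
    rw [le_div_iff₀ hε]
    linarith
  exact_mod_cast h2.trans (Nat.le_ceil _)

section corr
variable {S : Type} [Fintype S] [DecidableEq S]

/-- the product of the masses -/
theorem mass_le (k : ℕ) (R : ℝ) (ε₁ : ℝ) (hε : 0 < ε₁) (w : ℝ) (hεw : ε₁ ≤ w)
    (q μ l : S → ℝ) (ω : ℝ) (hd : Dat q μ l ε₁ R w ω) :
    ∏ t, (1 + (Fintype.card (Fin (2 ^ k)) : ℝ) * μ t) ^ 2 ≤ R498.MT.Ab k ε₁ ^ 2 := by
  have h2 : ∏ t, (1 + (Fintype.card (Fin (2 ^ k)) : ℝ) * μ t) ≤ R498.MT.Ab k ε₁ := by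
    refine le_trans ?_ (AA_Ab hd hε hεw k)
    unfold AA
    apply prod_le_prod
    · intro t _
      have := hd.m0 t
      positivity
    · intro t _
      have h3 := hd.m0 t
      have h4 : (1 : ℝ) ≤ (Fintype.card (Fin (2 ^ k)) : ℝ) := by
        rw [Fintype.card_fin]
        exact_mod_cast Nat.one_le_two_pow
      have h5 : (Fintype.card (Fin (2 ^ k)) : ℝ) * μ t ≤
          8 * (Fintype.card (Fin (2 ^ k)) : ℝ) ^ 2 * μ t := by
        apply mul_le_mul_of_nonneg_right _ h3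
        nlinarith
      linarith
  rw [prod_pow]
  exact pow_le_pow_left₀ (prod_nonneg fun t _ => by have := hd.m0 t; positivity) h2 2

open Classical in
/-- the number of the sets of targets in a colouring -/
theorem card_T {J : Type} [DecidableEq J] (V : S → Option J) :
    ((univ : Finset (Finset S)).filter (fun T => ∀ t ∈ T, V t ≠ none)).card = 2 ^ nc V := by
  have : (univ : Finset (Finset S)).filter (fun T => ∀ t ∈ T, V t ≠ none) =
      (univ.filter (fun t => V t ≠ none)).powerset := by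
    ext T
    simp only [mem_filter, mem_univ, true_and, mem_powerset, subset_iff]
  rw [this, card_powerset]
  congr 1

open Classical in
theorem sumT {J : Type} [Fintype J] [DecidableEq J] (Good : (S → Option J) → Prop)
    (Rem : (S → Option J) → ℝ) (hRem : ∀ V, 0 ≤ Rem V) (n0 : ℕ) (hn : ∀ V, Good V → nc V ≤ n0) :
    ∑ T : Finset S, ∑ V ∈ univ.filter (fun V => Good V ∧ ∀ t ∈ T, V t ≠ none),
      (5 : ℝ) ^ nc V * Rem V ≤ 10 ^ n0 * ∑ V ∈ univ.filter (fun V => Good V), Rem V := by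
  have h1 : ∀ T : Finset S, ∑ V ∈ univ.filter (fun V => Good V ∧ ∀ t ∈ T, V t ≠ none),
      (5 : ℝ) ^ nc V * Rem V = ∑ V ∈ univ.filter (fun V => Good V),
        if (∀ t ∈ T, V t ≠ none) then (5 : ℝ) ^ nc V * Rem V else 0 := by
    intro T
    rw [← filter_filter, sum_filter]
  rw [sum_congr rfl fun T _ => h1 T, sum_comm, mul_sum]
  apply sum_le_sum
  intro V hV
  rw [mem_filter] at hV
  rw [← sum_filter, sum_const, card_T, nsmul_eq_mul]
  push_cast
  have h2 : (2 : ℝ) ^ nc V * (5 ^ nc V * Rem V) = 10 ^ nc V * Rem V := by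
    rw [← mul_assoc, ← mul_pow]
    norm_num
  rw [h2]
  apply mul_le_mul_of_nonneg_right _ (hRem V)
  exact pow_le_pow_right₀ (by norm_num) (hn V hV.2)

end corr

theorem main (hA1 : StA1) (hA2 : StA2) : StA3 := by
  classical
  intro k C₁ R c₀ τ hC hR hc₀ m hτ hτ0 hk ε₁ hε hε1
  set n0 : ℕ := ⌈(2 * R + τ) / ε₁⌉₊ with hn0
  have hAb0 : 0 ≤ R498.MT.Ab k ε₁ := by unfold R498.MT.Ab; positivity
  refine ⟨2 ^ k * (C₁ * (R498.MT.Ab k ε₁ ^ 2 * 10 ^ n0)) + m * (R498.MT.Ab k ε₁ ^ 2 * 10 ^ n0) + 1, by positivity, ?_⟩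
  intro S _ _ w q μ l hd cL hcL hcT N ν ξ X V E Rem hX hμV hγμ hcV hE hE1 hRem hcnt hν wb hwb hw0
  have hl0 : ∀ t, 0 ≤ l t := fun t => hε.le.trans (hd.l1 t)
  have hεw : ε₁ ≤ w := by
    have h1 := (e0_le k C₁ R).1
    have h2 := u0_le R hR k
    have h3 : (1 : ℝ) ≤ 2 ^ k := one_le_pow₀ (by norm_num)
    have h4 := hd.Rw
    have hu0 := u0_pos R hR k
    nlinarith
  have hmq : ∀ t, μ t * (q t - 1) ≤ 1 := by
    intro t
    rcases hd.mq t with h | h
    · rw [h]; norm_num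
    · exact h.le
  have hP0 : ∀ U : S → Option (Fin (2 ^ k)), 0 ≤ X * ∏ t, rr (fun _ => 1 / q t) (U t) := by
    intro U
    apply mul_nonneg hX
    apply prod_nonneg
    intro t _
    have := hd.q2 t
    rcases U t with _ | j
    · simp [rr]
    · simp only [rr]
      positivity
  set Good : (S → Option (Fin (2 ^ k))) → Prop := fun U => lt l U ≤ 2 * R + τ with hGood
  set D : (S → Option (Fin (2 ^ k))) → ℝ := fun U =>
    ∑ n ∈ N, ν n * (if Sub U (ξ n) then 1 else 0) - X * ∏ t, rr (fun _ => 1 / q t) (U t) with hD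
  -- the clipped errors
  have hclip : ∀ U, Good U → ∃ e, |e| ≤ E * X * ∏ t, rr (fun _ => 1 / q t) (U t) ∧
      |e - D U| ≤ Rem U := by
    intro U hU
    have h1 := hcnt U hU
    refine clip (D U) _ (Rem U) ?_ (hRem U) h1
    rw [mul_assoc]
    exact mul_nonneg hE (hP0 U)
  choose! e he1 he2 using hclip
  obtain ⟨κ, hκ⟩ := hA1 S (Fin (2 ^ k)) (fun U => if Good U then e U - D U else 0)
  have hκR : ∀ U, Good U → |∑ x, κ x * (if Sub U x then (1 : ℝ) else 0)| ≤ Rem U := by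
    intro U hU
    rw [hκ U, if_pos hU]
    exact he2 U hU
  obtain ⟨N', ν', ξ', hN'⟩ := enlarge N ν ξ κ
  have hCnt : Cnt N' ν' ξ' (fun t _ => 1 / q t) X E Good := by
    intro U hU
    rw [hN' (fun x => if Sub U x then 1 else 0), hκ U, if_pos hU]
    have h1 : ∑ n ∈ N, ν n * (if Sub U (ξ n) then (1 : ℝ) else 0) + (e U - D U) -
        X * ∏ t, rr (fun _ => 1 / q t) (U t) = e U := by
      simp only [hD]
      ring
    rw [h1]
    exact he1 U hU
  have hyb : ∀ σ, |yf l R k σ| ≤ 1 := by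
    intro σ
    have := yf_facts l hl0 R hR k σ
    rw [abs_of_nonneg this.1]
    exact this.2.1
  have hmass := mass_le k R ε₁ hε w hεw q μ l (om k C₁ ε₁) hd
  set Sr : ℝ := ∑ T ∈ univ.filter (fun T => lt l T ≤ 2 * R + τ), Rem T with hSr
  have hSr0 : 0 ≤ Sr := sum_nonneg fun V _ => hRem V
  have hnc : ∀ V, Good V → nc V ≤ n0 := fun V hV => nc_le l ε₁ _ hε hd.l1 V hV
  have hgood : ∀ (i : Option (Fin (2 ^ k))) (T : Finset S), lz l T ≤ τ → ∀ σ τ',
      yf l R k σ ≠ 0 → yf l R k τ' ≠ 0 → ∀ U : S → Option (Fin (2 ^ k)),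
      (∀ t, co (lc2 i (q t) (decide (t ∈ T)) (σ t) (τ' t)) (U t) ≠ 0) → Good U := by
    intro i T hT σ τ' hσ hτ' U hU
    have h2 := good_of i q l hl0 T σ τ' U hU
    have h3 := (yf_facts l hl0 R hR k σ).2.2 hσ
    have h4 := (yf_facts l hl0 R hR k τ').2.2 hτ'
    show lt l U ≤ 2 * R + τ
    linarith
  -- the correction of the first sum
  have hc1 : |∑ x, κ x * Lam none q μ (yf l R k) x ^ 2| ≤ R498.MT.Ab k ε₁ ^ 2 * 10 ^ n0 * Sr := by
    have h1 := hA2 S (Fin (2 ^ k)) none q μ hd.q2 hd.m0 hmq (yf l R k) hyb ∅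
      (fun t ht => absurd ht (notMem_empty t)) κ Good Rem hRem hκR
      (hgood none ∅ (by simpa [lz] using hτ0))
    simp only [notMem_empty, false_imp_iff, implies_true, if_true, mul_one, and_true] at h1
    refine h1.trans ?_
    have h2 : ∑ V ∈ univ.filter (fun V => Good V), (5 : ℝ) ^ nc V * Rem V ≤ 10 ^ n0 * Sr := by
      rw [hSr, mul_sum]
      apply sum_le_sum
      intro V hV
      rw [mem_filter] at hV
      apply mul_le_mul_of_nonneg_right _ (hRem V)
      calc (5 : ℝ) ^ nc V ≤ 10 ^ nc V := pow_le_pow_left₀ (by norm_num) (by norm_num) _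
        _ ≤ 10 ^ n0 := pow_le_pow_right₀ (by norm_num) (hnc V hV.2)
    rw [mul_assoc]
    refine mul_le_mul hmass (le_trans (le_of_eq ?_) h2) ?_ (by positivity)
    · congr!
    · exact sum_nonneg fun V _ => mul_nonneg (by positivity) (hRem V)
  -- the correction of the second sum
  have hc2 : ∀ i : Fin (2 ^ k), |∑ x, κ x * (Lam (some i) q μ (yf l R k) x ^ 2 *
      ∑ T, cL T * (if ∀ t ∈ T, x t = some i then 1 else 0))| ≤
      C₁ * (R498.MT.Ab k ε₁ ^ 2 * 10 ^ n0) * Sr := by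
    intro i
    have h1 : ∑ x, κ x * (Lam (some i) q μ (yf l R k) x ^ 2 *
        ∑ T, cL T * (if ∀ t ∈ T, x t = some i then 1 else 0)) =
        ∑ T, cL T * ∑ x, κ x * (Lam (some i) q μ (yf l R k) x ^ 2 *
          (if ∀ t ∈ T, x t = some i then 1 else 0)) := by
      simp_rw [mul_sum]
      rw [sum_comm]
      refine sum_congr rfl fun T _ => sum_congr rfl fun x _ => ?_
      ring
    rw [h1]
    have h2 : ∀ T : Finset S, |cL T * ∑ x, κ x * (Lam (some i) q μ (yf l R k) x ^ 2 *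
          (if ∀ t ∈ T, x t = some i then 1 else 0))| ≤ C₁ * (R498.MT.Ab k ε₁ ^ 2 *
        ∑ V ∈ univ.filter (fun V => Good V ∧ ∀ t ∈ T, V t ≠ none), (5 : ℝ) ^ nc V * Rem V) := by
      intro T
      have hs0 : 0 ≤ ∑ V ∈ univ.filter (fun V : S → Option (Fin (2 ^ k)) =>
          Good V ∧ ∀ t ∈ T, V t ≠ none), (5 : ℝ) ^ nc V * Rem V :=
        sum_nonneg fun V _ => mul_nonneg (by positivity) (hRem V)
      by_cases hT0 : cL T = 0
      · rw [hT0, zero_mul, abs_zero]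
        positivity
      rw [abs_mul]
      have h3 := hA2 S (Fin (2 ^ k)) (some i) q μ hd.q2 hd.m0 hmq (yf l R k) hyb T
        (fun t _ => by simp) κ Good Rem hRem hκR (hgood (some i) T (hcT T hT0))
      refine mul_le_mul (hcL T) (h3.trans ?_) (abs_nonneg _) hC
      refine mul_le_mul hmass (le_of_eq ?_) ?_ (by positivity)
      · congr!
      · exact sum_nonneg fun V _ => mul_nonneg (by positivity) (hRem V)
    refine (abs_sum_le_sum_abs _ _).trans ((sum_le_sum fun T _ => h2 T).trans ?_)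
    rw [← mul_sum, ← mul_sum]
    have h4 := sumT Good Rem hRem n0 hnc
    have h5 : ∑ V ∈ univ.filter (fun V => Good V), Rem V = Sr := by
      rw [hSr]
    rw [h5] at h4
    calc _ ≤ C₁ * (R498.MT.Ab k ε₁ ^ 2 * (10 ^ n0 * Sr)) := by gcongr
      _ = _ := by ring
  -- the first sum
  have h1 := S1_fin k C₁ R hC hR ε₁ hε hε1 w q μ l hd hX hE hE1
    (fun T hT => hCnt T (by
      have h1 : lt l T ≤ 2 * R := hT
      show lt l T ≤ 2 * R + τ
      linarith))
  rw [hN' (fun x => Lam none q μ (yf l R k) x ^ 2)] at h1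
  have h2 : ∀ i : Fin (2 ^ k), 2 * ((m : ℝ) + 1) / 2 ^ k * (X * If μ l R k) ≤
      ∑ n ∈ N, ν n * (Lam none q μ (yf l R k) (ξ n) ^ 2 * wb n i) +
        C₁ * (R498.MT.Ab k ε₁ ^ 2 * 10 ^ n0) * Sr := by
    intro i
    have h3 := S2_fin k C₁ R c₀ τ hC hR hc₀ m hτ hk ε₁ hε hε1 w q μ l hd i (fun t => 1 / q t)
      (fun t => by have := hd.q2 t; positivity) hγμ cL hcL hcT (N := N') (ν := ν') (ξ := ξ')
      (X := X) (X₀ := X) (V := V) (E := E) hX le_rfl hμV (by nlinarith) hE hE1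
      (fun T hT => by
        have e : ∀ t, rr (rd (some i) (q t) (1 / q t)) (T t) =
            rr (fun _ : Fin (2 ^ k) => 1 / q t) (T t) := by
          intro t
          rcases T t with _ | j
          · rfl
          · simp [rr, rd]
        have := hCnt T hT
        simp_rw [e]
        exact this)
    rw [hN' (fun x => Lam (some i) q μ (yf l R k) x ^ 2 *
      ∑ T, cL T * (if ∀ t ∈ T, x t = some i then 1 else 0))] at h3
    have h4 := (le_abs_self _).trans (hc2 i)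
    refine h3.trans (add_le_add (sum_le_sum fun n hn => ?_) h4)
    by_cases hn0 : ν n = 0
    · rw [hn0]; simp
    apply mul_le_mul_of_nonneg_left _ (hν n hn)
    by_cases hw : wb n i = 0
    · rw [hw, mul_zero]
      have h4 := hwb n hn hn0 i
      rw [hw] at h4
      exact mul_nonpos_of_nonneg_of_nonpos (sq_nonneg _) h4
    · rw [Lam_slot q μ l R (yf l R k) (fun σ hσ => (yf_facts l hl0 R hR k σ).2.2 hσ) hl0 i (ξ n)
        (hw0 n hn hn0 i hw)]
      exact mul_le_mul_of_nonneg_left (hwb n hn hn0 i) (sq_nonneg _)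
  have h3 := sum_le_sum (s := (univ : Finset (Fin (2 ^ k)))) fun i _ => h2 i
  rw [sum_const, card_univ, Fintype.card_fin, nsmul_eq_mul, sum_add_distrib, sum_const, card_univ,
    Fintype.card_fin, nsmul_eq_mul] at h3
  have h4 : ∑ i : Fin (2 ^ k), ∑ n ∈ N, ν n * (Lam none q μ (yf l R k) (ξ n) ^ 2 * wb n i) =
      ∑ n ∈ N, ν n * (Lam none q μ (yf l R k) (ξ n) ^ 2 * ∑ i, wb n i) := by
    rw [sum_comm]
    refine sum_congr rfl fun n _ => ?_
    rw [mul_sum, mul_sum]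
  rw [h4] at h3
  have h5 : ((2 ^ k : ℕ) : ℝ) * (2 * ((m : ℝ) + 1) / 2 ^ k * (X * If μ l R k)) =
      2 * ((m : ℝ) + 1) * (X * If μ l R k) := by
    push_cast
    have : (2 : ℝ) ^ k ≠ 0 := by positivity
    field_simp
  rw [h5] at h3
  have h6 : ∑ n ∈ N, ν n * (Lam none q μ (yf l R k) (ξ n) ^ 2 * (∑ i, wb n i - m)) =
      ∑ n ∈ N, ν n * (Lam none q μ (yf l R k) (ξ n) ^ 2 * ∑ i, wb n i) -
        m * ∑ n ∈ N, ν n * Lam none q μ (yf l R k) (ξ n) ^ 2 := by
    rw [mul_sum, ← sum_sub_distrib]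
    refine sum_congr rfl fun n _ => ?_
    ring
  rw [h6]
  have h8 : ∑ n ∈ N, ν n * Lam none q μ (yf l R k) (ξ n) ^ 2 ≤
      2 * X * If μ l R k + R498.MT.Ab k ε₁ ^ 2 * 10 ^ n0 * Sr := by
    have := (abs_le.1 hc1).1
    linarith
  have h7 := mul_le_mul_of_nonneg_left h8 (Nat.cast_nonneg (α := ℝ) m)
  push_cast at h3
  nlinarith [h3, h7, hSr0]

end Pool.Agent.K3h54.PC.A3
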