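import Pool.Agent.K3h54.PC.Stm
import Pool.Agent.R498.MT.Dat
import Pool.Agent.W378.DC.MP
import Pool.Agent.Y882.MG.EngS
import Pool.Agent.Y882.PX.MerX

/-!
# Brick B1: Mertens' formula without the prime divisors of a number of polynomial size (by helper70)
-/

set_option autoImplicit false
set_option linter.unusedSectionVars false

namespace Pool.Agent.K3h54.PC

open Finset Filter
open Pool.Agent.R498.MT
open Pool.Agent.Y677.RSZ (rt)
open Pool.Agent.W23.DC (Mer pr tt)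

namespace TB1

theorem rt_GD (D p : ℕ) (hp : p.Prime) : rt (GD D) p = if p ∣ D then 0 else 1 := by
  classical
  have := Fact.mk hp
  unfold rt GD
  split_ifs with h
  · rw [card_eq_zero, filter_eq_empty_iff]
    intro r _ hr
    have h1 : (p : ℤ) ∣ (D : ℤ) * r := dvd_mul_of_dvd_left (Int.natCast_dvd_natCast.2 h) _
    have h2 : (p : ℤ) ∣ ((1 : ℕ) : ℤ) := by
      rw [Nat.cast_one]
      exact (dvd_add_right h1).1 hr
    exact hp.one_lt.ne' (Nat.dvd_one.1 (Int.natCast_dvd_natCast.1 h2))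
  · have hD : (D : ZMod p) ≠ 0 := by rwa [Ne, ZMod.natCast_eq_zero_iff]
    have h0 : (range p).filter (fun r : ℕ => (p : ℤ) ∣ (D : ℤ) * (r : ℤ) + 1) =
        {(-(D : ZMod p)⁻¹).val} := by
      ext r
      rw [mem_filter, mem_singleton, mem_range]
      have h1 : ((p : ℤ) ∣ (D : ℤ) * (r : ℤ) + 1) ↔ (D : ZMod p) * (r : ZMod p) + 1 = 0 := by
        rw [← ZMod.intCast_zmod_eq_zero_iff_dvd]
        push_cast
        rfl
      rw [h1]
      constructor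
      · rintro ⟨h2, h3⟩
        have h5 : (D : ZMod p) * r = -1 := eq_neg_of_add_eq_zero_left h3
        have h4 : (r : ZMod p) = -(D : ZMod p)⁻¹ := by
          rw [← mul_right_inj' hD, h5, mul_neg, mul_inv_cancel₀ hD]
        rw [← h4, ZMod.val_natCast, Nat.mod_eq_of_lt h2]
      · rintro rfl
        refine ⟨ZMod.val_lt _, ?_⟩
        rw [ZMod.natCast_zmod_val, mul_neg, mul_inv_cancel₀ hD]
        ring
    rw [h0, card_singleton]

theorem rt_le (D p : ℕ) (hp : p.Prime) : rt (GD D) p ≤ 1 := by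
  rw [rt_GD D p hp]
  split_ifs <;> omega

theorem card_div (Y C D : ℕ) (hY : 2 ≤ Y) (hD : 0 < D) (hDY : D ≤ Y ^ C) (ε₁ : ℝ) (hε : 0 < ε₁)
    (P : Finset ℕ) (hP : ∀ p ∈ P, p.Prime ∧ (Y : ℝ) ^ ε₁ ≤ p ∧ p ∣ D) :
    (P.card : ℝ) ≤ C / ε₁ := by
  have hYr : (2 : ℝ) ≤ Y := by exact_mod_cast hY
  have hY0 : (0 : ℝ) < Y := by linarith
  have hY1 : (1 : ℝ) < Y := by linarith
  have h1 : (∏ p ∈ P, p) ∣ D :=
    Finset.prod_primes_dvd D (fun p hp => (hP p hp).1.prime) fun p hp => (hP p hp).2.2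
  have h2 := Nat.le_of_dvd hD h1
  have h3 : ((Y : ℝ) ^ ε₁) ^ P.card ≤ (Y : ℝ) ^ (C : ℝ) := by
    calc ((Y : ℝ) ^ ε₁) ^ P.card = ∏ _s ∈ P, (Y : ℝ) ^ ε₁ := by rw [prod_const]
      _ ≤ ∏ s ∈ P, (s : ℝ) := prod_le_prod (fun _ _ => by positivity) (fun s hs => (hP s hs).2.1)
      _ ≤ (D : ℝ) := by
          have h4 : ((∏ p ∈ P, p : ℕ) : ℝ) ≤ (D : ℝ) := Nat.cast_le.2 h2
          rwa [Nat.cast_prod] at h4
      _ ≤ (Y : ℝ) ^ (C : ℝ) := by
          rw [Real.rpow_natCast]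
          exact_mod_cast hDY
  rw [← Real.rpow_natCast, ← Real.rpow_mul hY0.le, Real.rpow_le_rpow_left_iff hY1] at h3
  rw [le_div_iff₀ hε]
  linarith

theorem mer (C : ℕ) (ε₁ υ η : ℝ) (hε : 0 < ε₁) (hυ : υ ≤ 1) (hη : 0 < η) :
    ∃ Y0 : ℕ, ∀ Y : ℕ, Y0 ≤ Y → ∀ D : ℕ, 0 < D → D ≤ Y ^ C →
      Mer (pr Y ε₁ υ) (tt Y) (fun p => (rt (GD D) p : ℝ) / p) ε₁ υ η := by
  classical
  obtain ⟨N0, hN0⟩ := Pool.Agent.W378.DC.MP ε₁ (η / 2) hε (by positivity)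
  have ev1 : ∀ᶠ Y : ℕ in atTop, (2 : ℝ) + (4 + 2 * (C / ε₁)) * (2 / η) ≤ (Y : ℝ) ^ ε₁ :=
    ((tendsto_rpow_atTop hε).comp tendsto_natCast_atTop_atTop).eventually_ge_atTop _
  obtain ⟨Y2, hY2⟩ := eventually_atTop.1 (ev1.and (eventually_ge_atTop 2))
  refine ⟨max N0 Y2, fun Y hY D hD hDY a b ha hab hb => ?_⟩
  obtain ⟨e1, e2⟩ := hY2 Y ((le_max_right _ _).trans hY)
  have hM := hN0 Y ((le_max_left _ _).trans hY) a b ha hab (hb.trans hυ)
  have hCε : 0 ≤ (C : ℝ) / ε₁ := by positivity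
  have hYr : (2 : ℝ) ≤ Y := by exact_mod_cast e2
  have hR2 : (2 : ℝ) ≤ (Y : ℝ) ^ ε₁ := by
    have : 0 ≤ (4 + 2 * ((C : ℝ) / ε₁)) * (2 / η) := by positivity
    linarith
  have hfil : (pr Y ε₁ υ).filter (fun p => a ≤ tt Y p ∧ tt Y p < b) = pr Y a b := by
    ext p
    unfold pr
    simp only [mem_filter]
    constructor
    · rintro ⟨⟨h1, h2, -, -⟩, h3, h4⟩
      exact ⟨h1, h2, h3, h4⟩
    · rintro ⟨h1, h2, h3, h4⟩
      exact ⟨⟨h1, h2, ha.trans h3, lt_of_lt_of_le h4 hb⟩, h3, h4⟩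
  rw [hfil]
  have hmem : ∀ p ∈ pr Y a b, p.Prime ∧ (Y : ℝ) ^ ε₁ ≤ p := by
    intro p hp
    obtain ⟨h1, h2, -⟩ := Pool.Agent.Y882.PX.pr_mem Y p a b e2 hp
    exact ⟨h1, (Real.rpow_le_rpow_of_exponent_le (by linarith) ha).trans h2⟩
  obtain ⟨Z, hZ⟩ : ∃ Z : ℝ, Z = (Y : ℝ) ^ ε₁ := ⟨_, rfl⟩
  rw [← hZ] at hR2 e1
  have hZ0 : 0 < Z := by linarith
  have hlo : ∀ p ∈ pr Y a b, 0 ≤ 1 / ((p : ℝ) - 1) - (rt (GD D) p : ℝ) / p := by
    intro p hp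
    obtain ⟨h1, -⟩ := hmem p hp
    have hp2 : (2 : ℝ) ≤ p := by exact_mod_cast h1.two_le
    have h3 : (rt (GD D) p : ℝ) ≤ 1 := by exact_mod_cast rt_le D p h1
    rw [sub_nonneg]
    calc (rt (GD D) p : ℝ) / p ≤ 1 / p := by gcongr
      _ ≤ 1 / ((p : ℝ) - 1) := one_div_le_one_div_of_le (by linarith) (by linarith)
  have hup : ∀ p ∈ pr Y a b, 1 / ((p : ℝ) - 1) - (rt (GD D) p : ℝ) / p ≤
      2 * (1 / (p : ℝ) ^ 2) + (if p ∣ D then 2 / Z else 0) := by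
    intro p hp
    obtain ⟨h1, h2⟩ := hmem p hp
    rw [← hZ] at h2
    have hp2 : (2 : ℝ) ≤ p := by exact_mod_cast h1.two_le
    rw [rt_GD D p h1]
    have h4 : 1 / ((p : ℝ) - 1) - 1 / p ≤ 2 * (1 / (p : ℝ) ^ 2) := by
      rw [div_sub_div _ _ (by linarith) (by linarith), mul_one_div,
        div_le_div_iff₀ (by nlinarith) (by positivity)]
      nlinarith
    split_ifs with h
    · rw [Nat.cast_zero, zero_div, sub_zero]
      have h5 : 1 / (p : ℝ) ≤ 1 / Z := one_div_le_one_div_of_le hZ0 h2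
      have h6 : 2 / Z = 2 * (1 / Z) := by ring
      have h7 : 0 ≤ 1 / Z := by positivity
      linarith
    · rw [Nat.cast_one, add_zero]
      exact h4
  have hsum : ∑ p ∈ pr Y a b, (1 / ((p : ℝ) - 1) - (rt (GD D) p : ℝ) / p) ≤ η / 2 := by
    calc _ ≤ ∑ p ∈ pr Y a b, (2 * (1 / (p : ℝ) ^ 2) + (if p ∣ D then 2 / Z else 0)) :=
          sum_le_sum hup
      _ = 2 * ∑ p ∈ pr Y a b, 1 / (p : ℝ) ^ 2 +
          (((pr Y a b).filter fun p => p ∣ D).card : ℝ) * (2 / Z) := by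
          rw [sum_add_distrib, ← mul_sum, ← sum_filter, sum_const, nsmul_eq_mul]
      _ ≤ 2 * (2 / Z) + (C / ε₁) * (2 / Z) := by
          apply add_le_add
          · apply mul_le_mul_of_nonneg_left _ (by norm_num)
            refine Pool.Agent.Y882.MG.tail_sq _ _ hR2 ?_
            intro p hp
            rw [hZ]
            exact (hmem p hp).2
          · apply mul_le_mul_of_nonneg_right _ (by positivity)
            refine card_div Y C D e2 hD hDY ε₁ hε _ ?_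
            intro p hp
            rw [mem_filter] at hp
            exact ⟨(hmem p hp.1).1, (hmem p hp.1).2, hp.2⟩
      _ = (4 + 2 * (C / ε₁)) / Z := by ring
      _ ≤ η / 2 := by
          rw [div_le_div_iff₀ hZ0 (by norm_num)]
          have h8 : (4 + 2 * ((C : ℝ) / ε₁)) * (2 / η) ≤ Z := by linarith
          rw [mul_div_assoc', div_le_iff₀ hη] at h8
          linarith
  have hsum0 : 0 ≤ ∑ p ∈ pr Y a b, (1 / ((p : ℝ) - 1) - (rt (GD D) p : ℝ) / p) := sum_nonneg hlo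
  rw [sum_sub_distrib] at hsum hsum0
  rw [abs_le] at hM ⊢
  constructor <;> linarith [hM.1, hM.2]

theorem dat (C : ℕ) (ε₁ υ R ω : ℝ) (hε : 0 < ε₁) (hR : R ≤ υ) (hυ : υ ≤ 1) (hω : 0 < ω) :
    ∃ Y0 : ℕ, ∀ Y : ℕ, Y0 ≤ Y → ∀ D : ℕ, 0 < D → D ≤ Y ^ C →
      Dat (qs (GD D) Y ε₁ υ) (mus (GD D) Y ε₁ υ) (ls (GD D) Y ε₁ υ) ε₁ R υ ω := by
  obtain ⟨Y1, hM⟩ := mer C ε₁ υ (1 / 40) hε hυ (by norm_num)
  obtain ⟨g, hg⟩ : ∃ g : ℕ, g = 1 := ⟨_, rfl⟩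
  have ev1 : ∀ᶠ Y : ℕ in atTop, (2 * g + 2 : ℝ) + 320 * g ^ 2 + 8 * g ^ 2 / ω + 2 * g / (ε₁ * ω) ≤
      (Y : ℝ) ^ ε₁ :=
    ((tendsto_rpow_atTop hε).comp tendsto_natCast_atTop_atTop).eventually_ge_atTop _
  obtain ⟨Y2, hY2⟩ := eventually_atTop.1 (ev1.and (eventually_ge_atTop 2))
  refine ⟨max Y1 Y2, fun Y hY D hD hDY => ?_⟩
  obtain ⟨e1, e2⟩ := hY2 Y ((le_max_right _ _).trans hY)
  have hM := hM Y ((le_max_left _ _).trans hY) D hD hDY
  have hgD : ∀ p : ℕ, p.Prime → rt (GD D) p ≤ g := by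
    rw [hg]
    exact fun p hp => rt_le D p hp
  have hg0 : (0 : ℝ) ≤ g := Nat.cast_nonneg g
  have p1 : (0 : ℝ) ≤ 320 * g ^ 2 := by positivity
  have p2 : (0 : ℝ) ≤ 8 * g ^ 2 / ω := by positivity
  have p3 : (0 : ℝ) ≤ 2 * g / (ε₁ * ω) := by positivity
  have hR1 : (2 * g + 2 : ℝ) ≤ (Y : ℝ) ^ ε₁ := by linarith
  have key := key_t g (GD D) hgD ε₁ υ Y e2 hR1
  exact {
    q2 := fun t => (key t).1
    m0 := fun t => (key t).2.1
    m1 := fun t => by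
      have h1 := (key t).1
      unfold mus
      rw [div_le_one (by linarith)]
      linarith
    mq := fun t => by
      right
      have h1 := (key t).1
      unfold mus
      rw [one_div, inv_mul_cancel₀]
      linarith
    l1 := fun t => (Pg_mem (GD D) Y ε₁ υ e2 t).2.2.1
    lw := fun t => (Pg_mem (GD D) Y ε₁ υ e2 t).2.2.2.1
    Rw := hR
    w1 := hυ
    mer := mer_t g (GD D) hgD ε₁ υ Y e2 hR1 (by linarith) hM
    sq := sq_t g (GD D) hgD ε₁ υ ω Y e2 hω hR1 (by linarith)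
    sm := fun a ha => sm_t g (GD D) hgD ε₁ υ ω Y hε e2 hω hR1 (by linarith) a ha }

end TB1

/-- brick B1 -/
theorem B1.main : StB1 :=
  ⟨TB1.rt_GD, fun C ε₁ υ η hε hυ hη => TB1.mer C ε₁ υ η hε hυ hη,
    fun C ε₁ υ R ω hε hR hυ hω => TB1.dat C ε₁ υ R ω hε hR hυ hω⟩

end Pool.Agent.K3h54.PC
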