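import Pool.Agent.K3h54.PC.Stm
import Pool.Agent.Y852.RSZ.C1

/-!
# Brick B2: the fundamental lemma for the slots, with an average remainder (by helper70)
-/

set_option autoImplicit false

namespace Pool.Agent.K3h54.PC

open Finset
open Pool.Agent.TH423.SH Pool.Agent.TH423.SH.FLIP

namespace TB2

/-- forbidden classes -/
def Om {K : ℕ} (a : ℕ) (h : Fin K → ℕ) (p : ℕ) : Finset ℕ :=
  (range p).filter (fun x => ∃ i, p ∣ a * x + h i)

theorem card_one (a b p : ℕ) (hp : p.Prime) (ha : ¬ p ∣ a) :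
    ((range p).filter (fun x => p ∣ a * x + b)).card ≤ 1 := by
  rw [card_le_one]
  intro x hx y hy
  rw [mem_filter, mem_range] at hx hy
  have h1 : a * x + b ≡ a * y + b [MOD p] :=
    (Nat.modEq_zero_iff_dvd.2 hx.2).trans (Nat.modEq_zero_iff_dvd.2 hy.2).symm
  have h2 : a * x ≡ a * y [MOD p] := Nat.ModEq.add_right_cancel' b h1
  have h3 : x ≡ y [MOD p] :=
    Nat.ModEq.cancel_left_of_coprime ((Nat.Prime.coprime_iff_not_dvd hp).2 ha) h2
  unfold Nat.ModEq at h3
  rwa [Nat.mod_eq_of_lt hx.1, Nat.mod_eq_of_lt hy.1] at h3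

theorem card_Om {K : ℕ} (a : ℕ) (h : Fin K → ℕ) (p : ℕ) (hp : p.Prime) (ha : ¬ p ∣ a) :
    (Om a h p).card ≤ K := by
  classical
  have h1 : Om a h p ⊆
      univ.biUnion (fun i : Fin K => (range p).filter (fun x => p ∣ a * x + h i)) := by
    intro x hx
    unfold Om at hx
    rw [mem_filter] at hx
    obtain ⟨hx1, i, hi⟩ := hx
    rw [mem_biUnion]
    exact ⟨i, mem_univ i, mem_filter.2 ⟨hx1, hi⟩⟩
  refine (card_le_card h1).trans (card_biUnion_le.trans ?_)
  calc ∑ i : Fin K, ((range p).filter (fun x => p ∣ a * x + h i)).card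
      ≤ ∑ _i : Fin K, 1 := sum_le_sum fun i _ => card_one a (h i) p hp ha
    _ = K := by simp

theorem mod_Om {K : ℕ} (a : ℕ) (h : Fin K → ℕ) (p : ℕ) (hp : p.Prime) (v : ℕ) :
    v % p ∉ Om a h p ↔ ∀ i, ¬ p ∣ a * v + h i := by
  unfold Om
  rw [mem_filter, mem_range]
  have h1 : v % p < p := Nat.mod_lt _ hp.pos
  simp only [h1, true_and, not_exists]
  refine forall_congr' fun i => not_congr ?_
  have h2 : a * (v % p) + h i ≡ a * v + h i [MOD p] :=
    ((Nat.mod_modEq v p).mul_left a).add_right _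
  exact h2.dvd_iff dvd_rfl

end TB2

/-- brick B2 -/
theorem B2.main : StB2 := by
  classical
  obtain ⟨C0, hC0, hF⟩ := fll
  refine ⟨C0, hC0, ?_⟩
  intro K b₀ M hb hM hMp a h S w X ρ B hBM hX hw hρ ha hq D r z J hD hDB hPD hz
  have hPmem0 : ∀ p ∈ PS M z, p.Prime ∧ ¬ p ∣ M ∧ p ≤ z := by
    intro p hp
    rw [PS, mem_filter, mem_Icc] at hp
    exact ⟨hp.2.1, hp.2.2, hp.1.2⟩
  have hPmem : ∀ p ∈ PS M z, p.Prime ∧ C0 * (K + 1) < p ∧ p ≤ 2 ^ 2 ^ J := by
    intro p hp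
    obtain ⟨h1, h2, h3⟩ := hPmem0 p hp
    refine ⟨h1, ?_, h3.trans hz⟩
    by_contra hcon
    exact h2 (hMp p h1 (not_lt.1 hcon))
  have hD' : (0 : ℝ) < D := by exact_mod_cast hD
  have h1 := hF K b₀ J (C0 * (K + 1)) (PS M z) (fun p => 1 / (p : ℝ)) (TB2.Om a h) hb le_rfl hPmem
    (fun p hp => TB2.card_Om a h p (hPmem p hp).1 (ha p (hPmem p hp).1 (hPmem0 p hp).2.1))
    (by
      intro p hp
      have hp2 : (2 : ℝ) ≤ p := by exact_mod_cast (hPmem p hp).1.two_le
      refine ⟨by positivity, ?_⟩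
      apply one_div_le_one_div_of_le (by linarith)
      linarith)
    (S.filter (fun v => v ≡ r [MOD D])) w (X / D) (fun d => ρ (D * d))
    (fun v hv => hw v (mem_filter.1 hv).1) (div_nonneg hX hD'.le) (fun _ => hρ _)
    (by
      intro T hT _ c hc
      obtain ⟨r', hr'⟩ := crt_set D r c T (fun p hp => ⟨(hPmem p (hT hp)).1, hPD p (hT hp)⟩)
        (fun p hp => mem_range.1 (mem_filter.1 (hc p hp)).1)
      rw [filter_filter]
      have e1 : S.filter (fun n => n ≡ r [MOD D] ∧ ∀ p ∈ T, n % p = c p) =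
          S.filter (fun n => n ≡ r' [MOD D * ∏ p ∈ T, p]) :=
        filter_congr fun n _ => hr' n
      rw [e1]
      have hpos : 0 < D * ∏ p ∈ T, p :=
        Nat.mul_pos hD (Finset.prod_pos fun p hp => (hPmem p (hT hp)).1.pos)
      have hcop : (D * ∏ p ∈ T, p).Coprime B := by
        refine Nat.Coprime.mul_left hDB (Nat.Coprime.prod_left fun p hp => ?_)
        refine (Nat.Prime.coprime_iff_not_dvd (hPmem p (hT hp)).1).2 fun h3 => ?_
        exact (hPmem0 p (hT hp)).2.1 (h3.trans hBM)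
      have h2 := hq (D * ∏ p ∈ T, p) r' hpos hcop
      have e2 : X / ((D * ∏ p ∈ T, p : ℕ) : ℝ) = X / D * ∏ p ∈ T, 1 / (p : ℝ) := by
        push_cast
        rw [← div_div, div_eq_mul_inv _ (∏ p ∈ T, (p : ℝ)), ← prod_inv_distrib]
        simp only [one_div]
      rwa [e2] at h2)
  rw [filter_filter] at h1
  have e3 : ∏ p ∈ PS M z, (1 - ((TB2.Om a h p).card : ℝ) * (1 / (p : ℝ))) = VK a h M z := by
    unfold VK
    apply prod_congr rfl
    intro p _
    rw [mul_one_div]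
    rfl
  have e4 : S.filter (fun n => n ≡ r [MOD D] ∧ ∀ p ∈ PS M z, n % p ∉ TB2.Om a h p) =
      S.filter (fun v => v ≡ r [MOD D] ∧ ∀ p ∈ PS M z, ∀ i, ¬ p ∣ a * v + h i) := by
    refine filter_congr fun n _ => ?_
    refine and_congr Iff.rfl ?_
    constructor
    · intro h3 p hp
      exact (TB2.mod_Om a h p (hPmem p hp).1 n).1 (h3 p hp)
    · intro h3 p hp
      exact (TB2.mod_Om a h p (hPmem p hp).1 n).2 (h3 p hp)
  rw [e3, e4] at h1
  exact h1

end Pool.Agent.K3h54.PC
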