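import Pool.Agent.K3h54.PC.Stm

/-!
# Brick B3: the sum of the remainders over the colourings
-/

set_option autoImplicit false

namespace Pool.Agent.K3h54.PC.B3

open Finset
open Pool.Agent.R498.MT

theorem two_pow_le_divisors {q a : ℕ} (hq : q ≠ 0) (ha : a ≤ q.primeFactors.card) :
    2 ^ a ≤ q.divisors.card := by
  rw [Nat.card_divisors hq]
  calc 2 ^ a ≤ 2 ^ q.primeFactors.card := Nat.pow_le_pow_right (by norm_num) ha
    _ = ∏ _x ∈ q.primeFactors, 2 := by rw [prod_const]
    _ ≤ ∏ x ∈ q.primeFactors, (q.factorization x + 1) := by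
      refine Finset.prod_le_prod' fun p hp => ?_
      have h1 : 0 < q.factorization p :=
        (Nat.prime_of_mem_primeFactors hp).factorization_pos_of_dvd hq
          (Nat.dvd_of_mem_primeFactors hp)
      omega

open Classical in
theorem main : Pool.Agent.K3h54.PC.StB3 := by
  intro k S _ _ pp hpp hinj P hP hppP W B Q hW hWB hppB hppW hPW ρ hρ FU FT hFT hQ
  have hDTpos : ∀ V : S → Option (Fin (2 ^ k)), 0 < DT pp V := by
    intro V
    unfold DT
    refine prod_pos fun s _ => ?_
    split_ifs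
    · exact one_pos
    · exact (hpp s).pos
  have hTpos : ∀ T ∈ FT, 0 < ∏ p ∈ T, p := fun T hT =>
    prod_pos fun p hp => (hP p (hFT T hT hp)).pos
  -- prime divisors
  have hP1 : ∀ V : S → Option (Fin (2 ^ k)), ∀ T ∈ FT, ∀ p ∈ P,
      p ∣ W * DT pp V * ∏ p ∈ T, p ↔ p ∈ T := by
    intro V T hT p hp
    have hpr := hP p hp
    constructor
    · intro h
      rcases (Nat.Prime.dvd_mul hpr).mp h with h | h
      · exfalso
        rcases (Nat.Prime.dvd_mul hpr).mp h with h | h
        · exact (hPW p hp).1 h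
        · unfold DT at h
          obtain ⟨s, -, hs⟩ := (hpr.prime.dvd_finsetProd_iff _).mp h
          split_ifs at hs
          · exact hpr.one_lt.ne' (Nat.dvd_one.mp hs)
          · rw [Nat.prime_dvd_prime_iff_eq hpr (hpp s)] at hs
            exact hppP s (hs ▸ hp)
      · obtain ⟨p', hp', hpp'⟩ := (hpr.prime.dvd_finsetProd_iff _).mp h
        rw [Nat.prime_dvd_prime_iff_eq hpr (hP p' (hFT T hT hp'))] at hpp'
        rw [hpp']
        exact hp'
    · intro h
      exact (dvd_prod_of_mem _ h).mul_left _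
  have hS1 : ∀ V : S → Option (Fin (2 ^ k)), ∀ T ∈ FT, ∀ s,
      pp s ∣ W * DT pp V * ∏ p ∈ T, p ↔ V s ≠ none := by
    intro V T hT s
    have hpr := hpp s
    constructor
    · intro h
      rcases (Nat.Prime.dvd_mul hpr).mp h with h | h
      · rcases (Nat.Prime.dvd_mul hpr).mp h with h | h
        · exact absurd h (hppW s)
        · unfold DT at h
          obtain ⟨s', -, hs'⟩ := (hpr.prime.dvd_finsetProd_iff _).mp h
          split_ifs at hs' with h0
          · exact absurd (Nat.dvd_one.mp hs') hpr.one_lt.ne'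
          · rw [Nat.prime_dvd_prime_iff_eq hpr (hpp s')] at hs'
            rw [hinj hs']
            exact h0
      · exfalso
        obtain ⟨p', hp', hpp'⟩ := (hpr.prime.dvd_finsetProd_iff _).mp h
        rw [Nat.prime_dvd_prime_iff_eq hpr (hP p' (hFT T hT hp'))] at hpp'
        exact hppP s (hpp' ▸ hFT T hT hp')
    · intro h
      have : pp s ∣ DT pp V := by
        unfold DT
        have h2 := dvd_prod_of_mem (fun s => if V s = none then 1 else pp s) (mem_univ s)
        simp only [if_neg h] at h2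
        exact h2
      exact (this.mul_left _).mul_right _
  set qq : (S → Option (Fin (2 ^ k))) × Finset ℕ → ℕ := fun x =>
    W * DT pp x.1 * ∏ p ∈ x.2, p with hqq
  set G := (Icc 1 Q).filter (fun q => q.Coprime B) with hG
  have hmaps : ∀ x ∈ FU ×ˢ FT, qq x ∈ G := by
    intro x hx
    rw [mem_product] at hx
    rw [hG, mem_filter, mem_Icc]
    refine ⟨⟨?_, hQ x.1 hx.1 x.2 hx.2⟩, ?_⟩
    · exact Nat.mul_pos (Nat.mul_pos hW (hDTpos _)) (hTpos _ hx.2)
    · refine Nat.Coprime.mul_left (Nat.Coprime.mul_left hWB ?_) ?_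
      · unfold DT
        refine Nat.Coprime.prod_left fun s _ => ?_
        split_ifs
        · exact Nat.coprime_one_left _
        · exact hppB s
      · exact Nat.Coprime.prod_left fun p hp => (hPW p (hFT _ hx.2 hp)).2
  have hsum : ∑ V ∈ FU, ∑ T ∈ FT, ((2 ^ k : ℕ) : ℝ) ^ T.card * ρ (W * DT pp V * ∏ p ∈ T, p) =
      ∑ x ∈ FU ×ˢ FT, ((2 ^ k : ℕ) : ℝ) ^ x.2.card * ρ (qq x) := by
    rw [sum_product]
  rw [hsum, ← sum_fiberwise_of_maps_to hmaps]
  refine sum_le_sum fun q hq => ?_
  have hq0 : q ≠ 0 := by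
    rw [hG, mem_filter, mem_Icc] at hq
    omega
  set Tq : Finset ℕ := P.filter (fun p => p ∣ q) with hTq
  have h1 : ∑ x ∈ (FU ×ˢ FT).filter (fun x => qq x = q), ((2 ^ k : ℕ) : ℝ) ^ x.2.card * ρ (qq x) =
      (((FU ×ˢ FT).filter (fun x => qq x = q)).card : ℝ) *
        (((2 ^ k : ℕ) : ℝ) ^ Tq.card * ρ q) := by
    rw [← nsmul_eq_mul, ← sum_const]
    refine sum_congr rfl fun x hx => ?_
    rw [mem_filter, mem_product] at hx
    have : x.2 = Tq := by
      ext p
      rw [hTq, mem_filter]
      constructor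
      · intro hp
        refine ⟨hFT _ hx.1.2 hp, ?_⟩
        rw [← hx.2]
        exact (hP1 x.1 x.2 hx.1.2 p (hFT _ hx.1.2 hp)).mpr hp
      · rintro ⟨hp, hd⟩
        rw [← hx.2] at hd
        exact (hP1 x.1 x.2 hx.1.2 p hp).mp hd
    rw [hx.2, this]
  rw [h1]
  set Sq : Finset S := univ.filter (fun s => pp s ∣ q) with hSq
  have h2 : ((FU ×ˢ FT).filter (fun x => qq x = q)).card ≤ (2 ^ k) ^ Sq.card := by
    have hsub : (FU ×ˢ FT).filter (fun x => qq x = q) ⊆
        (Fintype.piFinset (fun s => if pp s ∣ q then univ.map Function.Embedding.some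
          else ({none} : Finset (Option (Fin (2 ^ k)))))) ×ˢ {Tq} := by
      intro x hx
      rw [mem_filter, mem_product] at hx
      rw [mem_product, mem_singleton, Fintype.mem_piFinset]
      refine ⟨fun s => ?_, ?_⟩
      · have h3 := hS1 x.1 x.2 hx.1.2 s
        have h4 : W * DT pp x.1 * ∏ p ∈ x.2, p = q := hx.2
        rw [h4] at h3
        split_ifs with h5
        · have h6 := h3.mp h5
          obtain ⟨j, hj⟩ := Option.ne_none_iff_exists'.mp h6
          rw [hj]
          simp
        · have h6 : x.1 s = none := by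
            by_contra h7
            exact h5 (h3.mpr h7)
          rw [h6, mem_singleton]
      · ext p
        rw [hTq, mem_filter]
        constructor
        · intro hp
          refine ⟨hFT _ hx.1.2 hp, ?_⟩
          rw [← hx.2]
          exact (hP1 x.1 x.2 hx.1.2 p (hFT _ hx.1.2 hp)).mpr hp
        · rintro ⟨hp, hd⟩
          rw [← hx.2] at hd
          exact (hP1 x.1 x.2 hx.1.2 p hp).mp hd
    refine (card_le_card hsub).trans ?_
    rw [card_product, card_singleton, mul_one, Fintype.card_piFinset]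
    have h3 : ∀ s : S, (if pp s ∣ q then univ.map Function.Embedding.some
          else ({none} : Finset (Option (Fin (2 ^ k))))).card = if pp s ∣ q then 2 ^ k else 1 := by
      intro s
      split_ifs
      · simp
      · simp
    simp only [h3]
    rw [prod_ite, prod_const, prod_const_one, mul_one]
  have h3 : Sq.card + Tq.card ≤ q.primeFactors.card := by
    have h4 : (Sq.map ⟨pp, hinj⟩) ∪ Tq ⊆ q.primeFactors := by
      intro p hp
      rw [mem_union, mem_map] at hp
      rw [Nat.mem_primeFactors]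
      rcases hp with ⟨s, hs, rfl⟩ | hp
      · rw [hSq, mem_filter] at hs
        exact ⟨hpp s, hs.2, hq0⟩
      · rw [hTq, mem_filter] at hp
        exact ⟨hP p hp.1, hp.2, hq0⟩
    have h5 : Disjoint (Sq.map ⟨pp, hinj⟩) Tq := by
      rw [Finset.disjoint_left]
      intro p hp hp'
      rw [mem_map] at hp
      obtain ⟨s, -, rfl⟩ := hp
      rw [hTq, mem_filter] at hp'
      exact hppP s hp'.1
    have h6 := card_le_card h4
    rwa [card_union_of_disjoint h5, card_map] at h6
  have h4 : (2 ^ k) ^ Sq.card * (2 ^ k) ^ Tq.card ≤ q.divisors.card ^ k := by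
    rw [← pow_add, ← pow_mul, mul_comm k, pow_mul]
    exact Nat.pow_le_pow_left (two_pow_le_divisors hq0 h3) k
  calc (((FU ×ˢ FT).filter (fun x => qq x = q)).card : ℝ) * (((2 ^ k : ℕ) : ℝ) ^ Tq.card * ρ q)
      ≤ (((2 ^ k) ^ Sq.card : ℕ) : ℝ) * (((2 ^ k : ℕ) : ℝ) ^ Tq.card * ρ q) := by
        refine mul_le_mul_of_nonneg_right (by exact_mod_cast h2) ?_
        exact mul_nonneg (by positivity) (hρ q)
    _ = (((2 ^ k) ^ Sq.card * (2 ^ k) ^ Tq.card : ℕ) : ℝ) * ρ q := by
        push_cast
        ring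
    _ ≤ ((q.divisors.card ^ k : ℕ) : ℝ) * ρ q :=
        mul_le_mul_of_nonneg_right (by exact_mod_cast h4) (hρ q)
    _ = (q.divisors.card : ℝ) ^ k * ρ q := by push_cast; ring

end Pool.Agent.K3h54.PC.B3
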