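import Pool.Agent.K3h54.PC.Stm

/-!
# Brick B4: the colouring and the residue classes
-/

set_option autoImplicit false

namespace Pool.Agent.K3h54.PC.B4

open Finset
open Pool.Agent.R498.MT

theorem lin_class {p : ℕ} (hp : p.Prime) (a h : ℕ) (ha : ¬ p ∣ a) :
    ∃ r : ℕ, ∀ v : ℕ, p ∣ a * v + h ↔ v ≡ r [MOD p] := by
  have : Fact p.Prime := ⟨hp⟩
  have ha' : (a : ZMod p) ≠ 0 := by
    rwa [Ne, ZMod.natCast_eq_zero_iff]
  refine ⟨(-(h : ZMod p) * (a : ZMod p)⁻¹).val, fun v => ?_⟩
  rw [← ZMod.natCast_eq_natCast_iff, ← ZMod.natCast_eq_zero_iff, ZMod.natCast_val,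
    ZMod.cast_id', id, Nat.cast_add, Nat.cast_mul]
  constructor
  · intro h1
    field_simp
    linear_combination h1
  · intro h1
    rw [h1]
    field_simp
    ring

theorem main : Pool.Agent.K3h54.PC.StB4 := by
  intro K S _ _ pp hpp hinj a h ha hne
  have h1 : ∀ v s j, xi pp a h v s = some j ↔ pp s ∣ a * v + h j := by
    intro v s j
    unfold xi
    constructor
    · intro h2
      split_ifs at h2 with H
      · rw [Option.some.injEq] at h2
        rw [← h2]
        exact H.choose_spec
    · intro h2
      have H : ∃ j, pp s ∣ a * v + h j := ⟨j, h2⟩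
      rw [dif_pos H, Option.some.injEq]
      by_contra hcon
      apply hne s _ _ hcon
      have h3 := H.choose_spec
      have h4 : a * v + h H.choose ≡ a * v + h j [MOD pp s] :=
        (Nat.modEq_zero_iff_dvd.mpr h3).trans (Nat.modEq_zero_iff_dvd.mpr h2).symm
      exact Nat.ModEq.add_left_cancel' _ h4
  refine ⟨h1, fun V W c hW hWp => ?_⟩
  have key : ∀ T : Finset S, ∃ r : ℕ, ∀ v : ℕ,
      (v ≡ c [MOD W] ∧ ∀ t ∈ T, V t = none ∨ V t = xi pp a h v t) ↔
        v ≡ r [MOD W * ∏ s ∈ T, if V s = none then 1 else pp s] := by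
    intro T
    induction T using Finset.induction_on with
    | empty => exact ⟨c, fun v => by simp⟩
    | insert s T hs ih =>
      obtain ⟨r, hr⟩ := ih
      rcases hV : V s with _ | j
      · refine ⟨r, fun v => ?_⟩
        rw [prod_insert hs, hV, if_pos rfl, one_mul, ← hr v]
        constructor
        · rintro ⟨h2, h3⟩
          exact ⟨h2, fun t ht => h3 t (mem_insert_of_mem ht)⟩
        · rintro ⟨h2, h3⟩
          refine ⟨h2, fun t ht => ?_⟩
          rcases mem_insert.mp ht with rfl | ht
          · exact Or.inl hV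
          · exact h3 t ht
      · obtain ⟨r', hr'⟩ := lin_class (hpp s) a (h j) (ha s)
        have hco : Nat.Coprime (W * ∏ s ∈ T, if V s = none then 1 else pp s) (pp s) := by
          refine Nat.Coprime.mul_left ?_ ?_
          · exact ((hpp s).coprime_iff_not_dvd.mpr (hWp s)).symm
          · refine Nat.Coprime.prod_left fun t ht => ?_
            split_ifs
            · exact Nat.coprime_one_left _
            · refine (Nat.coprime_primes (hpp t) (hpp s)).mpr fun h' => hs ?_
              rw [← hinj h']
              exact ht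
        refine ⟨(Nat.chineseRemainder hco r r' : ℕ), fun v => ?_⟩
        have h5 := (Nat.chineseRemainder hco r r').2
        rw [prod_insert hs, hV, if_neg (Option.some_ne_none j),
          show W * (pp s * ∏ s ∈ T, if V s = none then 1 else pp s) =
            (W * ∏ s ∈ T, if V s = none then 1 else pp s) * pp s by ring,
          ← Nat.modEq_and_modEq_iff_modEq_mul hco]
        constructor
        · rintro ⟨h2, h3⟩
          refine ⟨((hr v).mp ⟨h2, fun t ht => h3 t (mem_insert_of_mem ht)⟩).trans h5.1.symm, ?_⟩
          have h6 := h3 s (mem_insert_self _ _)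
          rw [hV] at h6
          rcases h6 with h6 | h6
          · exact absurd h6 (Option.some_ne_none j)
          · exact ((hr' v).mp ((h1 v s j).mp h6.symm)).trans h5.2.symm
        · rintro ⟨h2, h3⟩
          obtain ⟨h7, h8⟩ := (hr v).mpr (h2.trans h5.1)
          refine ⟨h7, fun t ht => ?_⟩
          rcases mem_insert.mp ht with rfl | ht
          · right
            rw [hV]
            exact ((h1 v t j).mpr ((hr' v).mpr (h3.trans h5.2))).symm
          · exact h8 t ht
  obtain ⟨r, hr⟩ := key univ
  refine ⟨r, fun v => ?_⟩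
  unfold DT
  rw [← hr v]
  unfold Pool.Agent.R498.MT.Sub
  simp

end Pool.Agent.K3h54.PC.B4
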