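import Pool.Agent.K3h54.PC.FIN

/-!
# Clusters of almost prime palindromes: the sieve, with a lower bound for the number of values

Adapted from `FIN.core` (helper32).
-/

set_option autoImplicit false
set_option linter.unusedSectionVars false

namespace Pool.Agent.K3h54.PC

namespace Core2

open Finset Filter
open Pool.Agent.W23.DC (pr tt)
open Pool.Agent.Y882.KW (WW)
open FIN (wsum)

/-- the class modulo `p ^ 2` -/
lemma exh (b a c : ℕ) (ha : ∀ p : ℕ, p.Prime → p ∣ a → p ∣ 2 * b) : ∃ hh : ℕ → ℕ, ∀ p : ℕ,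
    p.Coprime (2 * b) → ∀ v : ℕ, p ^ 2 ∣ a * v + c → v ≡ hh p [MOD p ^ 2] := by
  classical
  refine ⟨fun p => if H : ∃ v, p ^ 2 ∣ a * v + c then H.choose else 0, ?_⟩
  intro p hp v hv
  have H : ∃ v, p ^ 2 ∣ a * v + c := ⟨v, hv⟩
  simp only [dif_pos H]
  have h1 := H.choose_spec
  generalize H.choose = u at h1 ⊢
  have h2 : a * v + c ≡ a * u + c [MOD p ^ 2] :=
    ((Nat.modEq_zero_iff_dvd.2 hv)).trans (Nat.modEq_zero_iff_dvd.2 h1).symm
  have h3 : a * v ≡ a * u [MOD p ^ 2] := Nat.ModEq.add_right_cancel' c h2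
  refine Nat.ModEq.cancel_left_of_coprime ?_ h3
  have h4 : Nat.Coprime p a := by
    rw [Nat.coprime_iff_gcd_eq_one]
    by_contra hne
    obtain ⟨q, hq, hqd⟩ := Nat.exists_prime_and_dvd hne
    have h5 := ha q hq (hqd.trans (Nat.gcd_dvd_right _ _))
    have h6 := Nat.dvd_gcd (hqd.trans (Nat.gcd_dvd_left _ _)) h5
    rw [hp] at h6
    exact hq.one_lt.ne' (Nat.dvd_one.1 h6)
  exact Nat.Coprime.pow_left 2 h4

/-- size conditions -/
lemma sizes (b C k A Y₀ : ℕ) (ee : ℝ) (hb : 2 ≤ b) (hee : 0 < ee) : ∀ᶠ L : ℕ in atTop,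
    Y₀ ≤ b ^ (2 * L) ∧ 2 ≤ b ^ (2 * L) ∧ 2 * L + C ≤ 4 * L ∧ 1 ≤ L ∧
      ((b : ℝ) ^ (2 * L + C)) ≤ (((b ^ (2 * L) : ℕ)) : ℝ) ^ (1 + ee) ∧
      2 * (2 : ℝ) ^ k * (2 * Real.log b) ^ A ≤ L ∧ 2 * (2 : ℝ) ^ (2 ^ k) * (2 * Real.log b) ^ A ≤ L := by
  obtain ⟨n1, hn1⟩ := exists_nat_ge ((C : ℝ) / (2 * ee))
  obtain ⟨n2, hn2⟩ := exists_nat_ge (2 * (2 : ℝ) ^ k * (2 * Real.log b) ^ A)
  obtain ⟨n3, hn3⟩ := exists_nat_ge (2 * (2 : ℝ) ^ (2 ^ k) * (2 * Real.log b) ^ A)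
  filter_upwards [eventually_ge_atTop (n1 + n2 + n3 + Y₀ + C + 1)] with L hL
  have hbr : (2 : ℝ) ≤ b := by exact_mod_cast hb
  have h1 : 2 * L < b ^ (2 * L) := (Nat.lt_two_pow_self).trans_le (Nat.pow_le_pow_left hb _)
  have hL1 : (n1 : ℝ) ≤ L := by exact_mod_cast (by omega : n1 ≤ L)
  have hL2 : (n2 : ℝ) ≤ L := by exact_mod_cast (by omega : n2 ≤ L)
  have hL3 : (n3 : ℝ) ≤ L := by exact_mod_cast (by omega : n3 ≤ L)
  refine ⟨by omega, by omega, by omega, by omega, ?_, hn2.trans hL2, hn3.trans hL3⟩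
  have h2 : (((b ^ (2 * L) : ℕ)) : ℝ) = (b : ℝ) ^ ((2 * L : ℕ) : ℝ) := by
    rw [Real.rpow_natCast]
    push_cast
    rfl
  rw [h2, ← Real.rpow_mul (by linarith), ← Real.rpow_natCast]
  apply Real.rpow_le_rpow_of_exponent_le (by linarith)
  push_cast
  have h3 := hn1.trans hL1
  rw [div_le_iff₀ (by positivity)] at h3
  nlinarith

open Classical in
/-- from one good value to many good values with the same set of indices -/
lemma pop {ι : Type} [Fintype ι] (S : Finset ℕ) (w : ℕ → ℝ) (hw : ∀ v ∈ S, 0 ≤ w v) (B0 : ℝ) (m : ℕ)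
    (Bad0 : ℕ → Prop) (R : ℕ → ι → Prop) (hB0 : 0 < B0)
    (hbad : ∑ v ∈ S.filter (fun v => Bad0 v), w v ≤ B0 / 2)
    (hcore : ∀ Bad : ℕ → Prop, ∑ v ∈ S.filter (fun v => Bad v), w v ≤ B0 →
      ∃ v ∈ S, ¬ Bad v ∧ ∃ I : Finset ι, m ≤ I.card ∧ ∀ i ∈ I, R v i) :
    ∃ I : Finset ι, I.card = m ∧
      B0 / (2 * 2 ^ Fintype.card ι) ≤ ∑ v ∈ S.filter (fun v => ¬ Bad0 v ∧ ∀ i ∈ I, R v i), w v := by
  by_contra hcon
  push Not at hcon
  have h1 := hcore (fun v => Bad0 v ∨ (¬ Bad0 v ∧ ∃ I : Finset ι, I.card = m ∧ ∀ i ∈ I, R v i)) (by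
    have h2 : S.filter (fun v => Bad0 v ∨ (¬ Bad0 v ∧ ∃ I : Finset ι, I.card = m ∧ ∀ i ∈ I, R v i)) ⊆
        S.filter (fun v => Bad0 v) ∪ (univ.filter (fun I : Finset ι => I.card = m)).biUnion
          (fun I => S.filter (fun v => ¬ Bad0 v ∧ ∀ i ∈ I, R v i)) := by
      intro v hv
      rw [mem_filter] at hv
      obtain ⟨hvS, h3 | ⟨h3, I, hI, h4⟩⟩ := hv
      · exact mem_union_left _ (mem_filter.2 ⟨hvS, h3⟩)
      · apply mem_union_right
        rw [mem_biUnion]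
        exact ⟨I, mem_filter.2 ⟨mem_univ _, hI⟩, mem_filter.2 ⟨hvS, h3, h4⟩⟩
    have hsub : (S.filter (fun v => Bad0 v) ∪ (univ.filter (fun I : Finset ι => I.card = m)).biUnion
          (fun I => S.filter (fun v => ¬ Bad0 v ∧ ∀ i ∈ I, R v i))) ⊆ S := by
      intro v hv
      rw [mem_union, mem_biUnion] at hv
      rcases hv with h | ⟨I, _, h⟩
      · exact (mem_filter.1 h).1
      · exact (mem_filter.1 h).1
    have h3 := sum_le_sum_of_subset_of_nonneg (f := w) h2 (fun v hv _ => hw v (hsub hv))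
    have h4 : ∑ v ∈ (S.filter (fun v => Bad0 v) ∪ (univ.filter (fun I : Finset ι => I.card = m)).biUnion
          (fun I => S.filter (fun v => ¬ Bad0 v ∧ ∀ i ∈ I, R v i))), w v ≤
        ∑ v ∈ S.filter (fun v => Bad0 v), w v + ∑ v ∈ (univ.filter (fun I : Finset ι => I.card = m)).biUnion
          (fun I => S.filter (fun v => ¬ Bad0 v ∧ ∀ i ∈ I, R v i)), w v := by
      rw [← sum_union_inter]
      have : 0 ≤ ∑ v ∈ (S.filter (fun v => Bad0 v) ∩ (univ.filter (fun I : Finset ι => I.card = m)).biUnion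
          (fun I => S.filter (fun v => ¬ Bad0 v ∧ ∀ i ∈ I, R v i))), w v :=
        sum_nonneg fun v hv => hw v (mem_filter.1 (mem_inter.1 hv).1).1
      linarith
    have h5 : ∑ v ∈ (univ.filter (fun I : Finset ι => I.card = m)).biUnion
          (fun I => S.filter (fun v => ¬ Bad0 v ∧ ∀ i ∈ I, R v i)), w v ≤
        ∑ I ∈ univ.filter (fun I : Finset ι => I.card = m),
          ∑ v ∈ S.filter (fun v => ¬ Bad0 v ∧ ∀ i ∈ I, R v i), w v := by
      have : ∀ T : Finset (Finset ι), ∑ v ∈ T.biUnion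
          (fun I => S.filter (fun v => ¬ Bad0 v ∧ ∀ i ∈ I, R v i)), w v ≤
        ∑ I ∈ T, ∑ v ∈ S.filter (fun v => ¬ Bad0 v ∧ ∀ i ∈ I, R v i), w v := by
        intro T
        induction T using Finset.induction_on with
        | empty => simp
        | insert a T ha ih =>
          rw [biUnion_insert, sum_insert ha]
          have h6 : ∑ v ∈ (S.filter (fun v => ¬ Bad0 v ∧ ∀ i ∈ a, R v i)) ∪ T.biUnion
              (fun I => S.filter (fun v => ¬ Bad0 v ∧ ∀ i ∈ I, R v i)), w v ≤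
              ∑ v ∈ S.filter (fun v => ¬ Bad0 v ∧ ∀ i ∈ a, R v i), w v + ∑ v ∈ T.biUnion
              (fun I => S.filter (fun v => ¬ Bad0 v ∧ ∀ i ∈ I, R v i)), w v := by
            rw [← sum_union_inter]
            have : 0 ≤ ∑ v ∈ ((S.filter (fun v => ¬ Bad0 v ∧ ∀ i ∈ a, R v i)) ∩ T.biUnion
              (fun I => S.filter (fun v => ¬ Bad0 v ∧ ∀ i ∈ I, R v i))), w v :=
              sum_nonneg fun v hv => hw v (mem_filter.1 (mem_inter.1 hv).1).1
            linarith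
          linarith
      exact this _
    have h6 : ∑ I ∈ univ.filter (fun I : Finset ι => I.card = m),
          ∑ v ∈ S.filter (fun v => ¬ Bad0 v ∧ ∀ i ∈ I, R v i), w v ≤ B0 / 2 := by
      refine (sum_le_card_nsmul _ _ (B0 / (2 * 2 ^ Fintype.card ι)) (fun I hI => ?_)).trans ?_
      · exact (hcon I (mem_filter.1 hI).2).le
      · rw [nsmul_eq_mul]
        have h7 : (((univ.filter (fun I : Finset ι => I.card = m)).card : ℕ) : ℝ) ≤ 2 ^ Fintype.card ι := by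
          have : (univ.filter (fun I : Finset ι => I.card = m)).card ≤ 2 ^ Fintype.card ι := by
            refine (card_le_univ _).trans ?_
            rw [Fintype.card_finset]
          exact_mod_cast this
        have h8 : (0 : ℝ) < 2 ^ Fintype.card ι := by positivity
        calc (((univ.filter (fun I : Finset ι => I.card = m)).card : ℕ) : ℝ) *
            (B0 / (2 * 2 ^ Fintype.card ι)) ≤ 2 ^ Fintype.card ι * (B0 / (2 * 2 ^ Fintype.card ι)) :=
              mul_le_mul_of_nonneg_right h7 (by positivity)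
          _ = B0 / 2 := by field_simp
    have h9 := h3.trans (h4.trans (add_le_add hbad (h5.trans h6)))
    have h10 : B0 / 2 + B0 / 2 = B0 := by ring
    rw [h10] at h9
    exact (le_of_eq (by congr!)).trans h9)
  obtain ⟨v, hv, hvB, I, hI, hIR⟩ := h1
  push Not at hvB
  obtain ⟨I', hI', hI'c⟩ := Finset.exists_subset_card_eq hI
  obtain ⟨i, hi, hni⟩ := hvB.2 hvB.1 I' hI'c
  exact hni (hIR i (hI' hi))

open Classical in
/-- the sieve for a family of values `f μ`, with a lower bound for the number of `μ` -/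
theorem core2 (hM : StMTW) (b s t r : ℕ) (κ τ : ℝ) (hb : 2 ≤ b) (hs : 1 ≤ s) (ht : 1 ≤ t)
    (hκ1 : κ < 1) (hτ : 1 / 5 ≤ τ) (hτκ : 2 * τ < κ) (hr : 25 < (24 * (r : ℝ) - 3) * τ) (m : ℕ) :
    ∃ k W A : ℕ, 0 < W ∧ ∀ C : ℕ, ∀ᶠ L : ℕ in atTop,
      ∀ (f : (Fin L → Fin s × Fin t) → ℕ) (a : ℕ) (h : Fin (2 ^ k) → ℕ) (er : ℕ → ℝ),
      (∀ p : ℕ, p.Prime → p ∣ a → p ∣ 2 * b) → Function.Injective h → (∀ i j, h i ≡ h j [MOD W]) →
      (∀ i μ, a * f μ + h i < b ^ (2 * L + C)) → (∀ i μ, (a * f μ + h i).Coprime (2 * b)) →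
      (∀ q, 0 ≤ er q) →
      (∀ q r' : ℕ, 0 < q → q.Coprime (2 * b) →
        |(((univ : Finset (Fin L → Fin s × Fin t)).filter (fun μ => f μ ≡ r' [MOD q])).card : ℝ) -
          ((s : ℝ) * t) ^ L / q| ≤ er q) →
      ∑ q ∈ (Icc 1 ⌊(b : ℝ) ^ (κ * L)⌋₊).filter (fun q => q.Coprime (2 * b)),
        (q.divisors.card : ℝ) ^ k * er q ≤ ((s : ℝ) * t) ^ L / (L : ℝ) ^ (A + 1) →
      (∀ hh : ℕ → ℕ, (((univ : Finset (Fin L → Fin s × Fin t)).filter (fun μ => ∃ p : ℕ, p.Coprime (2 * b) ∧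
        (b : ℝ) ^ (2 * (τ / 4) * L) ≤ p ∧ (p : ℝ) ≤ (b : ℝ) ^ (κ * L) ∧ f μ ≡ hh p [MOD p ^ 2])).card : ℝ) ≤
        ((s : ℝ) * t) ^ L / (L : ℝ) ^ (A + 1)) →
      ∃ I : Finset (Fin (2 ^ k)), I.card = m ∧ ∃ G : Finset (Fin L → Fin s × Fin t),
        ((s : ℝ) * t) ^ L / (L : ℝ) ^ (A + 1) ≤ G.card ∧ ∀ μ ∈ G, ∀ i ∈ I,
          (a * f μ + h i).primeFactorsList.length ≤ r ∧
          ∀ p : ℕ, p.Prime → p ∣ a * f μ + h i → (b : ℝ) ^ ((L : ℝ) / 10) ≤ p := by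
  have hbr : (2 : ℝ) ≤ b := by exact_mod_cast hb
  have hb0 : (0 : ℝ) < b := by linarith
  have hb1 : (1 : ℝ) ≤ b := by linarith
  have hlb : 0 < Real.log b := Real.log_pos (by linarith)
  have hsr : (1 : ℝ) ≤ s := by exact_mod_cast hs
  have htr : (1 : ℝ) ≤ t := by exact_mod_cast ht
  have hst0 : (0 : ℝ) < (s : ℝ) * t := by positivity
  have hτ0 : 0 < τ := by linarith
  have hκ0 : 0 < κ := by linarith
  obtain ⟨υ, hυ⟩ : ∃ υ : ℝ, υ = 24 / 25 * τ := ⟨_, rfl⟩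
  have hυ0 : 0 < υ := by rw [hυ]; positivity
  have hcond : ∫ x in (τ / 4)..υ, ((8 / 9 : ℝ) - (8 / 9) / υ * x) / (τ - x) / x <
      Real.log (τ / (τ / 4) - 1) / τ := by
    rw [hυ]
    exact Pool.Agent.Y882.KW.cond_A τ (8 / 9) hτ0 (by norm_num) (by norm_num)
  obtain ⟨R, hR0, hR1, hR2⟩ : ∃ R : ℝ, 0 < R ∧ R < τ / 4 ∧ 2 * R + τ < κ / 2 := by
    refine ⟨min (τ / 8) ((κ / 2 - τ) / 8), lt_min (by linarith) (by linarith), ?_, ?_⟩
    · exact (min_le_left _ _).trans_lt (by linarith)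
    · have := min_le_right (τ / 8) ((κ / 2 - τ) / 8)
      linarith
  obtain ⟨ee, hee⟩ : ∃ e : ℝ, e = ((24 * (r : ℝ) - 3) * τ - 25) / 25 := ⟨_, rfl⟩
  have hee0 : 0 < ee := by rw [hee]; linarith
  have hr1 : 1 / (8 / 9 : ℝ) + (1 + ee) / υ ≤ r + 1 := by
    have h1 : (1 + ee) / υ = (r : ℝ) - 1 / 8 := by
      rw [hυ, div_eq_iff (by positivity), hee]
      ring
    rw [h1]
    linarith
  obtain ⟨k, W, A, ε₁, Y₀, hW, hε, hεζ, hcore⟩ := hM m τ (τ / 4) υ (8 / 9) ((8 / 9) / υ) (κ / 2) R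
    (by linarith) (by linarith) (by linarith) (by linarith) (by rw [hυ]; linarith)
    (by rw [hυ]; linarith) (by norm_num) (by positivity)
    (by rw [div_mul_cancel₀ _ hυ0.ne']) hcond hR0 hR1 hR2 (2 * b) 2 (by omega)
  refine ⟨k, W, A, hW, fun C => ?_⟩
  filter_upwards [sizes b C k A Y₀ ee hb hee0] with L e3
  intro f a h er ha hinj hmod hsizeP hcop her0 her e1 e2
  obtain ⟨s1, s2, s3, s4, s5, s6, s7⟩ := e3
  have hL0 : (0 : ℝ) < L := by exact_mod_cast s4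
  have hL1 : (1 : ℝ) ≤ L := by exact_mod_cast s4
  obtain ⟨Y, hY⟩ : ∃ Y : ℕ, Y = b ^ (2 * L) := ⟨_, rfl⟩
  rw [← hY] at s1 s2 s5
  have hYr : (Y : ℝ) = (b : ℝ) ^ (2 * (L : ℝ)) := by
    rw [hY]
    have : (2 : ℝ) * (L : ℝ) = ((2 * L : ℕ) : ℝ) := by push_cast; rfl
    rw [this, Real.rpow_natCast]
    push_cast
    rfl
  have hYpow : ∀ e : ℝ, (Y : ℝ) ^ e = (b : ℝ) ^ (2 * (L : ℝ) * e) := by
    intro e
    rw [hYr, ← Real.rpow_mul hb0.le]
  have hlY : Real.log Y = 2 * L * Real.log b := by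
    rw [hYr, Real.log_rpow hb0]
  obtain ⟨X, hX⟩ : ∃ X : ℝ, X = ((s : ℝ) * t) ^ L := ⟨_, rfl⟩
  have hX0 : 0 < X := by rw [hX]; positivity
  rw [← hX] at e1 e2 ⊢
  have hY2 : Y ^ 2 = b ^ (4 * L) := by
    rw [hY, ← pow_mul]
    congr 1
    ring
  have hpY : b ^ (2 * L + C) ≤ Y ^ 2 := by
    rw [hY2]
    exact Nat.pow_le_pow_right (by omega) s3
  have hposY : 0 < Real.log Y := by rw [hlY]; positivity
  have hlogc : ∀ c : ℝ, 0 ≤ c → c * (2 * Real.log b) ^ A ≤ L →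
      c * (X / (L : ℝ) ^ (A + 1)) ≤ X / Real.log Y ^ A := by
    intro c hc hcL
    rw [le_div_iff₀ (by positivity), mul_div_assoc', div_mul_eq_mul_div,
      div_le_iff₀ (by positivity), hlY]
    have h5 : (2 * (L : ℝ) * Real.log b) ^ A = (2 * Real.log b) ^ A * (L : ℝ) ^ A := by
      rw [← mul_pow]
      congr 1
      ring
    rw [h5]
    calc c * X * ((2 * Real.log b) ^ A * (L : ℝ) ^ A) =
        (c * (2 * Real.log b) ^ A) * (X * (L : ℝ) ^ A) := by ring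
      _ ≤ L * (X * (L : ℝ) ^ A) := mul_le_mul_of_nonneg_right hcL (by positivity)
      _ = X * (L : ℝ) ^ (A + 1) := by ring
  have hlogA := hlogc (2 * 2 ^ k) (by positivity) s6
  have hlogB := hlogc (2 * 2 ^ (2 ^ k)) (by positivity) s7
  have hlogA1 : X / (L : ℝ) ^ (A + 1) ≤ X / Real.log Y ^ A := by
    refine le_trans ?_ hlogA
    have h5 : 0 ≤ X / (L : ℝ) ^ (A + 1) := by positivity
    have h6 : (1 : ℝ) ≤ (2 : ℝ) ^ k := one_le_pow₀ (by norm_num)
    nlinarith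
  have hchoose : ∀ i, ∃ hh : ℕ → ℕ, ∀ p : ℕ, p.Coprime (2 * b) → ∀ v : ℕ,
    p ^ 2 ∣ a * v + h i → v ≡ hh p [MOD p ^ 2] := fun i => exh b a (h i) ha
  choose hc hhc using hchoose
  have hpos : ∀ (i : Fin (2 ^ k)) (μ : Fin L → Fin s × Fin t), 0 < a * f μ + h i := by
    intro i μ
    by_contra hcon
    have h5 : a * f μ + h i = 0 := by omega
    have h6 := hcop i μ
    rw [h5, Nat.coprime_zero_left] at h6
    omega
  have hμ0 : ∃ μ : Fin L → Fin s × Fin t, True :=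
    ⟨fun _ => (⟨0, by omega⟩, ⟨0, by omega⟩), trivial⟩
  have hcore' := hcore Y s1 a h ha hinj
    (by
      intro i
      obtain ⟨μ, -⟩ := hμ0
      exact ((Nat.le_add_left _ _).trans (hsizeP i μ).le).trans hpY)
    hmod ((univ : Finset (Fin L → Fin s × Fin t)).image f)
    (fun v => (((univ : Finset (Fin L → Fin s × Fin t)).filter (fun μ => f μ = v)).card : ℝ))
    X er hX0 (fun _ _ => Nat.cast_nonneg _) her0
    (by
      intro q r' hq hqB
      rw [wsum]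
      have h5 := her q r' hq hqB
      rw [hX]
      convert h5 using 4)
    (by
      have h5 : (Y : ℝ) ^ (κ / 2) = (b : ℝ) ^ (κ * L) := by
        rw [hYpow]
        congr 1
        ring
      rw [h5]
      exact e1.trans hlogA1)
    (by
      intro v hv i
      rw [mem_image] at hv
      obtain ⟨μ, -, rfl⟩ := hv
      exact ⟨hpos i μ, (hsizeP i μ).le.trans hpY, hcop i μ⟩)
  have hbad : ∑ v ∈ ((univ : Finset (Fin L → Fin s × Fin t)).image f).filter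
      (fun v => ∃ i, ∃ q ∈ pr Y (τ / 4) υ, q ^ 2 ∣ a * v + h i),
      (((univ : Finset (Fin L → Fin s × Fin t)).filter (fun μ => f μ = v)).card : ℝ) ≤
      (X / Real.log Y ^ A) / 2 := by
    rw [wsum]
    have hlogA2 : (2 : ℝ) ^ k * (X / (L : ℝ) ^ (A + 1)) ≤ (X / Real.log Y ^ A) / 2 := by
      linarith
    refine le_trans ?_ hlogA2
    have h5 : (univ : Finset (Fin L → Fin s × Fin t)).filter
        (fun μ => ∃ i, ∃ q ∈ pr Y (τ / 4) υ, q ^ 2 ∣ a * f μ + h i) ⊆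
        (univ : Finset (Fin (2 ^ k))).biUnion (fun i =>
          (univ : Finset (Fin L → Fin s × Fin t)).filter (fun μ => ∃ p : ℕ, p.Coprime (2 * b) ∧
            (b : ℝ) ^ (2 * (τ / 4) * L) ≤ p ∧ (p : ℝ) ≤ (b : ℝ) ^ (κ * L) ∧
            f μ ≡ hc i p [MOD p ^ 2])) := by
      intro μ hμ
      rw [mem_filter] at hμ
      obtain ⟨-, i, q, hq, hqd⟩ := hμ
      rw [mem_biUnion]
      refine ⟨i, mem_univ _, ?_⟩
      rw [mem_filter]
      refine ⟨mem_univ _, q, ?_⟩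
      unfold pr at hq
      rw [mem_filter, mem_Icc] at hq
      obtain ⟨-, hqp, hq1, hq2⟩ := hq
      have hqc : q.Coprime (2 * b) :=
        (hcop i μ).coprime_dvd_left ((dvd_pow_self q two_ne_zero).trans hqd)
      refine ⟨hqc, ?_, ?_, hhc i q hqc _ hqd⟩
      · have h6 : (Y : ℝ) ^ (τ / 4) = (b : ℝ) ^ (2 * (τ / 4) * L) := by
          rw [hYpow]
          congr 1
          ring
        rw [← h6]
        by_contra h7
        push Not at h7
        exact absurd hq1 (not_le.2 ((Pool.Agent.Y882.tt_lt Y q (τ / 4) s2 hqp.pos).2 h7))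
      · have h6 := (Pool.Agent.Y882.tt_lt Y q υ s2 hqp.pos).1 hq2
        rw [hYpow] at h6
        refine h6.le.trans (Real.rpow_le_rpow_of_exponent_le hb1 ?_)
        rw [hυ]
        have h7 := mul_le_mul_of_nonneg_right hτκ.le hL0.le
        have h8 : 0 < τ * L := by positivity
        linarith
    have h6 : (((univ : Finset (Fin L → Fin s × Fin t)).filter
        (fun μ => ∃ i, ∃ q ∈ pr Y (τ / 4) υ, q ^ 2 ∣ a * f μ + h i)).card : ℝ) ≤
        ∑ i : Fin (2 ^ k), (((univ : Finset (Fin L → Fin s × Fin t)).filter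
          (fun μ => ∃ p : ℕ, p.Coprime (2 * b) ∧
            (b : ℝ) ^ (2 * (τ / 4) * L) ≤ p ∧ (p : ℝ) ≤ (b : ℝ) ^ (κ * L) ∧
            f μ ≡ hc i p [MOD p ^ 2])).card : ℝ) := by
      exact_mod_cast (card_le_card h5).trans card_biUnion_le
    refine le_trans (le_of_eq ?_) (h6.trans ?_)
    · congr!
    refine (sum_le_card_nsmul _ _ (X / (L : ℝ) ^ (A + 1)) (fun i _ => e2 (hc i))).trans ?_
    rw [card_univ, Fintype.card_fin, nsmul_eq_mul]
    push_cast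
    exact le_rfl
  have hBB : 0 < X / Real.log Y ^ A := by positivity
  obtain ⟨I, hI, hIB⟩ := pop (ι := Fin (2 ^ k)) ((univ : Finset (Fin L → Fin s × Fin t)).image f)
    (fun v => (((univ : Finset (Fin L → Fin s × Fin t)).filter (fun μ => f μ = v)).card : ℝ))
    (fun _ _ => Nat.cast_nonneg _) (X / Real.log Y ^ A) m
    (fun v => ∃ i, ∃ q ∈ pr Y (τ / 4) υ, q ^ 2 ∣ a * v + h i)
    (fun v i => 0 < WW Y (τ / 4) υ (8 / 9) ((8 / 9) / υ) (a * v + h i)) hBB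
    (by convert hbad)
    (by
      intro Bad hBad
      obtain ⟨v, hv, hvB, -, -, I, hI, hIW⟩ := hcore' Bad (by convert hBad)
      exact ⟨v, hv, hvB, I, hI, hIW⟩)
  rw [wsum] at hIB
  refine ⟨I, hI, (univ : Finset (Fin L → Fin s × Fin t)).filter (fun μ =>
    ¬ (∃ i, ∃ q ∈ pr Y (τ / 4) υ, q ^ 2 ∣ a * f μ + h i) ∧
      ∀ i ∈ I, 0 < WW Y (τ / 4) υ (8 / 9) ((8 / 9) / υ) (a * f μ + h i)), ?_, ?_⟩
  · refine le_trans ?_ (hIB.trans (le_of_eq (by congr!)))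
    rw [Fintype.card_fin, le_div_iff₀ (by positivity)]
    linarith
  · intro μ hμ i hi
    rw [mem_filter] at hμ
    obtain ⟨-, hvB, hIW⟩ := hμ
    have halm := Pool.Agent.Y882.KW.almost Y s2 (τ / 4) υ (8 / 9) (1 + ee) r (by rw [hυ]; linarith)
      hυ0 (by rw [hυ]; linarith) (by norm_num) hr1 (a * f μ + h i) (hpos i μ).ne'
      (by
        refine le_trans ?_ s5
        exact_mod_cast (hsizeP i μ).le) (hIW i hi)
      (fun q hq hqd => hvB ⟨i, q, hq, hqd⟩)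
    refine ⟨halm.1, ?_⟩
    intro p hp hpn
    refine le_trans ?_ (halm.2 p hp hpn)
    rw [hYpow]
    apply Real.rpow_le_rpow_of_exponent_le hb1
    have h9 := mul_le_mul_of_nonneg_left hτ hL0.le
    linarith

end Core2

end Pool.Agent.K3h54.PC
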