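import Pool.Agent.K3h54.PC.Stm
import Pool.Agent.Y882.KW.Alm
import Pool.Agent.Y882.KW.Num

/-!
# Clusters of almost prime palindromes: the final assembly
-/

set_option autoImplicit false
set_option linter.unusedSectionVars false

namespace Pool.Agent.K3h54.PC

namespace FIN

open Finset Filter
open Pool.Agent.W23.DC (pr tt)
open Pool.Agent.Y882.KW (WW)
open Pool.Agent.W89.PW (pv PtW BigW m4)
open Pool.Agent.W261.PWBV (U)
open Pool.Agent.Y816.PS (cnth cnth_bound)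

lemma er2_nonneg (b s t L q : ℕ) : 0 ≤ er2 b s t L q := by
  unfold er2
  exact mul_nonneg (by positivity)
    (sum_nonneg fun _ _ => Pool.Agent.W261.PWBV.U_nonneg _ _ _ _ _)

/-- sums over the values -/
lemma wsum {α : Type} [Fintype α] (f : α → ℕ) (P : ℕ → Prop) [DecidablePred P] :
    ∑ v ∈ ((univ : Finset α).image f).filter P,
      (((univ : Finset α).filter (fun a => f a = v)).card : ℝ) =
      (((univ : Finset α).filter (fun a => P (f a))).card : ℝ) := by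
  rw [Finset.card_eq_sum_card_fiberwise (f := f)
    (t := ((univ : Finset α).image f).filter P)]
  · push_cast
    refine sum_congr rfl fun v hv => ?_
    rw [mem_filter] at hv
    congr 1
    congr 1
    ext a
    simp only [mem_filter, mem_univ, true_and]
    constructor
    · intro h
      exact ⟨by rw [h]; exact hv.2, h⟩
    · intro h
      exact h.2
  · intro a ha
    have ha' := (mem_filter.1 (Finset.mem_coe.1 ha)).2
    exact Finset.mem_coe.2 (mem_filter.2 ⟨mem_image_of_mem _ (mem_univ _), ha'⟩)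

/-- the class modulo `p ^ 2` -/
lemma exh (b j c : ℕ) : ∃ hh : ℕ → ℕ, ∀ p : ℕ, p.Coprime (2 * b) → ∀ v : ℕ,
    p ^ 2 ∣ b ^ j * v + c → v ≡ hh p [MOD p ^ 2] := by
  classical
  refine ⟨fun p => if H : ∃ v, p ^ 2 ∣ b ^ j * v + c then H.choose else 0, ?_⟩
  intro p hp v hv
  have H : ∃ v, p ^ 2 ∣ b ^ j * v + c := ⟨v, hv⟩
  simp only [dif_pos H]
  have h1 := H.choose_spec
  generalize H.choose = u at h1 ⊢
  have h2 : b ^ j * v + c ≡ b ^ j * u + c [MOD p ^ 2] :=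
    ((Nat.modEq_zero_iff_dvd.2 hv)).trans (Nat.modEq_zero_iff_dvd.2 h1).symm
  have h3 : b ^ j * v ≡ b ^ j * u [MOD p ^ 2] := Nat.ModEq.add_right_cancel' c h2
  refine Nat.ModEq.cancel_left_of_coprime ?_ h3
  have h4 : Nat.Coprime p b := hp.coprime_dvd_right (Dvd.intro_left 2 rfl)
  exact Nat.Coprime.pow 2 j h4

/-- pigeonhole -/
lemma pigeon (b M W n : ℕ) (hW : 0 < W) (S : Finset ℕ) (hS : W * W * n + 1 ≤ S.card) :
    ∃ x : Fin n → ℕ, Function.Injective x ∧ (∀ i, x i ∈ S) ∧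
      ∀ i j, x i ≡ x j [MOD W] ∧ rv b M (x i) ≡ rv b M (x j) [MOD W] := by
  classical
  obtain ⟨y, -, hy⟩ := Finset.exists_lt_card_fiber_of_mul_lt_card_of_maps_to
    (s := S) (t := range W ×ˢ range W) (f := fun x => (x % W, rv b M x % W)) (n := n)
    (fun x _ => mem_product.2 ⟨mem_range.2 (Nat.mod_lt _ hW), mem_range.2 (Nat.mod_lt _ hW)⟩)
    (by rw [card_product, card_range]; omega)
  obtain ⟨T, hT, hTc⟩ := Finset.exists_subset_card_eq hy.le
  let e : Fin n ≃ T := (Fin.castOrderIso hTc.symm).toEquiv.trans T.equivFin.symm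
  have hm : ∀ i, (e i : ℕ) ∈ S ∧ ((e i : ℕ) % W, rv b M (e i : ℕ) % W) = y := fun i => by
    have h1 := hT (e i).2
    rw [mem_filter] at h1
    exact h1
  refine ⟨fun i => (e i : ℕ), ?_, fun i => (hm i).1, fun i j => ?_⟩
  · intro i j h
    exact e.injective (Subtype.ext h)
  · have h1 := (hm i).2.trans (hm j).2.symm
    rw [Prod.mk.injEq] at h1
    exact h1

/-- size conditions -/
lemma sizes (b M k A Y₀ : ℕ) (ee : ℝ) (hb : 2 ≤ b) (hee : 0 < ee) : ∀ᶠ L : ℕ in atTop,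
    Y₀ ≤ b ^ (2 * L) ∧ 2 ≤ b ^ (2 * L) ∧ 2 * L + 1 + 2 * M ≤ 4 * L ∧ 1 ≤ L ∧
      ((b : ℝ) ^ (2 * L + 1 + 2 * M)) ≤ (((b ^ (2 * L) : ℕ)) : ℝ) ^ (1 + ee) ∧
      (2 : ℝ) ^ k * (2 * Real.log b) ^ A ≤ L := by
  obtain ⟨n1, hn1⟩ := exists_nat_ge ((1 + 2 * (M : ℝ)) / (2 * ee))
  obtain ⟨n2, hn2⟩ := exists_nat_ge ((2 : ℝ) ^ k * (2 * Real.log b) ^ A)
  filter_upwards [eventually_ge_atTop (n1 + n2 + Y₀ + M + 1)] with L hL
  have hbr : (2 : ℝ) ≤ b := by exact_mod_cast hb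
  have h1 : 2 * L < b ^ (2 * L) := (Nat.lt_two_pow_self).trans_le (Nat.pow_le_pow_left hb _)
  have hL1 : (n1 : ℝ) ≤ L := by exact_mod_cast (by omega : n1 ≤ L)
  have hL2 : (n2 : ℝ) ≤ L := by exact_mod_cast (by omega : n2 ≤ L)
  refine ⟨by omega, by omega, by omega, by omega, ?_, hn2.trans hL2⟩
  have h2 : (((b ^ (2 * L) : ℕ)) : ℝ) = (b : ℝ) ^ ((2 * L : ℕ) : ℝ) := by
    rw [Real.rpow_natCast]
    push_cast
    rfl
  rw [h2, ← Real.rpow_mul (by linarith), ← Real.rpow_natCast]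
  apply Real.rpow_le_rpow_of_exponent_le (by linarith)
  push_cast
  have h3 := hn1.trans hL1
  rw [div_le_iff₀ (by positivity)] at h3
  nlinarith

open Classical in
/-- the final theorem with parameters -/
theorem core (hM : StMTW) (h1 : StP1) (h2 : StP2) (h4 : StP4) (b s t r : ℕ) (H CM κ τ : ℝ)
    (hb : 2 ≤ b) (hs : 1 ≤ s) (ht : 1 ≤ t) (hst : s + t = b + 1) (hPt : PtW b s t)
    (hBig : BigW b s t κ) (hMaj : Pool.Agent.W139.PX.MajP b s t H CM) (hH : 0 < H)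
    (hbH : 1 ≤ b * H) (hCM : 0 < CM) (hm4 : (b : ℝ) * m4 s t < 1) (hκH : (b : ℝ) ^ κ * H < 1)
    (hκ1 : κ < 1) (hτ : 1 / 5 ≤ τ) (hτκ : 2 * τ < κ) (hr : 25 < (24 * (r : ℝ) - 3) * τ) (m : ℕ) :
    ∃ K : ℕ, ∀ (M : ℕ) (S : Finset ℕ), K ≤ S.card →
    (∀ x ∈ S, b ^ (M - 1) ≤ x ∧ x < b ^ M ∧ (x / b ^ (M - 1)).Coprime b) → ∀ᶠ L : ℕ in atTop,
    ∃ H ⊆ S, H.card = m ∧ ∃ w : ℕ, w < b ^ (2 * L + 1) ∧ ∀ x ∈ H, ∃ n : ℕ,
      n < b ^ (2 * L + 1 + 2 * M) ∧ (Nat.digits b n).reverse = Nat.digits b n ∧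
      n / b ^ (2 * L + 1 + M) = x ∧ n / b ^ M % b ^ (2 * L + 1) = w ∧
      n.primeFactorsList.length ≤ r ∧
      ∀ p : ℕ, p.Prime → p ∣ n → (b : ℝ) ^ ((L : ℝ) / 10) ≤ p := by
  have hbr : (2 : ℝ) ≤ b := by exact_mod_cast hb
  have hb0 : (0 : ℝ) < b := by linarith
  have hb1 : (1 : ℝ) ≤ b := by linarith
  have hlb : 0 < Real.log b := Real.log_pos (by linarith)
  have hsr : (1 : ℝ) ≤ s := by exact_mod_cast hs
  have htr : (1 : ℝ) ≤ t := by exact_mod_cast ht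
  have hst0 : (0 : ℝ) < (s : ℝ) * t := by positivity
  have hτ0 : 0 < τ := by linarith
  have hκ0 : 0 < κ := by linarith
  obtain ⟨υ, hυ⟩ : ∃ υ : ℝ, υ = 24 / 25 * τ := ⟨_, rfl⟩
  have hυ0 : 0 < υ := by rw [hυ]; positivity
  have hcond : ∫ x in (τ / 4)..υ, ((8 / 9 : ℝ) - (8 / 9) / υ * x) / (τ - x) / x <
      Real.log (τ / (τ / 4) - 1) / τ := by
    rw [hυ]
    exact Pool.Agent.Y882.KW.cond_A τ (8 / 9) hτ0 (by norm_num) (by norm_num)
  obtain ⟨R, hR0, hR1, hR2⟩ : ∃ R : ℝ, 0 < R ∧ R < τ / 4 ∧ 2 * R + τ < κ / 2 := by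
    refine ⟨min (τ / 8) ((κ / 2 - τ) / 8), lt_min (by linarith) (by linarith), ?_, ?_⟩
    · exact (min_le_left _ _).trans_lt (by linarith)
    · have := min_le_right (τ / 8) ((κ / 2 - τ) / 8)
      linarith
  obtain ⟨ee, hee⟩ : ∃ e : ℝ, e = ((24 * (r : ℝ) - 3) * τ - 25) / 25 := ⟨_, rfl⟩
  have hee0 : 0 < ee := by rw [hee]; linarith
  have hr1 : 1 / (8 / 9 : ℝ) + (1 + ee) / υ ≤ r + 1 := by
    have h1 : (1 + ee) / υ = (r : ℝ) - 1 / 8 := by
      rw [hυ, div_eq_iff (by positivity), hee]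
      ring
    rw [h1]
    linarith
  obtain ⟨k, W, A, ε₁, Y₀, hW, hε, hεζ, hcore⟩ := hM m τ (τ / 4) υ (8 / 9) ((8 / 9) / υ) (κ / 2) R
    (by linarith) (by linarith) (by linarith) (by linarith) (by rw [hυ]; linarith)
    (by rw [hυ]; linarith) (by norm_num) (by positivity)
    (by rw [div_mul_cancel₀ _ hυ0.ne']) hcond hR0 hR1 hR2 (2 * b) 2 (by omega)
  refine ⟨W * W * 2 ^ k + 1, fun M S hS hSx => ?_⟩
  obtain ⟨x, hxi, hxS, hxW⟩ := pigeon b M W (2 ^ k) hW S hS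
  -- the number of digits of the prefixes
  have hM1 : 1 ≤ M := by
    by_contra hcon
    have hM0 : M = 0 := by omega
    have := hSx _ (hxS ⟨0, by positivity⟩)
    rw [hM0] at this
    simp at this
    omega
  have hP4 : ∀ i, _ := fun i =>
    h4 b s t M (x i) hb hst hM1 (hSx _ (hxS i)).1 (hSx _ (hxS i)).2.1
  have hev1 := h1 k b s t hb hs ht hPt κ hκ0 hκ1 hBig (A + 1)
  have hev2 := h2 b s t H CM κ hMaj hH hbH hCM hb hs ht hst hm4 hκ0 hκH (2 * (τ / 4)) (by linarith)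
    (A + 1)
  filter_upwards [hev1, hev2, sizes b M k A Y₀ ee hb hee0] with L e1 e2 e3
  obtain ⟨s1, s2, s3, s4, s5, s6⟩ := e3
  have hL0 : (0 : ℝ) < L := by exact_mod_cast s4
  have hL1 : (1 : ℝ) ≤ L := by exact_mod_cast s4
  obtain ⟨Y, hY⟩ : ∃ Y : ℕ, Y = b ^ (2 * L) := ⟨_, rfl⟩
  rw [← hY] at s1 s2 s5
  have hYr : (Y : ℝ) = (b : ℝ) ^ (2 * (L : ℝ)) := by
    rw [hY]
    have : (2 : ℝ) * (L : ℝ) = ((2 * L : ℕ) : ℝ) := by push_cast; rfl
    rw [this, Real.rpow_natCast]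
    push_cast
    rfl
  have hYpow : ∀ e : ℝ, (Y : ℝ) ^ e = (b : ℝ) ^ (2 * (L : ℝ) * e) := by
    intro e
    rw [hYr, ← Real.rpow_mul hb0.le]
  have hlY : Real.log Y = 2 * L * Real.log b := by
    rw [hYr, Real.log_rpow hb0]
  obtain ⟨X, hX⟩ : ∃ X : ℝ, X = ((s : ℝ) * t) ^ L := ⟨_, rfl⟩
  have hX0 : 0 < X := by rw [hX]; positivity
  rw [← hX] at e1 e2
  obtain ⟨a, ha⟩ : ∃ a : ℕ, a = b ^ (M - 1) := ⟨_, rfl⟩
  obtain ⟨h, hh⟩ : ∃ h : Fin (2 ^ k) → ℕ, h = fun i => hx b M L (x i) := ⟨_, rfl⟩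
  have hsizeP : ∀ (i : Fin (2 ^ k)) (μ : Fin L → Fin s × Fin t),
      a * pv b s t L μ + h i < b ^ (2 * L + 1 + 2 * M) := by
    intro i μ
    rw [ha, hh]
    exact ((hP4 i).1 L μ).1
  have hY2 : Y ^ 2 = b ^ (4 * L) := by
    rw [hY, ← pow_mul]
    congr 1
    ring
  have hpY : b ^ (2 * L + 1 + 2 * M) ≤ Y ^ 2 := by
    rw [hY2]
    exact Nat.pow_le_pow_right (by omega) s3
  have hμ0 : ∃ μ : Fin L → Fin s × Fin t, True :=
    ⟨fun _ => (⟨0, by omega⟩, ⟨0, by omega⟩), trivial⟩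
  have hlogA : (2 : ℝ) ^ k * (X / (L : ℝ) ^ (A + 1)) ≤ X / Real.log Y ^ A := by
    have hpos : 0 < Real.log Y := by rw [hlY]; positivity
    rw [le_div_iff₀ (by positivity), mul_div_assoc', div_mul_eq_mul_div,
      div_le_iff₀ (by positivity), hlY]
    have h5 : (2 * (L : ℝ) * Real.log b) ^ A = (2 * Real.log b) ^ A * (L : ℝ) ^ A := by
      rw [← mul_pow]
      congr 1
      ring
    rw [h5]
    calc (2 : ℝ) ^ k * X * ((2 * Real.log b) ^ A * (L : ℝ) ^ A) =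
        ((2 : ℝ) ^ k * (2 * Real.log b) ^ A) * (X * (L : ℝ) ^ A) := by ring
      _ ≤ L * (X * (L : ℝ) ^ A) := mul_le_mul_of_nonneg_right s6 (by positivity)
      _ = X * (L : ℝ) ^ (A + 1) := by ring
  have hlogA1 : X / (L : ℝ) ^ (A + 1) ≤ X / Real.log Y ^ A := by
    refine le_trans ?_ hlogA
    have h5 : 0 ≤ X / (L : ℝ) ^ (A + 1) := by positivity
    have h6 : (1 : ℝ) ≤ (2 : ℝ) ^ k := one_le_pow₀ (by norm_num)
    nlinarith
  have hchoose : ∀ i, ∃ hh : ℕ → ℕ, ∀ p : ℕ, p.Coprime (2 * b) → ∀ v : ℕ,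
    p ^ 2 ∣ a * v + h i → v ≡ hh p [MOD p ^ 2] := fun i => by
      rw [ha]
      exact exh b (M - 1) (h i)
  choose hc hhc using hchoose
  have hcop : ∀ (i : Fin (2 ^ k)) (μ : Fin L → Fin s × Fin t),
      (a * pv b s t L μ + h i).Coprime (2 * b) := by
    intro i μ
    rw [ha, hh]
    exact ((hP4 i).1 L μ).2.2.2.2 (hSx _ (hxS i)).2.2
  have hpos : ∀ (i : Fin (2 ^ k)) (μ : Fin L → Fin s × Fin t), 0 < a * pv b s t L μ + h i := by
    intro i μ
    by_contra hcon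
    have h5 : a * pv b s t L μ + h i = 0 := by omega
    have h6 := hcop i μ
    rw [h5, Nat.coprime_zero_left] at h6
    omega
  obtain ⟨v, hv, hvB, hvw, -, I, hI, hIW⟩ := hcore Y s1 a h
    (by
      intro p hp hpa
      rw [ha] at hpa
      exact (hp.dvd_of_dvd_pow hpa).mul_left 2)
    (by
      intro i j hij
      rw [hh] at hij
      exact hxi ((hP4 i).2.2 L (x j) (hSx _ (hxS j)).1 (hSx _ (hxS j)).2.1 hij))
    (by
      intro i
      obtain ⟨μ, -⟩ := hμ0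
      exact ((Nat.le_add_left _ _).trans (hsizeP i μ).le).trans hpY)
    (by
      intro i j
      rw [hh]
      exact (hP4 i).2.1 W (x j) (hSx _ (hxS j)).1 (hSx _ (hxS j)).2.1 (hxW i j).1 (hxW i j).2 L)
    ((univ : Finset (Fin L → Fin s × Fin t)).image (pv b s t L))
    (fun v => (((univ : Finset (Fin L → Fin s × Fin t)).filter (fun μ => pv b s t L μ = v)).card : ℝ))
    X (fun q => er2 b s t L q) hX0 (fun _ _ => Nat.cast_nonneg _) (fun q => er2_nonneg b s t L q)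
    (by
      intro q r' hq hqB
      rw [wsum]
      have h5 := cnth_bound (s := s) (t := t) (by omega) (by omega) b L q r' hqB
      unfold cnth at h5
      rw [hX]
      unfold er2
      convert h5 using 4)
    (by
      have h5 : (Y : ℝ) ^ (κ / 2) = (b : ℝ) ^ (κ * L) := by
        rw [hYpow]
        congr 1
        ring
      rw [h5]
      exact e1.trans hlogA1)
    (by
      intro v hv i
      rw [mem_image] at hv
      obtain ⟨μ, -, rfl⟩ := hv
      exact ⟨hpos i μ, (hsizeP i μ).le.trans hpY, hcop i μ⟩)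
    (fun v => ∃ i, ∃ q ∈ pr Y (τ / 4) υ, q ^ 2 ∣ a * v + h i)
    (by
      rw [wsum]
      refine le_trans ?_ hlogA
      have h5 : (univ : Finset (Fin L → Fin s × Fin t)).filter
          (fun μ => ∃ i, ∃ q ∈ pr Y (τ / 4) υ, q ^ 2 ∣ a * pv b s t L μ + h i) ⊆
          (univ : Finset (Fin (2 ^ k))).biUnion (fun i =>
            (univ : Finset (Fin L → Fin s × Fin t)).filter (fun μ => ∃ p : ℕ, p.Coprime (2 * b) ∧
              (b : ℝ) ^ (2 * (τ / 4) * L) ≤ p ∧ (p : ℝ) ≤ (b : ℝ) ^ (κ * L) ∧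
              pv b s t L μ ≡ hc i p [MOD p ^ 2])) := by
        intro μ hμ
        rw [mem_filter] at hμ
        obtain ⟨-, i, q, hq, hqd⟩ := hμ
        rw [mem_biUnion]
        refine ⟨i, mem_univ _, ?_⟩
        rw [mem_filter]
        refine ⟨mem_univ _, q, ?_⟩
        unfold pr at hq
        rw [mem_filter, mem_Icc] at hq
        obtain ⟨-, hqp, hq1, hq2⟩ := hq
        have hqc : q.Coprime (2 * b) :=
          (hcop i μ).coprime_dvd_left ((dvd_pow_self q two_ne_zero).trans hqd)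
        refine ⟨hqc, ?_, ?_, hhc i q hqc _ hqd⟩
        · have h6 : (Y : ℝ) ^ (τ / 4) = (b : ℝ) ^ (2 * (τ / 4) * L) := by
            rw [hYpow]
            congr 1
            ring
          rw [← h6]
          by_contra h7
          push Not at h7
          exact absurd hq1 (not_le.2 ((Pool.Agent.Y882.tt_lt Y q (τ / 4) s2 hqp.pos).2 h7))
        · have h6 := (Pool.Agent.Y882.tt_lt Y q υ s2 hqp.pos).1 hq2
          rw [hYpow] at h6
          refine h6.le.trans (Real.rpow_le_rpow_of_exponent_le hb1 ?_)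
          rw [hυ]
          have h7 := mul_le_mul_of_nonneg_right hτκ.le hL0.le
          have h8 : 0 < τ * L := by positivity
          linarith
      have h6 : (((univ : Finset (Fin L → Fin s × Fin t)).filter
          (fun μ => ∃ i, ∃ q ∈ pr Y (τ / 4) υ, q ^ 2 ∣ a * pv b s t L μ + h i)).card : ℝ) ≤
          ∑ i : Fin (2 ^ k), (((univ : Finset (Fin L → Fin s × Fin t)).filter
            (fun μ => ∃ p : ℕ, p.Coprime (2 * b) ∧
              (b : ℝ) ^ (2 * (τ / 4) * L) ≤ p ∧ (p : ℝ) ≤ (b : ℝ) ^ (κ * L) ∧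
              pv b s t L μ ≡ hc i p [MOD p ^ 2])).card : ℝ) := by
        exact_mod_cast (card_le_card h5).trans card_biUnion_le
      refine le_trans (le_of_eq ?_) (h6.trans ?_)
      · congr!
      refine (sum_le_card_nsmul _ _ (X / (L : ℝ) ^ (A + 1)) (fun i _ => e2 (hc i))).trans ?_
      rw [card_univ, Fintype.card_fin, nsmul_eq_mul]
      push_cast
      exact le_rfl)
  rw [mem_image] at hv
  obtain ⟨μ, -, rfl⟩ := hv
  obtain ⟨I', hI', hI'c⟩ := Finset.exists_subset_card_eq hI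
  refine ⟨I'.image x, ?_, ?_, pv b s t L μ / b % b ^ (2 * L + 1), Nat.mod_lt _ (by positivity), ?_⟩
  · intro y hy
    rw [mem_image] at hy
    obtain ⟨i, _, rfl⟩ := hy
    exact hxS i
  · rw [card_image_of_injective _ hxi, hI'c]
  · intro y hy
    rw [mem_image] at hy
    obtain ⟨i, hi, rfl⟩ := hy
    obtain ⟨d1, d2, d3, d4, d5⟩ := (hP4 i).1 L μ
    have hn : b ^ (M - 1) * pv b s t L μ + hx b M L (x i) = a * pv b s t L μ + h i := by
      rw [ha, hh]
    have halm := Pool.Agent.Y882.KW.almost Y s2 (τ / 4) υ (8 / 9) (1 + ee) r (by rw [hυ]; linarith)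
      hυ0 (by rw [hυ]; linarith) (by norm_num) hr1 (a * pv b s t L μ + h i) (hpos i μ).ne'
      (by
        refine le_trans ?_ s5
        exact_mod_cast (hsizeP i μ).le) (hIW i (hI' hi))
      (fun q hq hqd => hvB ⟨i, q, hq, hqd⟩)
    refine ⟨b ^ (M - 1) * pv b s t L μ + hx b M L (x i), d1, d2, d3, d4, ?_, ?_⟩
    · rw [hn]
      exact halm.1
    · intro p hp hpn
      rw [hn] at hpn
      refine le_trans ?_ (halm.2 p hp hpn)
      rw [hYpow]
      apply Real.rpow_le_rpow_of_exponent_le hb1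
      have h9 := mul_le_mul_of_nonneg_left hτ hL0.le
      linarith

end FIN

/-- the final theorem -/
theorem FIN.main (hM : StMTW) (h1 : StP1) (h2 : StP2) (h3 : StP3) (h4 : StP4) : StFin := by
  intro b hb m
  obtain ⟨s, t, H, CM, κ, hs, ht, hst, hPt, hBig, hMaj, hH, hbH, hCM, hm4, hκH, hκ⟩ := h3 b hb
  by_cases h9 : 9 ≤ b
  · rw [if_pos h9] at hκ ⊢
    exact FIN.core hM h1 h2 h4 b s t 3 H CM κ (91 / 250) hb hs ht hst hPt hBig hMaj hH hbH hCM hm4 hκH
      (by rw [hκ]; norm_num) (by norm_num) (by rw [hκ]; norm_num) (by norm_num) m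
  · rw [if_neg h9] at hκ ⊢
    by_cases h3b : 3 ≤ b
    · rw [if_pos h3b] at hκ ⊢
      exact FIN.core hM h1 h2 h4 b s t 4 H CM κ (3 / 10) hb hs ht hst hPt hBig hMaj hH hbH hCM hm4 hκH
        (by rw [hκ]; norm_num) (by norm_num) (by rw [hκ]; norm_num) (by norm_num) m
    · rw [if_neg h3b] at hκ ⊢
      exact FIN.core hM h1 h2 h4 b s t 5 H CM κ (24 / 100) hb hs ht hst hPt hBig hMaj hH hbH hCM hm4 hκH
        (by rw [hκ]; norm_num) (by norm_num) (by rw [hκ]; norm_num) (by norm_num) m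

end Pool.Agent.K3h54.PC
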