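import Pool.Agent.K3h54.PC.Core2
import Pool.Agent.K3h54.PM.Stm

/-!
# Clusters of almost prime palindromes, outer digits: the final assembly with a lower bound for the number
-/

set_option autoImplicit false
set_option linter.unusedSectionVars false

namespace Pool.Agent.K3h54.PC

open Finset Filter
open Pool.Agent.W89.PW (pv PtW BigW m4 Eset fr)

open Classical in
/-- the final theorem with a lower bound for the number of inner strings -/
def StFinQ : Prop := ∀ b : ℕ, 2 ≤ b → ∀ m : ℕ, ∃ K : ℕ, ∀ (M : ℕ) (S : Finset ℕ), K ≤ S.card →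
  (∀ x ∈ S, b ^ (M - 1) ≤ x ∧ x < b ^ M ∧ (x / b ^ (M - 1)).Coprime b) → ∀ᶠ L : ℕ in atTop,
  ∃ H ⊆ S, H.card = m ∧ (3 * (b : ℝ) / 4) ^ L ≤ (((range (b ^ (2 * L + 1))).filter (fun w =>
    ∀ x ∈ H, ∃ n : ℕ, n < b ^ (2 * L + 1 + 2 * M) ∧ (Nat.digits b n).reverse = Nat.digits b n ∧
    n / b ^ (2 * L + 1 + M) = x ∧ n / b ^ M % b ^ (2 * L + 1) = w ∧
    n.primeFactorsList.length ≤ (if 9 ≤ b then 3 else if 3 ≤ b then 4 else 5) ∧
    ∀ p : ℕ, p.Prime → p ∣ n → (b : ℝ) ^ ((L : ℝ) / 10) ≤ p)).card : ℝ)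

namespace FINQ

/-- powers and exponentials -/
lemma numQ (B ρ c : ℝ) (A : ℕ) (hB : 0 < B) (hBρ : B < ρ) (hc : 0 < c) :
    ∀ᶠ L : ℕ in atTop, c * B ^ L * (L : ℝ) ^ A ≤ ρ ^ L := by
  have hρ : 0 < ρ := hB.trans hBρ
  have h1 := tendsto_pow_const_mul_const_pow_of_abs_lt_one A (r := B / ρ) (by
    rw [abs_of_pos (by positivity), div_lt_one hρ]
    exact hBρ)
  filter_upwards [h1.eventually (gt_mem_nhds (show (0 : ℝ) < 1 / c by positivity))] with L hL
  rw [div_pow, lt_div_iff₀ hc, mul_div_assoc', div_mul_eq_mul_div, div_lt_one (by positivity)] at hL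
  calc c * B ^ L * (L : ℝ) ^ A = (L : ℝ) ^ A * B ^ L * c := by ring
    _ ≤ ρ ^ L := hL.le

/-- the last digit -/
lemma pv_mod (b s t L : ℕ) (hb : 2 ≤ b) (m : Fin L → Fin s × Fin t) : pv b s t L m % b = 1 := by
  have h1 : b ∣ ∑ c : Fin L, (((m c).1 : ℕ) + ((m c).2 : ℕ)) * fr b L c := by
    apply dvd_sum
    intro c _
    apply Dvd.dvd.mul_left
    unfold fr
    have := c.2
    exact dvd_add (dvd_pow_self b (by omega)) (dvd_pow_self b (by omega))
  have h2 : b ∣ b ^ (2 * L + 2) + b ^ (L + 1) :=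
    dvd_add (dvd_pow_self b (by omega)) (dvd_pow_self b (by omega))
  obtain ⟨u, hu⟩ := h1
  obtain ⟨v, hv⟩ := h2
  have h3 : pv b s t L m = 1 + b * (u + v) := by
    unfold pv
    rw [hu]
    rw [mul_add, ← hv]
    ring
  rw [h3, Nat.add_mul_mod_self_left]
  exact Nat.mod_eq_of_lt (by omega)

/-- the palindrome is determined by its inner digits -/
lemma pv_inner (h4 : StP4) (b s t L : ℕ) (hb : 2 ≤ b) (hst : s + t = b + 1)
    (m : Fin L → Fin s × Fin t) :
    pv b s t L m = b * (b ^ (2 * L + 1) + pv b s t L m / b % b ^ (2 * L + 1)) + 1 := by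
  have h5 := (h4 b s t 1 1 hb hst le_rfl (by simp) (by rw [pow_one]; omega)).1 L m
  have h6 : hx b 1 L 1 = 0 := by
    have : rv b 1 1 = 1 := by
      unfold rv
      rw [sum_range_one, pow_zero, Nat.div_one, mul_one]
      exact Nat.mod_eq_of_lt (by omega)
    unfold hx
    rw [this]
    simp
  rw [h6, Nat.sub_self, pow_zero, one_mul, add_zero] at h5
  obtain ⟨-, -, h7, -, -⟩ := h5
  have h8 := pv_mod b s t L hb m
  have h9 : pv b s t L m / b / b ^ (2 * L + 1) = 1 := by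
    rw [Nat.div_div_eq_div_mul, show b * b ^ (2 * L + 1) = b ^ (2 * L + 1 + 1) by ring]
    exact h7
  have h10 := Nat.div_add_mod (pv b s t L m / b) (b ^ (2 * L + 1))
  rw [h9, mul_one] at h10
  have h11 := Nat.div_add_mod (pv b s t L m) b
  rw [h8] at h11
  rw [h10]
  exact h11.symm

open Classical in
/-- the final theorem with parameters -/
theorem core (hM : StMTW) (h1 : StP1) (h2 : StP2) (h4 : StP4) (b s t r : ℕ) (H CM κ τ : ℝ)
    (hb : 2 ≤ b) (hs : 1 ≤ s) (ht : 1 ≤ t) (hst : s + t = b + 1) (hPt : PtW b s t)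
    (hBig : BigW b s t κ) (hMaj : Pool.Agent.W139.PX.MajP b s t H CM) (hH : 0 < H)
    (hbH : 1 ≤ b * H) (hCM : 0 < CM) (hm4 : (b : ℝ) * m4 s t < 1) (hκH : (b : ℝ) ^ κ * H < 1)
    (hκ1 : κ < 1) (hτ : 1 / 5 ≤ τ) (hτκ : 2 * τ < κ) (hr : 25 < (24 * (r : ℝ) - 3) * τ)
    (hE : 3 * (b : ℝ) / 4 < ((s : ℝ) * t) ^ 2 / (Eset s t).card)
    (hcard : ∀ (L : ℕ) (G : Finset (Fin L → Fin s × Fin t)),
      G.card ^ 2 ≤ (G.image (pv b s t L)).card * (Eset s t).card ^ L) (m : ℕ) :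
    ∃ K : ℕ, ∀ (M : ℕ) (S : Finset ℕ), K ≤ S.card →
    (∀ x ∈ S, b ^ (M - 1) ≤ x ∧ x < b ^ M ∧ (x / b ^ (M - 1)).Coprime b) → ∀ᶠ L : ℕ in atTop,
    ∃ H ⊆ S, H.card = m ∧ (3 * (b : ℝ) / 4) ^ L ≤ (((range (b ^ (2 * L + 1))).filter (fun w =>
      ∀ x ∈ H, ∃ n : ℕ, n < b ^ (2 * L + 1 + 2 * M) ∧ (Nat.digits b n).reverse = Nat.digits b n ∧
      n / b ^ (2 * L + 1 + M) = x ∧ n / b ^ M % b ^ (2 * L + 1) = w ∧
      n.primeFactorsList.length ≤ r ∧
      ∀ p : ℕ, p.Prime → p ∣ n → (b : ℝ) ^ ((L : ℝ) / 10) ≤ p)).card : ℝ) := by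
  have hbr : (2 : ℝ) ≤ b := by exact_mod_cast hb
  have hκ0 : 0 < κ := by linarith
  have hsr : (1 : ℝ) ≤ s := by exact_mod_cast hs
  have htr : (1 : ℝ) ≤ t := by exact_mod_cast ht
  have hst0 : (0 : ℝ) < (s : ℝ) * t := by positivity
  obtain ⟨k, W, A, hW, hcore⟩ := Core2.core2 hM b s t r κ τ hb hs ht hκ1 hτ hτκ hr m
  refine ⟨W * W * 2 ^ k + 1, fun M S hS hSx => ?_⟩
  obtain ⟨x, hxi, hxS, hxW⟩ := FIN.pigeon b M W (2 ^ k) hW S hS
  have hM1 : 1 ≤ M := by
    by_contra hcon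
    have hM0 : M = 0 := by omega
    have := hSx _ (hxS ⟨0, by positivity⟩)
    rw [hM0] at this
    simp at this
    omega
  have hP4 : ∀ i, _ := fun i =>
    h4 b s t M (x i) hb hst hM1 (hSx _ (hxS i)).1 (hSx _ (hxS i)).2.1
  have hev1 := h1 k b s t hb hs ht hPt κ hκ0 hκ1 hBig (A + 1)
  have hev2 := h2 b s t H CM κ hMaj hH hbH hCM hb hs ht hst hm4 hκ0 hκH (2 * (τ / 4)) (by linarith)
    (A + 1)
  have hev3 := numQ (3 * (b : ℝ) / 4) _ 1 (2 * (A + 1)) (by positivity) hE one_pos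
  filter_upwards [hev1, hev2, hev3, hcore (1 + 2 * M), eventually_ge_atTop 1] with L e1 e2 e3 hcL hL1
  have hL0 : (0 : ℝ) < L := by exact_mod_cast hL1
  obtain ⟨I, hI, G, hG, hGI⟩ := hcL (pv b s t L) (b ^ (M - 1)) (fun i => hx b M L (x i))
    (fun q => er2 b s t L q)
    (fun p hp hpa => (hp.dvd_of_dvd_pow hpa).mul_left 2)
    (fun i j hij => hxi ((hP4 i).2.2 L (x j) (hSx _ (hxS j)).1 (hSx _ (hxS j)).2.1 hij))
    (fun i j => (hP4 i).2.1 W (x j) (hSx _ (hxS j)).1 (hSx _ (hxS j)).2.1 (hxW i j).1 (hxW i j).2 L)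
    (fun i μ => by
      have := ((hP4 i).1 L μ).1
      rw [show 2 * L + 1 + 2 * M = 2 * L + (1 + 2 * M) by ring] at this
      exact this)
    (fun i μ => ((hP4 i).1 L μ).2.2.2.2 (hSx _ (hxS i)).2.2)
    (fun q => FIN.er2_nonneg b s t L q)
    (fun q r' hq hqB => by
      have h5 := Pool.Agent.Y816.PS.cnth_bound (s := s) (t := t) (by omega) (by omega) b L q r' hqB
      unfold Pool.Agent.Y816.PS.cnth at h5
      unfold er2
      convert h5 using 4)
    e1 e2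
  refine ⟨I.image x, ?_, ?_, ?_⟩
  · intro y hy
    rw [mem_image] at hy
    obtain ⟨i, _, rfl⟩ := hy
    exact hxS i
  · rw [card_image_of_injective _ hxi, hI]
  · -- the number of strings
    have hsub : (G.image (fun μ => pv b s t L μ / b % b ^ (2 * L + 1))) ⊆
        (range (b ^ (2 * L + 1))).filter (fun w =>
        ∀ y ∈ I.image x, ∃ n : ℕ, n < b ^ (2 * L + 1 + 2 * M) ∧
          (Nat.digits b n).reverse = Nat.digits b n ∧
          n / b ^ (2 * L + 1 + M) = y ∧ n / b ^ M % b ^ (2 * L + 1) = w ∧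
          n.primeFactorsList.length ≤ r ∧
          ∀ p : ℕ, p.Prime → p ∣ n → (b : ℝ) ^ ((L : ℝ) / 10) ≤ p) := by
      intro w hw
      rw [mem_image] at hw
      obtain ⟨μ, hμ, rfl⟩ := hw
      rw [mem_filter, mem_range]
      refine ⟨Nat.mod_lt _ (by positivity), ?_⟩
      intro y hy
      rw [mem_image] at hy
      obtain ⟨i, hi, rfl⟩ := hy
      obtain ⟨d1, d2, d3, d4, d5⟩ := (hP4 i).1 L μ
      exact ⟨b ^ (M - 1) * pv b s t L μ + hx b M L (x i), d1, d2, d3, d4, (hGI μ hμ i hi).1,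
        (hGI μ hμ i hi).2⟩
    have hcard1 : (G.image (pv b s t L)).card ≤
        (G.image (fun μ => pv b s t L μ / b % b ^ (2 * L + 1))).card := by
      have h5 : G.image (pv b s t L) =
          (G.image (fun μ => pv b s t L μ / b % b ^ (2 * L + 1))).image
            (fun w => b * (b ^ (2 * L + 1) + w) + 1) := by
        rw [image_image]
        apply image_congr
        intro μ _
        exact pv_inner h4 b s t L hb hst μ
      rw [h5]
      exact card_image_le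
    have h6 := hcard1.trans (card_le_card hsub)
    have h7 := hcard L G
    obtain ⟨T, hT⟩ : ∃ T : ℕ, T = ((range (b ^ (2 * L + 1))).filter (fun w =>
        ∀ y ∈ I.image x, ∃ n : ℕ, n < b ^ (2 * L + 1 + 2 * M) ∧
          (Nat.digits b n).reverse = Nat.digits b n ∧
          n / b ^ (2 * L + 1 + M) = y ∧ n / b ^ M % b ^ (2 * L + 1) = w ∧
          n.primeFactorsList.length ≤ r ∧
          ∀ p : ℕ, p.Prime → p ∣ n → (b : ℝ) ^ ((L : ℝ) / 10) ≤ p)).card := ⟨_, rfl⟩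
    rw [← hT] at h6 ⊢
    have hE0 : 0 < (Eset s t).card := by
      apply card_pos.2
      refine ⟨((⟨0, by omega⟩, ⟨0, by omega⟩), (⟨0, by omega⟩, ⟨0, by omega⟩)), ?_⟩
      unfold Eset
      simp
    have hE0r : (0 : ℝ) < (Eset s t).card := by exact_mod_cast hE0
    have h8 : (G.card : ℝ) ^ 2 ≤ T * ((Eset s t).card : ℝ) ^ L := by
      have : G.card ^ 2 ≤ T * (Eset s t).card ^ L := h7.trans (Nat.mul_le_mul_right _ h6)
      exact_mod_cast this
    have h9 : (((s : ℝ) * t) ^ L / (L : ℝ) ^ (A + 1)) ^ 2 ≤ T * ((Eset s t).card : ℝ) ^ L :=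
      (pow_le_pow_left₀ (by positivity) hG 2).trans h8
    have h10 : (((s : ℝ) * t) ^ 2 / (Eset s t).card) ^ L ≤ T * (L : ℝ) ^ (2 * (A + 1)) := by
      rw [div_pow, div_le_iff₀ (by positivity)]
      rw [div_pow, div_le_iff₀ (by positivity)] at h9
      calc (((s : ℝ) * t) ^ 2) ^ L = (((s : ℝ) * t) ^ L) ^ 2 := by rw [← pow_mul, ← pow_mul, mul_comm 2 L]
        _ ≤ T * ((Eset s t).card : ℝ) ^ L * ((L : ℝ) ^ (A + 1)) ^ 2 := h9
        _ = T * (L : ℝ) ^ (2 * (A + 1)) * ((Eset s t).card : ℝ) ^ L := by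
            rw [← pow_mul, mul_comm (A + 1) 2]
            ring
    have h11 := e3.trans h10
    rw [one_mul] at h11
    exact le_of_mul_le_mul_right h11 (by positivity)

end FINQ

/-- the final theorem -/
theorem FINQ.main (hM : StMTW) (h1 : StP1) (h2 : StP2) (h4 : StP4) (h8 : Pool.Agent.K3h54.PM.StG8)
    (h9 : Pool.Agent.K3h54.PM.StG9) : StFinQ := by
  intro b hb m
  obtain ⟨s, t, H, κ, hs, ht, hsb, htb, hst, hH, hH1, hH2, hbH, hm4, hκH, hE, hκ⟩ := h8 b hb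
  have hs1 : 1 ≤ s := by omega
  have hPt : PtW b s t := Pool.Agent.W571.PW.Pt.main b s t hb hs ht hst
  have hMaj := Pool.Agent.W139.PX.majP_alt hb hs1 ht hsb htb hH hH1 hH2
  have hCM : 0 < 1 / H ^ 3 := by positivity
  have hκ0 : 0 < κ := by rw [hκ]; split_ifs <;> norm_num
  have hBig := Pool.Agent.W139.PX.bigW_of_majP hb hs1 ht hst hm4 hMaj hH hbH hCM hκ0 hκH
  have hcard : ∀ (L : ℕ) (G : Finset (Fin L → Fin s × Fin t)),
      G.card ^ 2 ≤ (G.image (pv b s t L)).card * (Eset s t).card ^ L := by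
    intro L G
    have h10 := h9 b s t 0 L hb hst (Nat.zero_le _) G
    rw [Nat.sub_zero, pow_zero, mul_one] at h10
    refine h10.trans (le_of_eq ?_)
    congr 1
    have h11 : ∀ μ : Fin L → Fin s × Fin t,
        pv b s t L μ = Pool.Agent.K3h54.PM.pvG b s t 0 L μ + b ^ (L + 1) := by
      intro μ
      unfold pv Pool.Agent.K3h54.PM.pvG
      simp only [Nat.zero_le, filter_true]
      ring
    have h12 : G.image (pv b s t L) =
        (G.image (Pool.Agent.K3h54.PM.pvG b s t 0 L)).image (fun v => v + b ^ (L + 1)) := by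
      rw [image_image]
      apply image_congr
      intro μ _
      exact h11 μ
    rw [h12, card_image_of_injective _ (fun x y hxy => Nat.add_right_cancel hxy)]
  by_cases h9b : 9 ≤ b
  · rw [if_pos h9b] at hκ ⊢
    exact FINQ.core hM h1 h2 h4 b s t 3 H _ κ (91 / 250) hb hs1 ht hst hPt hBig hMaj hH hbH hCM hm4 hκH
      (by rw [hκ]; norm_num) (by norm_num) (by rw [hκ]; norm_num) (by norm_num) hE hcard m
  · rw [if_neg h9b] at hκ ⊢
    by_cases h3b : 3 ≤ b
    · rw [if_pos h3b] at hκ ⊢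
      exact FINQ.core hM h1 h2 h4 b s t 4 H _ κ (3 / 10) hb hs1 ht hst hPt hBig hMaj hH hbH hCM hm4 hκH
        (by rw [hκ]; norm_num) (by norm_num) (by rw [hκ]; norm_num) (by norm_num) hE hcard m
    · rw [if_neg h3b] at hκ ⊢
      exact FINQ.core hM h1 h2 h4 b s t 5 H _ κ (24 / 100) hb hs1 ht hst hPt hBig hMaj hH hbH hCM hm4 hκH
        (by rw [hκ]; norm_num) (by norm_num) (by rw [hκ]; norm_num) (by norm_num) hE hcard m

end Pool.Agent.K3h54.PC
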