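import Pool.Agent.K3h54.PC.Stm

/-!
# The theorem of Maynard and Tao with an average level: auxiliary lemmas
-/

set_option autoImplicit false
set_option linter.unusedSectionVars false
set_option linter.unusedVariables false

namespace Pool.Agent.K3h54.PC

open Finset Filter
open Pool.Agent.R498.MT
open Pool.Agent.Y677.RSZ (rt ev_log)
open Pool.Agent.TH423.SH (PS)
open Pool.Agent.W23.DC
open Pool.Agent.Y882
open Pool.Agent.Y882.PX
open Pool.Agent.Y882.KW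

open Classical in
/-- the product of the primes of one colour -/
noncomputable def Nx {G : ℤ → ℤ} {Y : ℕ} {ε₁ υ : ℝ} {m : ℕ} (i : Fin m)
    (x : Pg G Y ε₁ υ → Option (Fin m)) : ℕ := ∏ t ∈ univ.filter (fun t => x t = some i), (t : ℕ)

open Classical in
theorem dvd_Nx {G : ℤ → ℤ} {Y : ℕ} {ε₁ υ : ℝ} (hY : 2 ≤ Y) {m : ℕ} (i : Fin m)
    (x : Pg G Y ε₁ υ → Option (Fin m)) (p : ℕ) (hp : p.Prime) :
    p ∣ Nx i x ↔ ∃ t : Pg G Y ε₁ υ, (t : ℕ) = p ∧ x t = some i := by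
  unfold Nx
  rw [hp.prime.dvd_finsetProd_iff]
  constructor
  · rintro ⟨t, ht, hd⟩
    rw [mem_filter] at ht
    exact ⟨t, ((Nat.prime_dvd_prime_iff_eq hp (Pg_mem G Y ε₁ υ hY t).1).1 hd).symm, ht.2⟩
  · rintro ⟨t, rfl, ht⟩
    exact ⟨t, by rw [mem_filter]; exact ⟨mem_univ _, ht⟩, dvd_rfl⟩

open Classical in
theorem slot2 {G : ℤ → ℤ} {Y : ℕ} {ε₁ υ : ℝ} (hY : 2 ≤ Y) (cL0 : Finset ℕ → ℝ) {m : ℕ} (i : Fin m)
    (x : Pg G Y ε₁ υ → Option (Fin m)) :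
    ∑ T : Finset (Pg G Y ε₁ υ), cL0 (T.map (Function.Embedding.subtype _)) *
      (if ∀ t ∈ T, x t = some i then 1 else 0) =
    VV (pr Y ε₁ υ) cL0 (fun p => if p ∣ Nx i x then 1 else 0) := by
  have hPP : Pg G Y ε₁ υ ⊆ pr Y ε₁ υ := filter_subset _ _
  have hpr : ∀ p ∈ pr Y ε₁ υ, p.Prime := by
    intro p hp
    unfold pr at hp
    exact (mem_filter.1 hp).2.1
  rw [VV_restrict (pr Y ε₁ υ) (Pg G Y ε₁ υ) hPP cL0
    (fun p => if p ∣ Nx i x then 1 else 0) (fun p hp hp' => by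
      rw [if_neg]
      intro h
      rw [dvd_Nx hY i x p (hpr p hp)] at h
      obtain ⟨t, ht, -⟩ := h
      rw [← ht] at hp'
      exact hp' t.2)]
  refine sum_congr rfl fun T _ => ?_
  congr 1
  rw [Finset.prod_ite_zero]
  have e : (∀ t ∈ T, x t = some i) ↔ ∀ t ∈ T, (t : ℕ) ∣ Nx i x := by
    refine forall₂_congr fun t _ => ?_
    rw [dvd_Nx hY i x t (hpr t (hPP t.2))]
    constructor
    · intro h
      exact ⟨t, rfl, h⟩
    · rintro ⟨t', h1, h2⟩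
      rwa [Subtype.ext h1] at h2
  by_cases h : ∀ t ∈ T, x t = some i
  · rw [if_pos h, if_pos (e.1 h)]
    simp
  · rw [if_neg h, if_neg (fun h' => h (e.2 h'))]

open Classical in
theorem WB_congr {Y : ℕ} {ε₁ ζ υ : ℝ} (a b : ℝ) (hεζ : ε₁ ≤ ζ) (hζυ : ζ ≤ υ) {N N' : ℕ}
    (h : ∀ p ∈ pr Y ε₁ υ, (p ∣ N ↔ p ∣ N')) : WB Y ε₁ ζ υ a b N = WB Y ε₁ ζ υ a b N' := by
  have h1 : ∀ p ∈ pr Y ε₁ ζ, p ∈ pr Y ε₁ υ := by
    intro p hp
    unfold pr at hp ⊢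
    rw [mem_filter] at hp ⊢
    exact ⟨hp.1, hp.2.1, hp.2.2.1, hp.2.2.2.trans_le hζυ⟩
  have h2 : ∀ p ∈ pr Y ζ υ, p ∈ pr Y ε₁ υ := by
    intro p hp
    unfold pr at hp ⊢
    rw [mem_filter] at hp ⊢
    exact ⟨hp.1, hp.2.1, hεζ.trans hp.2.2.1, hp.2.2.2⟩
  unfold WB
  congr 1
  · have e : (∀ p ∈ pr Y ε₁ ζ, ¬ p ∣ N) ↔ (∀ p ∈ pr Y ε₁ ζ, ¬ p ∣ N') :=
      forall₂_congr fun p hp => not_congr (h p (h1 p hp))
    by_cases h3 : ∀ p ∈ pr Y ε₁ ζ, ¬ p ∣ N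
    · rw [if_pos h3, if_pos (e.1 h3)]
    · rw [if_neg h3, if_neg (fun h' => h3 (e.2 h'))]
  · congr 1
    refine sum_congr rfl fun q hq => ?_
    congr 1
    have := h q (h2 q hq)
    by_cases h3 : q ∣ N
    · rw [if_pos h3, if_pos (this.1 h3)]
    · rw [if_neg h3, if_neg (fun h' => h3 (this.2 h'))]

open Classical in
/-- few primes are coloured -/
theorem few2 {G : ℤ → ℤ} {Y : ℕ} {ε₁ υ : ℝ} (hY : 2 ≤ Y) (hε : 0 < ε₁) {n : ℕ} (f : Fin n → ℕ) (Dd c' : ℕ)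
    (hf0 : ∀ i, 0 < f i) (hf : ∀ i, f i ≤ Y ^ Dd) (hc' : (n : ℝ) * (Dd / ε₁) ≤ c')
    (x : Pg G Y ε₁ υ → Option (Fin n)) (hx : ∀ s j, x s = some j → (s : ℕ) ∣ f j) :
    (univ.filter (fun s => x s ≠ none)).card ≤ c' := by
  have h3 : univ.filter (fun s => x s ≠ none) ⊆ univ.biUnion (fun i : Fin n =>
      univ.filter (fun s : Pg G Y ε₁ υ => ((s : ℕ) : ℤ) ∣ ((f i : ℕ) : ℤ))) := by
    intro s hs
    rw [mem_filter] at hs
    rw [mem_biUnion]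
    rcases h4 : x s with _ | i
    · exact absurd h4 hs.2
    · exact ⟨i, mem_univ i, mem_filter.2 ⟨mem_univ s, by exact_mod_cast hx s i h4⟩⟩
  have h4 := (card_le_card h3).trans card_biUnion_le
  have h5 : ∀ i : Fin n, ((univ.filter (fun s : Pg G Y ε₁ υ =>
      ((s : ℕ) : ℤ) ∣ ((f i : ℕ) : ℤ))).card : ℝ) ≤ Dd / ε₁ := by
    intro i
    apply few_t G Y ε₁ υ hY hε _ (by exact_mod_cast (hf0 i).ne')
    rw [Int.natAbs_natCast, Real.rpow_natCast]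
    exact_mod_cast hf i
  have h6 : (((univ.filter (fun s => x s ≠ none)).card : ℕ) : ℝ) ≤ c' := by
    refine le_trans ?_ hc'
    calc (((univ.filter (fun s => x s ≠ none)).card : ℕ) : ℝ) ≤
        ∑ i : Fin n, ((univ.filter (fun s : Pg G Y ε₁ υ =>
          ((s : ℕ) : ℤ) ∣ ((f i : ℕ) : ℤ))).card : ℝ) := by exact_mod_cast h4
      _ ≤ ∑ _i : Fin n, (Dd / ε₁ : ℝ) := sum_le_sum fun i _ => h5 i
      _ = _ := by rw [sum_const, card_univ, Fintype.card_fin, nsmul_eq_mul]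
  exact_mod_cast h6

open Classical in
/-- the number of the large primes dividing a number -/
theorem bad_card {Y : ℕ} {ε₁ υ : ℝ} (hY : 2 ≤ Y) (hε : 0 < ε₁) (D C : ℕ) (hD : 0 < D) (hDC : D ≤ Y ^ C) :
    (((pr Y ε₁ υ).filter (fun p => p ∣ D)).card : ℝ) ≤ C / ε₁ := by
  have hYr : (2 : ℝ) ≤ Y := by exact_mod_cast hY
  have hY0 : (0 : ℝ) < Y := by linarith
  have hlY : 0 < Real.log Y := Real.log_pos (by linarith)
  set A := (pr Y ε₁ υ).filter (fun p => p ∣ D) with hA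
  have hmem : ∀ p ∈ A, p.Prime ∧ (Y : ℝ) ^ ε₁ ≤ p ∧ p ∣ D := by
    intro p hp
    rw [hA, mem_filter] at hp
    obtain ⟨hp1, hp2⟩ := hp
    unfold pr at hp1
    rw [mem_filter] at hp1
    refine ⟨hp1.2.1, ?_, hp2⟩
    have h1 := hp1.2.2.1
    unfold tt at h1
    rw [le_div_iff₀ hlY] at h1
    have hp0 : (0 : ℝ) < p := by exact_mod_cast hp1.2.1.pos
    rw [← Real.log_rpow hY0] at h1
    exact (Real.log_le_log_iff (by positivity) hp0).1 h1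
  have h1 : (∏ p ∈ A, p) ∣ D := by
    apply Finset.prod_primes_dvd
    · intro p hp
      exact (hmem p hp).1.prime
    · intro p hp
      exact (hmem p hp).2.2
  have h2 : ((Y : ℝ) ^ ε₁) ^ A.card ≤ D := by
    calc ((Y : ℝ) ^ ε₁) ^ A.card = ∏ p ∈ A, (Y : ℝ) ^ ε₁ := by rw [prod_const]
      _ ≤ ∏ p ∈ A, (p : ℝ) := prod_le_prod (fun p _ => by positivity) (fun p hp => (hmem p hp).2.1)
      _ = ((∏ p ∈ A, p : ℕ) : ℝ) := by push_cast; rfl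
      _ ≤ D := by exact_mod_cast Nat.le_of_dvd hD h1
  have h3 : ((Y : ℝ) ^ ε₁) ^ A.card ≤ (Y : ℝ) ^ C := h2.trans (by exact_mod_cast hDC)
  rw [← Real.rpow_natCast, ← Real.rpow_mul hY0.le, ← Real.rpow_natCast] at h3
  have h4 := (Real.rpow_le_rpow_left_iff (by linarith : (1 : ℝ) < Y)).1 h3
  rw [le_div_iff₀ hε]
  linarith

end Pool.Agent.K3h54.PC
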