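import Pool.Agent.K3h54.PC.MTW0

/-!
# The theorem of Maynard and Tao with an average level: the counting hypothesis, the bad arguments
-/

set_option autoImplicit false
set_option linter.unusedSectionVars false
set_option linter.unusedVariables false

namespace Pool.Agent.K3h54.PC

open Finset Filter
open Pool.Agent.R498.MT
open Pool.Agent.Y677.RSZ (rt ev_log)
open Pool.Agent.TH423.SH (PS)
open Pool.Agent.W23.DC
open Pool.Agent.Y882
open Pool.Agent.Y882.PX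
open Pool.Agent.Y882.KW

/-- existence of the residue class -/
theorem ex_class (a h0 W : ℕ) (hW : 0 < W) (haW : a.Coprime W) : ∃ c : ℕ, a * c + h0 ≡ 1 [MOD W] := by
  have : NeZero W := ⟨hW.ne'⟩
  obtain ⟨u, hu⟩ : ∃ u : ZMod W, (a : ZMod W) * u = 1 :=
    ⟨((ZMod.unitOfCoprime a haW)⁻¹ : (ZMod W)ˣ), by
      rw [← ZMod.coe_unitOfCoprime a haW]
      exact Units.mul_inv _⟩
  refine ⟨(u * (1 - (h0 : ZMod W))).val, ?_⟩
  rw [← ZMod.natCast_eq_natCast_iff]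
  push_cast
  rw [ZMod.natCast_val, ZMod.cast_id]
  linear_combination (1 - (h0 : ZMod W)) * hu

open Classical in
/-- the presieved weights -/
noncomputable def nuw {K : ℕ} (a : ℕ) (h : Fin K → ℕ) (w : ℕ → ℝ) (W c M z : ℕ) (v : ℕ) : ℝ :=
  if v ≡ c [MOD W] ∧ ∀ p ∈ PS M z, ∀ i, ¬ p ∣ a * v + h i then w v else 0

open Classical in
/-- the counting hypothesis -/
theorem cntw (C k b₀ B W : ℕ) (hB4 : StB4) (h : Fin (2 ^ k) → ℕ) (a c z J Y D : ℕ) (ε₁ υ : ℝ)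
    (S : Finset ℕ) (w : ℕ → ℝ) (X : ℝ) (ρ : ℕ → ℝ) (hY : 2 ≤ Y) (hW : 0 < W) (hWB : W.Coprime B)
    (hC : ∀ (D r z J : ℕ), 0 < D → D.Coprime B → (∀ p ∈ PS (B * W) z, ¬ p ∣ D) → z ≤ 2 ^ 2 ^ J →
      |∑ v ∈ S.filter (fun v => v ≡ r [MOD D] ∧ ∀ p ∈ PS (B * W) z, ∀ i, ¬ p ∣ a * v + h i), w v -
          X / D * VK a h (B * W) z| ≤
        (1 / 2 : ℝ) ^ b₀ * (X / D * VK a h (B * W) z) +
          ((J : ℝ) + 2) * ∑ T ∈ (PS (B * W) z).powerset.filter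
            (fun T : Finset ℕ => ∏ p ∈ T, p ≤ (2 ^ 2 ^ J) ^ (C * b₀)),
            ((2 ^ k : ℕ) : ℝ) ^ T.card * ρ (D * ∏ p ∈ T, p))
    (hz : (z : ℝ) < (Y : ℝ) ^ ε₁) (hzJ : z ≤ 2 ^ 2 ^ J)
    (hPB : ∀ s : Pg (GD D) Y ε₁ υ, ¬ (s : ℕ) ∣ B * W) (hPa : ∀ s : Pg (GD D) Y ε₁ υ, ¬ (s : ℕ) ∣ a)
    (hPh : ∀ (s : Pg (GD D) Y ε₁ υ) i j, i ≠ j → ¬ h i ≡ h j [MOD (s : ℕ)])
    (hrt : ∀ s : Pg (GD D) Y ε₁ υ, rt (GD D) (s : ℕ) = 1)
    (T : Pg (GD D) Y ε₁ υ → Option (Fin (2 ^ k))) :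
    |∑ n ∈ S, nuw a h w W c (B * W) z n *
        (if Sub T (xi (fun s : Pg (GD D) Y ε₁ υ => (s : ℕ)) a h n) then 1 else 0) -
      X / W * VK a h (B * W) z * ∏ t, rr (fun _ => 1 / qs (GD D) Y ε₁ υ t) (T t)| ≤
      (1 / 2 : ℝ) ^ b₀ * (X / W * VK a h (B * W) z) * ∏ t, rr (fun _ => 1 / qs (GD D) Y ε₁ υ t) (T t) +
      ((J : ℝ) + 2) * ∑ F ∈ (PS (B * W) z).powerset.filter
            (fun F : Finset ℕ => ∏ p ∈ F, p ≤ (2 ^ 2 ^ J) ^ (C * b₀)),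
            ((2 ^ k : ℕ) : ℝ) ^ F.card *
              ρ (W * DT (fun s : Pg (GD D) Y ε₁ υ => (s : ℕ)) T * ∏ p ∈ F, p) := by
  set pp : Pg (GD D) Y ε₁ υ → ℕ := fun s => (s : ℕ) with hpp
  have hpr : ∀ s, (pp s).Prime := fun s => (Pg_mem (GD D) Y ε₁ υ hY s).1
  have hinj : Function.Injective pp := Subtype.val_injective
  obtain ⟨-, hcl⟩ := hB4 (2 ^ k) (Pg (GD D) Y ε₁ υ) pp hpr hinj a h hPa hPh
  obtain ⟨r, hr⟩ := hcl T W c hW (fun s hs => hPB s (hs.mul_left _))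
  have hD0 : 0 < DT pp T := DT_pos pp hpr T
  have hcop : (W * DT pp T).Coprime B := by
    apply Nat.Coprime.mul_left hWB
    unfold DT
    apply Nat.Coprime.prod_left
    intro s _
    split_ifs
    · exact Nat.coprime_one_left _
    · exact ((hpr s).coprime_iff_not_dvd).2 (fun hd => hPB s (hd.mul_right _))
  have hPS : ∀ p ∈ PS (B * W) z, ¬ p ∣ W * DT pp T := by
    intro p hp hd
    unfold PS at hp
    rw [mem_filter, mem_Icc] at hp
    obtain ⟨⟨-, hp1⟩, hp2, hp3⟩ := hp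
    rcases (Nat.Prime.dvd_mul hp2).1 hd with h1 | h1
    · exact hp3 (h1.mul_left _)
    · unfold DT at h1
      obtain ⟨s, _, hs⟩ := (hp2.prime.dvd_finsetProd_iff _).1 h1
      split_ifs at hs
      · exact hp2.one_lt.ne' (Nat.dvd_one.1 hs)
      · have h7 := (Nat.prime_dvd_prime_iff_eq hp2 (hpr s)).1 hs
        have h8 := (Pg_mem (GD D) Y ε₁ υ hY s).2.1
        have h9 : (z : ℝ) < ((s : ℕ) : ℝ) := hz.trans_le h8
        have h10 : z < (s : ℕ) := by exact_mod_cast h9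
        have h11 : p = (s : ℕ) := h7
        omega
  have hmain := hC (W * DT pp T) r z J (Nat.mul_pos hW hD0) hcop hPS hzJ
  have e1 : ∑ n ∈ S, nuw a h w W c (B * W) z n * (if Sub T (xi pp a h n) then 1 else 0) =
      ∑ v ∈ S.filter (fun v => v ≡ r [MOD W * DT pp T] ∧ ∀ p ∈ PS (B * W) z, ∀ i, ¬ p ∣ a * v + h i), w v := by
    rw [sum_filter]
    refine sum_congr rfl fun v _ => ?_
    have h1 := hr v
    unfold nuw
    have h1' : (v ≡ r [MOD W * DT pp T]) = (v ≡ c [MOD W] ∧ Sub T (xi pp a h v)) := propext h1.symm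
    simp only [h1']
    by_cases hA : v ≡ c [MOD W]
    · by_cases hS : Sub T (xi pp a h v)
      · simp [hA, hS]
      · simp [hS]
    · simp [hA]
  have e2 : ∏ t, rr (fun _ : Fin (2 ^ k) => 1 / qs (GD D) Y ε₁ υ t) (T t) = 1 / (DT pp T : ℝ) := by
    unfold DT
    push_cast
    rw [one_div, ← prod_inv_distrib]
    refine prod_congr rfl fun t _ => ?_
    rcases T t with _ | j
    · simp [Pool.Agent.R498.MT.rr]
    · simp only [Pool.Agent.R498.MT.rr, reduceCtorEq, if_false]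
      unfold qs
      rw [hrt t]
      simp [hpp]
  rw [e1, e2]
  have hW0 : (W : ℝ) ≠ 0 := by exact_mod_cast hW.ne'
  have hDr : (DT pp T : ℝ) ≠ 0 := by exact_mod_cast hD0.ne'
  have e3 : X / W * VK a h (B * W) z * (1 / (DT pp T : ℝ)) =
      X / ((W * DT pp T : ℕ) : ℝ) * VK a h (B * W) z := by
    push_cast
    field_simp
  have e4 : (1 / 2 : ℝ) ^ b₀ * (X / W * VK a h (B * W) z) * (1 / (DT pp T : ℝ)) =
      (1 / 2 : ℝ) ^ b₀ * (X / ((W * DT pp T : ℕ) : ℝ) * VK a h (B * W) z) := by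
    rw [← e3]
    ring
  rw [e3, e4]
  exact hmain

end Pool.Agent.K3h54.PC
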