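import Pool.Agent.K3h54.PC.MTW1

/-!
# The theorem of Maynard and Tao with an average level: one argument, the bad arguments
-/

set_option autoImplicit false
set_option linter.unusedSectionVars false
set_option linter.unusedVariables false

namespace Pool.Agent.K3h54.PC

open Finset Filter
open Pool.Agent.R498.MT
open Pool.Agent.Y677.RSZ (rt ev_log)
open Pool.Agent.TH423.SH (PS)
open Pool.Agent.W23.DC
open Pool.Agent.Y882
open Pool.Agent.Y882.PX
open Pool.Agent.Y882.KW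

open Classical in
/-- the contribution of one argument -/
theorem ptw (k B W a c z Y D m : ℕ) (ε₁ ζ υ aw bw B0 Λ : ℝ) (h : Fin (2 ^ k) → ℕ) (w : ℕ → ℝ) (v : ℕ)
    (hY : 2 ≤ Y) (hεζ : ε₁ ≤ ζ) (hζυ : ζ ≤ υ) (hb : 0 ≤ bw) (hab : bw * υ ≤ aw) (hw : 0 ≤ w v)
    (hξ : ∀ (s : Pg (GD D) Y ε₁ υ) j,
      xi (fun s : Pg (GD D) Y ε₁ υ => (s : ℕ)) a h v s = some j ↔ (s : ℕ) ∣ a * v + h j)
    (hac : ∀ i, a * c + h i ≡ 1 [MOD W]) (hcop : ∀ i, (a * v + h i).Coprime B)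
    (hz2 : (Y : ℝ) ^ ε₁ ≤ z + 1) (hΛ0 : 0 ≤ Λ) (hΛ : Λ ≤ B0)
    (hmem : ∀ p ∈ pr Y ε₁ υ, ¬ p ∣ D → p ∈ Pg (GD D) Y ε₁ υ) (Bad : Prop)
    (hgood : ¬ Bad → 0 < w v → (∀ i, ∀ p : ℕ, p.Prime → p ∣ a * v + h i → (Y : ℝ) ^ ε₁ ≤ p) →
      ∀ I : Finset (Fin (2 ^ k)), m ≤ I.card → ∃ i ∈ I, ¬ 0 < WW Y ζ υ aw bw (a * v + h i)) :
    nuw a h w W c (B * W) z v * (Λ * (∑ i, WB Y ε₁ ζ υ aw bw
        (Nx i (xi (fun s : Pg (GD D) Y ε₁ υ => (s : ℕ)) a h v)) - m)) ≤
      B0 * 2 ^ k * (w v * (if Bad ∨ ∃ p ∈ (pr Y ε₁ υ).filter (fun p => p ∣ D), ∃ i, p ∣ a * v + h i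
        then 1 else 0)) := by
  have hB0 : 0 ≤ B0 := hΛ0.trans hΛ
  have hR0 : 0 ≤ B0 * 2 ^ k * (w v * (if Bad ∨ ∃ p ∈ (pr Y ε₁ υ).filter (fun p => p ∣ D), ∃ i,
      p ∣ a * v + h i then (1 : ℝ) else 0)) := by
    apply mul_nonneg (by positivity)
    apply mul_nonneg hw
    split_ifs <;> norm_num
  by_cases hν : v ≡ c [MOD W] ∧ ∀ p ∈ PS (B * W) z, ∀ i, ¬ p ∣ a * v + h i
  swap
  · unfold nuw
    rw [if_neg hν, zero_mul]
    exact hR0
  have hν1 : nuw a h w W c (B * W) z v = w v := by unfold nuw; rw [if_pos hν]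
  rw [hν1]
  rcases hw.eq_or_lt with hw0 | hw0
  · rw [← hw0]; simp
  set x := xi (fun s : Pg (GD D) Y ε₁ υ => (s : ℕ)) a h v with hx
  have hw1 : ∀ i : Fin (2 ^ k), WB Y ε₁ ζ υ aw bw (Nx i x) ≤ 1 := fun i => WB_le_one Y ε₁ ζ υ aw bw hb hab _
  have hsum : ∑ i : Fin (2 ^ k), WB Y ε₁ ζ υ aw bw (Nx i x) ≤ 2 ^ k := by
    have h3 := sum_le_sum (s := (univ : Finset (Fin (2 ^ k)))) fun i _ => hw1 i
    rw [sum_const, card_univ, Fintype.card_fin, nsmul_eq_mul, mul_one] at h3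
    push_cast at h3
    exact h3
  have hm0 : (0 : ℝ) ≤ m := Nat.cast_nonneg m
  by_cases hbad : Bad ∨ ∃ p ∈ (pr Y ε₁ υ).filter (fun p => p ∣ D), ∃ i, p ∣ a * v + h i
  · rw [if_pos hbad, mul_one, mul_comm (B0 * 2 ^ k)]
    apply mul_le_mul_of_nonneg_left _ hw
    have h2k : (0 : ℝ) ≤ 2 ^ k := by positivity
    calc Λ * (∑ i, WB Y ε₁ ζ υ aw bw (Nx i x) - m) ≤ Λ * 2 ^ k :=
          mul_le_mul_of_nonneg_left (by linarith) hΛ0
      _ ≤ B0 * 2 ^ k := mul_le_mul_of_nonneg_right hΛ h2k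
  rw [if_neg hbad, mul_zero, mul_zero]
  apply mul_nonpos_of_nonneg_of_nonpos hw
  apply mul_nonpos_of_nonneg_of_nonpos hΛ0
  by_contra hs
  push Not at hs
  have hbad1 : ¬ Bad := fun h => hbad (Or.inl h)
  have hbad2 : ∀ p ∈ pr Y ε₁ υ, p ∣ D → ∀ i, ¬ p ∣ a * v + h i := by
    intro p hp hpD i hd
    exact hbad (Or.inr ⟨p, mem_filter.2 ⟨hp, hpD⟩, i, hd⟩)
  have hprp : ∀ p ∈ pr Y ε₁ υ, p.Prime := by
    intro p hp
    unfold pr at hp
    exact (mem_filter.1 hp).2.1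
  have hWB : ∀ i, WB Y ε₁ ζ υ aw bw (Nx i x) = WB Y ε₁ ζ υ aw bw (a * v + h i) := by
    intro i
    apply WB_congr aw bw hεζ hζυ
    intro p hp
    rw [dvd_Nx hY i x p (hprp p hp)]
    constructor
    · rintro ⟨t, rfl, ht⟩
      exact (hξ t i).1 ht
    · intro hd
      by_cases hpD : p ∣ D
      · exact absurd hd (hbad2 p hp hpD i)
      · exact ⟨⟨p, hmem p hp hpD⟩, rfl, (hξ ⟨p, hmem p hp hpD⟩ i).2 hd⟩
  have hsmall : ∀ i, ∀ p : ℕ, p.Prime → p ∣ a * v + h i → (Y : ℝ) ^ ε₁ ≤ p := by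
    intro i p hp hd
    by_contra hlt
    push Not at hlt
    have hpz : p ≤ z := by
      have h1 : (p : ℝ) < z + 1 := hlt.trans_le hz2
      have h2 : p < z + 1 := by exact_mod_cast h1
      omega
    by_cases hpB : p ∣ B
    · have h1 := Nat.dvd_gcd hd hpB
      rw [hcop i] at h1
      exact hp.one_lt.ne' (Nat.dvd_one.1 h1)
    by_cases hpW : p ∣ W
    · have h1 : a * v + h i ≡ 1 [MOD p] :=
        (((hν.1.of_dvd hpW).mul_left a).add_right (h i)).trans ((hac i).of_dvd hpW)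
      have h2 : (1 : ℕ) ≡ 0 [MOD p] := h1.symm.trans ((Nat.modEq_zero_iff_dvd).2 hd)
      exact hp.one_lt.ne' (Nat.dvd_one.1 ((Nat.modEq_zero_iff_dvd).1 h2))
    · refine hν.2 p ?_ i hd
      unfold PS
      rw [mem_filter, mem_Icc]
      exact ⟨⟨hp.one_lt.le, hpz⟩, hp, fun h1 => by
        rcases (Nat.Prime.dvd_mul hp).1 h1 with h2 | h2
        · exact hpB h2
        · exact hpW h2⟩
  have hcard : ∑ i : Fin (2 ^ k), WB Y ε₁ ζ υ aw bw (Nx i x) ≤
      ((univ.filter (fun i => 0 < WB Y ε₁ ζ υ aw bw (a * v + h i))).card : ℝ) := by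
    have h4 : (((univ.filter (fun i => 0 < WB Y ε₁ ζ υ aw bw (a * v + h i))).card : ℕ) : ℝ) =
        ∑ i, if 0 < WB Y ε₁ ζ υ aw bw (a * v + h i) then (1 : ℝ) else 0 := by
      rw [← sum_filter]
      simp
    rw [h4]
    apply sum_le_sum
    intro i _
    split_ifs with h5
    · exact hw1 i
    · rw [hWB i]
      exact not_lt.1 h5
  have hmc : m ≤ (univ.filter (fun i => 0 < WB Y ε₁ ζ υ aw bw (a * v + h i))).card := by
    have h5 : (m : ℝ) < ((univ.filter (fun i => 0 < WB Y ε₁ ζ υ aw bw (a * v + h i))).card : ℝ) := by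
      linarith
    have h6 : m < (univ.filter (fun i => 0 < WB Y ε₁ ζ υ aw bw (a * v + h i))).card := by
      exact_mod_cast h5
    exact h6.le
  obtain ⟨i, hi, hi2⟩ := hgood hbad1 hw0 hsmall _ hmc
  rw [mem_filter] at hi
  apply hi2
  exact WB_pos Y ε₁ ζ υ aw bw _ hY (fun p hp hpY hpd => not_lt.2 (hsmall i p hp hpd) hpY) hi.2

/-- divisibility of a slot is a residue class -/
theorem slot_class (a h0 p : ℕ) (hp : p.Prime) (hpa : ¬ p ∣ a) : ∃ r : ℕ, ∀ v : ℕ,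
    p ∣ a * v + h0 ↔ v ≡ r [MOD p] := by
  have : Fact p.Prime := ⟨hp⟩
  have ha : (a : ZMod p) ≠ 0 := by
    intro h
    exact hpa ((ZMod.natCast_eq_zero_iff a p).1 h)
  refine ⟨(-(h0 : ZMod p) * (a : ZMod p)⁻¹).val, fun v => ?_⟩
  rw [← ZMod.natCast_eq_natCast_iff, ZMod.natCast_val, ZMod.cast_id, ← ZMod.natCast_eq_zero_iff]
  push_cast
  constructor
  · intro h
    have h1 : (a : ZMod p) * v = - h0 := by linear_combination h
    field_simp
    rw [← h1]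
    ring
  · intro h
    rw [h]
    field_simp
    ring

open Classical in
/-- the bad arguments -/
theorem bad_sum (K a B A D Y : ℕ) (ε₁ υ : ℝ) (h : Fin K → ℕ) (S : Finset ℕ) (w : ℕ → ℝ) (X Q : ℝ) (ρ : ℕ → ℝ)
    (hX : 0 ≤ X) (hw : ∀ v ∈ S, 0 ≤ w v)
    (hLD : ∀ q r : ℕ, 0 < q → q.Coprime B →
      |∑ v ∈ S.filter (fun v => v ≡ r [MOD q]), w v - X / q| ≤ ρ q) (Bad : ℕ → Prop) (E1 : ℝ)
    (hBad : ∑ v ∈ S.filter (fun v => Bad v), w v ≤ E1)
    (hP : ∀ p ∈ (pr Y ε₁ υ).filter (fun p => p ∣ D), p.Prime ∧ ¬ p ∣ a ∧ p.Coprime B ∧ X / p ≤ E1 ∧ ρ p ≤ E1) :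
    ∑ v ∈ S, w v * (if Bad v ∨ ∃ p ∈ (pr Y ε₁ υ).filter (fun p => p ∣ D), ∃ i, p ∣ a * v + h i
        then 1 else 0) ≤ E1 + ((pr Y ε₁ υ).filter (fun p => p ∣ D)).card * (K * (2 * E1)) := by
  set BP := (pr Y ε₁ υ).filter (fun p => p ∣ D) with hBP
  have h1 : ∀ v ∈ S, w v * (if Bad v ∨ ∃ p ∈ BP, ∃ i, p ∣ a * v + h i then (1 : ℝ) else 0) ≤
      (if Bad v then w v else 0) + ∑ p ∈ BP, ∑ i : Fin K, (if p ∣ a * v + h i then w v else 0) := by
    intro v hv
    have hwv := hw v hv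
    have h0 : 0 ≤ ∑ p ∈ BP, ∑ i : Fin K, (if p ∣ a * v + h i then w v else 0) :=
      sum_nonneg fun p _ => sum_nonneg fun i _ => by split_ifs <;> [exact hwv; exact le_rfl]
    by_cases hb : Bad v
    · rw [if_pos (Or.inl hb), if_pos hb, mul_one]
      linarith
    · by_cases hp : ∃ p ∈ BP, ∃ i, p ∣ a * v + h i
      · rw [if_pos (Or.inr hp), if_neg hb, mul_one, zero_add]
        obtain ⟨p, hp1, i, hi⟩ := hp
        calc w v = (if p ∣ a * v + h i then w v else 0) := by rw [if_pos hi]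
          _ ≤ ∑ i : Fin K, (if p ∣ a * v + h i then w v else 0) :=
            single_le_sum (f := fun i => if p ∣ a * v + h i then w v else 0)
              (fun i _ => by
                show 0 ≤ (if p ∣ a * v + h i then w v else 0)
                split_ifs <;> [exact hwv; exact le_rfl]) (mem_univ i)
          _ ≤ _ := single_le_sum (f := fun p => ∑ i : Fin K, (if p ∣ a * v + h i then w v else 0))
              (fun p _ => sum_nonneg fun i _ => by split_ifs <;> [exact hwv; exact le_rfl]) hp1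
      · rw [if_neg (by
          rintro (h | h)
          · exact hb h
          · exact hp h), if_neg hb, mul_zero, zero_add]
        exact h0
  refine (sum_le_sum h1).trans ?_
  rw [sum_add_distrib, ← sum_filter]
  refine add_le_add hBad ?_
  rw [sum_comm]
  calc ∑ p ∈ BP, ∑ v ∈ S, ∑ i : Fin K, (if p ∣ a * v + h i then w v else 0) ≤
      ∑ p ∈ BP, (K * (2 * E1) : ℝ) := by
        apply sum_le_sum
        intro p hp
        obtain ⟨g1, g2, g3, g4, g5⟩ := hP p hp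
        rw [sum_comm]
        calc ∑ i : Fin K, ∑ v ∈ S, (if p ∣ a * v + h i then w v else 0) ≤ ∑ i : Fin K, (2 * E1) := by
              apply sum_le_sum
              intro i _
              obtain ⟨r, hr⟩ := slot_class a (h i) p g1 g2
              have e : ∑ v ∈ S, (if p ∣ a * v + h i then w v else 0) =
                  ∑ v ∈ S.filter (fun v => v ≡ r [MOD p]), w v := by
                rw [sum_filter]
                refine sum_congr rfl fun v _ => ?_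
                by_cases h2 : p ∣ a * v + h i
                · rw [if_pos h2, if_pos ((hr v).1 h2)]
                · rw [if_neg h2, if_neg (fun h3 => h2 ((hr v).2 h3))]
              rw [e]
              have h3 := abs_le.1 (hLD p r g1.pos g3)
              linarith [h3.2]
          _ = K * (2 * E1) := by rw [sum_const, card_univ, Fintype.card_fin, nsmul_eq_mul]
    _ = _ := by rw [sum_const, nsmul_eq_mul]

end Pool.Agent.K3h54.PC
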