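import Pool.Agent.K3h54.PC.MTW2

/-!
# The theorem of Maynard and Tao with an average level: numerical conditions
-/

set_option autoImplicit false
set_option linter.unusedSectionVars false
set_option linter.unusedVariables false

namespace Pool.Agent.K3h54.PC

open Finset Filter
open Pool.Agent.R498.MT
open Pool.Agent.Y677.RSZ (rt ev_log)
open Pool.Agent.TH423.SH (PS)
open Pool.Agent.W23.DC
open Pool.Agent.Y882
open Pool.Agent.Y882.PX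
open Pool.Agent.Y882.KW

/-- the numerical conditions -/
theorem nums (B W A n : ℕ) (ε₁ δ cV C1 C2 : ℝ) (hε : 0 < ε₁) (hδ : 0 < δ) : ∃ Y0 : ℕ, ∀ Y : ℕ, Y0 ≤ Y →
    3 ≤ Y ∧ B ≤ Y ∧ W ≤ Y ∧ ((B * W : ℕ) : ℝ) + 1 < (Y : ℝ) ^ ε₁ ∧ (W : ℝ) ≤ (Y : ℝ) ^ δ ∧
    Real.log Y ^ A ≤ (Y : ℝ) ^ ε₁ ∧ 1 ≤ Real.log Y ∧ C1 ≤ Real.log Y ∧ C2 < Real.log Y := by
  have hT := tendsto_natCast_atTop_atTop (R := ℝ)
  have v1 : ∀ᶠ N : ℕ in atTop, ((B * W : ℕ) : ℝ) + 1 < (N : ℝ) ^ ε₁ :=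
    ((tendsto_rpow_atTop hε).comp hT).eventually_gt_atTop _
  have v2 : ∀ᶠ N : ℕ in atTop, (W : ℝ) ≤ (N : ℝ) ^ δ :=
    ((tendsto_rpow_atTop hδ).comp hT).eventually_ge_atTop _
  have v3 := ev_log A 1 ε₁ hε
  have v4 : ∀ᶠ N : ℕ in atTop, (1 : ℝ) ≤ Real.log (N : ℝ) :=
    (Real.tendsto_log_atTop.comp hT).eventually_ge_atTop _
  have v5 : ∀ᶠ N : ℕ in atTop, (C1 : ℝ) ≤ Real.log (N : ℝ) :=
    (Real.tendsto_log_atTop.comp hT).eventually_ge_atTop _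
  have v6 : ∀ᶠ N : ℕ in atTop, (C2 : ℝ) < Real.log (N : ℝ) :=
    (Real.tendsto_log_atTop.comp hT).eventually_gt_atTop _
  obtain ⟨Y0, hY0⟩ := eventually_atTop.1 ((eventually_ge_atTop 3).and ((eventually_ge_atTop B).and
    ((eventually_ge_atTop W).and (v1.and (v2.and (v3.and (v4.and (v5.and v6))))))))
  refine ⟨Y0, fun Y hY => ?_⟩
  obtain ⟨e1, e2, e3, e4, e5, e6, e7, e8, e9⟩ := hY0 Y hY
  refine ⟨e1, e2, e3, e4, e5, ?_, e7, e8, e9⟩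
  rwa [one_mul] at e6

/-- the discriminant of the slots -/
def Dh {K : ℕ} (B W : ℕ) (h : Fin K → ℕ) : ℕ :=
  B * W * ∏ i, ∏ j, if i = j then 1 else ((h i : ℤ) - h j).natAbs

theorem Dh_pos {K : ℕ} {B W : ℕ} (hB : 0 < B) (hW : 0 < W) {h : Fin K → ℕ} (hh : Function.Injective h) :
    0 < Dh B W h := by
  unfold Dh
  apply Nat.mul_pos (Nat.mul_pos hB hW)
  apply Finset.prod_pos
  intro i _
  apply Finset.prod_pos
  intro j _
  split_ifs with hij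
  · exact one_pos
  · have : h i ≠ h j := fun h1 => hij (hh h1)
    omega

theorem Dh_le {K : ℕ} {B W Y Dd : ℕ} (hB : B ≤ Y) (hW : W ≤ Y) {h : Fin K → ℕ} (hh : ∀ i, h i ≤ Y ^ Dd)
    (hY : 1 ≤ Y) : Dh B W h ≤ Y ^ (2 + K * (K * Dd)) := by
  unfold Dh
  have h1 : ∏ i : Fin K, ∏ j : Fin K, (if i = j then 1 else ((h i : ℤ) - h j).natAbs) ≤
      ∏ _i : Fin K, ∏ _j : Fin K, Y ^ Dd := by
    apply Finset.prod_le_prod' fun i _ => ?_
    apply Finset.prod_le_prod' fun j _ => ?_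
    split_ifs
    · exact Nat.one_le_pow _ _ hY
    · have h2 := hh i
      have h3 := hh j
      omega
  have h2 : ∏ _i : Fin K, ∏ _j : Fin K, Y ^ Dd = Y ^ (K * (K * Dd)) := by
    simp only [prod_const, card_univ, Fintype.card_fin]
    rw [← pow_mul, ← pow_mul]
    congr 1
    ring
  calc B * W * ∏ i : Fin K, ∏ j : Fin K, (if i = j then 1 else ((h i : ℤ) - h j).natAbs)
      ≤ Y * Y * Y ^ (K * (K * Dd)) := by
        rw [← h2]
        exact Nat.mul_le_mul (Nat.mul_le_mul hB hW) h1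
    _ = _ := by rw [pow_add]; ring

theorem Dh_mod {K : ℕ} {B W : ℕ} {h : Fin K → ℕ} {p : ℕ} (hp : ¬ p ∣ Dh B W h) :
    ¬ p ∣ B * W ∧ ∀ i j, i ≠ j → ¬ h i ≡ h j [MOD p] := by
  unfold Dh at hp
  refine ⟨fun h1 => hp (h1.mul_right _), fun i j hij h1 => hp ?_⟩
  apply Dvd.dvd.mul_left
  refine dvd_trans ?_ (dvd_prod_of_mem _ (mem_univ i))
  refine dvd_trans ?_ (dvd_prod_of_mem _ (mem_univ j))
  rw [if_neg hij]
  have h2 := (Nat.modEq_iff_dvd).1 h1.symm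
  exact Int.natCast_dvd.1 h2

end Pool.Agent.K3h54.PC
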