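import Pool.Agent.K3h54.PC.MTW3

/-!
# The theorem of Maynard and Tao with an average level
-/

set_option autoImplicit false
set_option linter.unusedSectionVars false
set_option linter.unusedVariables false

namespace Pool.Agent.K3h54.PC

open Finset Filter
open Pool.Agent.R498.MT
open Pool.Agent.Y677.RSZ (rt ev_log)
open Pool.Agent.TH423.SH (PS)
open Pool.Agent.W23.DC
open Pool.Agent.Y882
open Pool.Agent.Y882.PX
open Pool.Agent.Y882.KW

theorem card_slots {K : ℕ} (a : ℕ) (h : Fin K → ℕ) (p : ℕ) (hp : p.Prime) (hpa : ¬ p ∣ a) :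
    ((range p).filter (fun x => ∃ i, p ∣ a * x + h i)).card ≤ K := by
  classical
  choose r hr using fun i : Fin K => slot_class a (h i) p hp hpa
  have h1 : (range p).filter (fun x => ∃ i, p ∣ a * x + h i) ⊆ univ.image (fun i : Fin K => r i % p) := by
    intro x hx
    rw [mem_filter, mem_range] at hx
    obtain ⟨hx1, i, hi⟩ := hx
    rw [mem_image]
    refine ⟨i, mem_univ i, ?_⟩
    have h2 := (hr i x).1 hi
    have h3 : x % p = r i % p := h2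
    rw [← h3, Nat.mod_eq_of_lt hx1]
  refine (card_le_card h1).trans (card_image_le.trans ?_)
  rw [card_univ, Fintype.card_fin]

/-- the final inequality -/
theorem fin_num (A2 : ℕ) (X W lg cV V B0 K E1 ε₁ CC J BP I LHS : ℝ) (hX : 0 < X) (hW : 0 < W) (hlg : 1 ≤ lg)
    (hcV : 0 < cV) (hV : cV / (3 * lg) ^ A2 ≤ V) (hB0 : 0 ≤ B0) (hK : 0 ≤ K) (hE1 : 0 ≤ E1) (hε : 0 < ε₁)
    (hCC : 0 < CC) (hJ : J ≤ 3 * lg) (hBP : BP ≤ E1 / ε₁) (hI : 1 ≤ I)
    (h1 : 2 * (X / W * V * I) ≤ B0 * K * (X / lg ^ (A2 + 2) + BP * (K * (2 * (X / lg ^ (A2 + 2))))) +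
      CC * ((J + 2) * (X / lg ^ (A2 + 2))))
    (hC2 : (B0 * K * (1 + E1 / ε₁ * (K * 2)) + 5 * CC) * W * 3 ^ A2 / (2 * cV) < lg) : False := by
  have hlg0 : 0 < lg := by linarith
  have hXW : 0 < X / W := div_pos hX hW
  have hV0 : 0 < V := lt_of_lt_of_le (by positivity) hV
  have h2 : 2 * (X / W * (cV / (3 * lg) ^ A2)) ≤ 2 * (X / W * V * I) := by
    have h3 : X / W * (cV / (3 * lg) ^ A2) ≤ X / W * V := mul_le_mul_of_nonneg_left hV hXW.le
    have h4 : X / W * V * 1 ≤ X / W * V * I := mul_le_mul_of_nonneg_left hI (by positivity)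
    linarith
  obtain ⟨E, hE⟩ : ∃ E : ℝ, E = X / lg ^ (A2 + 2) := ⟨_, rfl⟩
  have hE0 : 0 < E := by rw [hE]; positivity
  rw [← hE] at h1
  have h5 : B0 * K * (E + BP * (K * (2 * E))) + CC * ((J + 2) * E) ≤
      (B0 * K * (1 + E1 / ε₁ * (K * 2)) + 5 * CC) * lg * E := by
    have e1 : BP * (K * (2 * E)) ≤ E1 / ε₁ * (K * (2 * E)) := mul_le_mul_of_nonneg_right hBP (by positivity)
    have e2 : B0 * K * (E + BP * (K * (2 * E))) ≤ B0 * K * (E + E1 / ε₁ * (K * (2 * E))) :=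
      mul_le_mul_of_nonneg_left (by linarith) (by positivity)
    have e3 : CC * ((J + 2) * E) ≤ CC * ((5 * lg) * E) := by
      apply mul_le_mul_of_nonneg_left _ hCC.le
      apply mul_le_mul_of_nonneg_right _ hE0.le
      linarith
    have e4 : B0 * K * (E + E1 / ε₁ * (K * (2 * E))) = (B0 * K * (1 + E1 / ε₁ * (K * 2))) * E * 1 := by ring
    have e5 : (B0 * K * (1 + E1 / ε₁ * (K * 2))) * E * 1 ≤ (B0 * K * (1 + E1 / ε₁ * (K * 2))) * E * lg :=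
      mul_le_mul_of_nonneg_left hlg (by positivity)
    nlinarith
  have h6 := (h2.trans h1).trans h5
  have h7 : (X / W * (cV / (3 * lg) ^ A2)) = cV / (W * 3 ^ A2) * (X / lg ^ A2) := by
    rw [mul_pow]
    field_simp
  have h8 : lg * E = X / lg ^ A2 / lg := by
    rw [hE, pow_add]
    field_simp
  obtain ⟨F, hF⟩ : ∃ F : ℝ, F = X / lg ^ A2 := ⟨_, rfl⟩
  have hF0 : 0 < F := by rw [hF]; positivity
  rw [h7, mul_assoc (B0 * K * (1 + E1 / ε₁ * (K * 2)) + 5 * CC), h8, ← hF] at h6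
  obtain ⟨G, hG⟩ : ∃ G : ℝ, G = B0 * K * (1 + E1 / ε₁ * (K * 2)) + 5 * CC := ⟨_, rfl⟩
  rw [← hG] at h6 hC2
  rw [div_lt_iff₀ (by positivity)] at hC2
  have h9 : 2 * (cV / (W * 3 ^ A2) * F) * (W * 3 ^ A2 * lg) ≤ G * (F / lg) * (W * 3 ^ A2 * lg) :=
    mul_le_mul_of_nonneg_right h6 (by positivity)
  have h10 : 2 * (cV / (W * 3 ^ A2) * F) * (W * 3 ^ A2 * lg) = (lg * (2 * cV)) * F := by
    field_simp
  have h11 : G * (F / lg) * (W * 3 ^ A2 * lg) = (G * W * 3 ^ A2) * F := by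
    field_simp
  rw [h10, h11] at h9
  have h12 := le_of_mul_le_mul_right h9 hF0
  linarith

open Classical in
/-- **The theorem of Maynard and Tao with an average level.** -/
theorem mtw (hA3 : StA3) (hB1 : StB1) (hB2 : StB2) (hB3 : StB3) (hB4 : StB4) : StMTW := by
  intro m τ ζ υ aw bw θ R hζ h2 h4 hτ hζυ hυτ ha hb hab hJ0 hR hRζ hRτ B Dd hB
  obtain ⟨hB1a, hB1b, hB1c⟩ := hB1
  have hτ0 : 0 ≤ τ := by linarith
  have hυ1 : υ ≤ 1 := by linarith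
  obtain ⟨f0, F0, hf0, hF0, HL⟩ := lsw4 τ ζ υ aw bw hζ h2 h4 hτ hζυ hυτ ha hb hab hJ0
  obtain ⟨C, hC1, hC⟩ := hB2
  obtain ⟨k, hk⟩ : ∃ k : ℕ, 3 * ((m : ℝ) + 1) * 1474560 ≤ f0 * R * k := by
    obtain ⟨k, hk⟩ := exists_nat_ge (3 * ((m : ℝ) + 1) * 1474560 / (f0 * R))
    refine ⟨k, ?_⟩
    rw [div_le_iff₀ (by positivity)] at hk
    linarith
  obtain ⟨δ, hδ⟩ : ∃ δ : ℝ, δ = (θ - (2 * R + τ)) / 2 := ⟨_, rfl⟩
  have hδ0 : 0 < δ := by rw [hδ]; linarith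
  obtain ⟨ε₁, b₀, hε, hε1, hεe, hb₀, hbE, hεb⟩ := par (1 + aw) R k C (C * (2 ^ k + 1))
    (by linarith) hR (min ζ (τ - υ)) δ (lt_min hζ (by linarith)) hδ0
  have hεζ : ε₁ ≤ ζ := hε1.trans (min_le_left _ _)
  have hετ : ε₁ ≤ τ - υ := hε1.trans (min_le_right _ _)
  have hε11 : ε₁ ≤ 1 := hεe.trans (e0_le k (1 + aw) R).2
  obtain ⟨η, hη, HL⟩ := HL ε₁ hε hεζ hετ
  obtain ⟨cV, hcV, hVlow⟩ := V_low (2 ^ k)
  obtain ⟨CC, hCC, HA⟩ := hA3 k (1 + aw) R f0 τ (by linarith) hR hf0 m hτ hτ0 hk ε₁ hε hεe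
  have hAb := Ab_one k ε₁ hε hε11
  have hom := om_bd k (1 + aw) ε₁ (by linarith) hε hε11
  obtain ⟨c', hc'⟩ : ∃ c' : ℕ, ((2 ^ k : ℕ) : ℝ) * (Dd / ε₁) ≤ c' := exists_nat_ge _
  -- the modulus
  obtain ⟨W, hW⟩ : ∃ W : ℕ, W = ∏ p ∈ (range (C * (2 ^ k + 1) + 1)).filter (fun p => p.Prime ∧ ¬ p ∣ B), p :=
    ⟨_, rfl⟩
  have hW0 : 0 < W := by
    rw [hW]
    exact prod_pos fun p hp => (mem_filter.1 hp).2.1.pos
  have hWB : W.Coprime B := by
    rw [hW]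
    apply Nat.Coprime.prod_left
    intro p hp
    exact ((mem_filter.1 hp).2.1.coprime_iff_not_dvd).2 (mem_filter.1 hp).2.2
  have hWp : ∀ p : ℕ, p.Prime → p ≤ C * (2 ^ k + 1) → p ∣ B * W := by
    intro p hp hpC
    by_cases hpB : p ∣ B
    · exact hpB.mul_right _
    · apply Dvd.dvd.mul_left
      rw [hW]
      exact dvd_prod_of_mem (fun p => p) (mem_filter.2 ⟨mem_range.2 (by omega), hp, hpB⟩)
  obtain ⟨E1, hE1⟩ : ∃ E1 : ℕ, E1 = 2 + 2 ^ k * (2 ^ k * Dd) := ⟨_, rfl⟩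
  obtain ⟨A2, hA2⟩ : ∃ A2 : ℕ, A2 = 2 * 2 ^ k := ⟨_, rfl⟩
  obtain ⟨B0, hB0⟩ : ∃ B0 : ℝ, B0 = (Ab k ε₁ * 2 ^ c') ^ 2 := ⟨_, rfl⟩
  have hB00 : 0 ≤ B0 := by rw [hB0]; positivity
  obtain ⟨Y1, hY1⟩ := hB1b E1 ε₁ υ η hε hυ1 hη
  obtain ⟨Y2, hY2⟩ := hB1c E1 ε₁ υ R (om k (1 + aw) ε₁) hε (by linarith) hυ1 hom.1
  obtain ⟨Y3, hY3⟩ := exJ ε₁ hε
  obtain ⟨Y4, hY4⟩ := nums B W (A2 + 2) 0 ε₁ δ cV (3 ^ A2 / cV)
    ((B0 * 2 ^ k * (1 + E1 / ε₁ * (2 ^ k * 2)) + 5 * CC) * W * 3 ^ A2 / (2 * cV)) hε hδ0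
  refine ⟨k, W, A2 + 2, ε₁, max (max Y1 Y2) (max Y3 Y4), hW0, hε, hεζ, ?_⟩
  intro Y hY a h haB hinj hhY hhW S w X ρ hX hw hρ hLD hav hv Bad hBad
  by_contra hcon
  push Not at hcon
  obtain ⟨n1, n2, n3, n4, n5, n6, n7, n8, n9⟩ := hY4 Y (((le_max_right _ _).trans (le_max_right _ _)).trans hY)
  have hY2' : 2 ≤ Y := by omega
  have hYr : (3 : ℝ) ≤ Y := by exact_mod_cast n1
  have hYr0 : (0 : ℝ) < Y := by linarith
  have hYr1 : (1 : ℝ) ≤ Y := by linarith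
  obtain ⟨D, hD⟩ : ∃ D : ℕ, D = Dh B W h := ⟨_, rfl⟩
  have hD0 : 0 < D := by rw [hD]; exact Dh_pos hB hW0 hinj
  have hDle : D ≤ Y ^ E1 := by rw [hD, hE1]; exact Dh_le n2 n3 hhY (by omega)
  have hMer := hY1 Y (((le_max_left _ _).trans (le_max_left _ _)).trans hY) D hD0 hDle
  have hd := hY2 Y (((le_max_right _ _).trans (le_max_left _ _)).trans hY) D hD0 hDle
  obtain ⟨J, hJ1, hJ2⟩ := hY3 Y (((le_max_left _ _).trans (le_max_right _ _)).trans hY)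
  obtain ⟨z, hz⟩ : ∃ z : ℕ, z + 1 = ⌈(Y : ℝ) ^ ε₁⌉₊ := by
    have : 1 ≤ ⌈(Y : ℝ) ^ ε₁⌉₊ := Nat.ceil_pos.2 (by positivity)
    exact ⟨⌈(Y : ℝ) ^ ε₁⌉₊ - 1, by omega⟩
  have hz1 : (z : ℝ) < (Y : ℝ) ^ ε₁ := by
    have h1 := Nat.ceil_lt_add_one (show 0 ≤ (Y : ℝ) ^ ε₁ by positivity)
    rw [← hz] at h1
    push_cast at h1
    linarith
  have hz2 : (Y : ℝ) ^ ε₁ ≤ z + 1 := by
    have h1 := Nat.le_ceil ((Y : ℝ) ^ ε₁)
    rw [← hz] at h1
    push_cast at h1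
    exact h1
  have hzJ : z < 2 ^ 2 ^ J := by
    have : (z : ℝ) < 2 ^ 2 ^ J := hz1.trans_le hJ1
    exact_mod_cast this
  -- the primes
  have hPgD : ∀ s : Pg (GD D) Y ε₁ υ, ¬ (s : ℕ) ∣ D := by
    intro s hs
    obtain ⟨g1, -, -, -, g5⟩ := Pg_mem (GD D) Y ε₁ υ hY2' s
    rw [hB1a D s g1, if_pos hs] at g5
    exact g5 rfl
  have hrt : ∀ s : Pg (GD D) Y ε₁ υ, rt (GD D) (s : ℕ) = 1 := by
    intro s
    rw [hB1a D s (Pg_mem (GD D) Y ε₁ υ hY2' s).1, if_neg (hPgD s)]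
  have hPgD' : ∀ s : Pg (GD D) Y ε₁ υ, ¬ (s : ℕ) ∣ Dh B W h := by
    intro s h
    exact hPgD s (h.trans (dvd_of_eq hD.symm))
  have hPBW : ∀ s : Pg (GD D) Y ε₁ υ, ¬ (s : ℕ) ∣ B * W := fun s => (Dh_mod (hPgD' s)).1
  have hPh : ∀ (s : Pg (GD D) Y ε₁ υ) i j, i ≠ j → ¬ h i ≡ h j [MOD (s : ℕ)] :=
    fun s => (Dh_mod (hPgD' s)).2
  have hPa : ∀ s : Pg (GD D) Y ε₁ υ, ¬ (s : ℕ) ∣ a := fun s hs =>
    hPBW s ((haB s (Pg_mem (GD D) Y ε₁ υ hY2' s).1 hs).mul_right _)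
  have hprp : ∀ p ∈ pr Y ε₁ υ, p.Prime ∧ (Y : ℝ) ^ ε₁ ≤ p ∧ (p : ℝ) ≤ (Y : ℝ) ^ θ := by
    intro p hp
    unfold pr at hp
    rw [mem_filter] at hp
    obtain ⟨-, g1, g2, g3⟩ := hp
    have hlY : 0 < Real.log Y := Real.log_pos (by linarith)
    have hp0 : (0 : ℝ) < p := by exact_mod_cast g1.pos
    unfold tt at g2 g3
    refine ⟨g1, ?_, ?_⟩
    · rw [le_div_iff₀ hlY, ← Real.log_rpow hYr0] at g2
      exact (Real.log_le_log_iff (by positivity) hp0).1 g2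
    · rw [div_lt_iff₀ hlY, ← Real.log_rpow hYr0] at g3
      have g4 := (Real.log_lt_log_iff hp0 (by positivity)).1 g3
      exact g4.le.trans (Real.rpow_le_rpow_of_exponent_le hYr1 (by linarith))
  have hmem : ∀ p ∈ pr Y ε₁ υ, ¬ p ∣ D → p ∈ Pg (GD D) Y ε₁ υ := by
    intro p hp hpD
    unfold Pg
    rw [mem_filter]
    refine ⟨hp, ?_⟩
    rw [hB1a D p (hprp p hp).1, if_neg hpD]
    exact one_ne_zero
  -- the residue class
  have haW : a.Coprime W := by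
    rw [Nat.coprime_iff_gcd_eq_one]
    by_contra hg
    obtain ⟨p, hp, hpd⟩ := Nat.exists_prime_and_dvd hg
    have g1 : p ∣ a := hpd.trans (Nat.gcd_dvd_left _ _)
    have g2 : p ∣ W := hpd.trans (Nat.gcd_dvd_right _ _)
    have g3 := Nat.dvd_gcd g2 (haB p hp g1)
    rw [hWB] at g3
    exact hp.one_lt.ne' (Nat.dvd_one.1 g3)
  obtain ⟨i₀⟩ : Nonempty (Fin (2 ^ k)) := ⟨⟨0, by positivity⟩⟩
  obtain ⟨c, hc⟩ := ex_class a (h i₀) W hW0 haW
  have hac : ∀ i, a * c + h i ≡ 1 [MOD W] := fun i => ((hhW i i₀).add_left _).trans hc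
  -- the colouring
  have hξ : ∀ v (s : Pg (GD D) Y ε₁ υ) j,
      xi (fun s : Pg (GD D) Y ε₁ υ => (s : ℕ)) a h v s = some j ↔ (s : ℕ) ∣ a * v + h j := by
    have := (hB4 (2 ^ k) (Pg (GD D) Y ε₁ υ) (fun s => (s : ℕ))
      (fun s => (Pg_mem (GD D) Y ε₁ υ hY2' s).1) Subtype.val_injective a h hPa hPh).1
    exact this
  have hC' := hC (2 ^ k) b₀ (B * W) hb₀ (Nat.mul_pos hB hW0) hWp a h S w X ρ B (dvd_mul_right _ _) hX.le hw hρ
    (fun p hp hpB hpa => hpB ((haB p hp hpa).mul_right _)) hLD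
  -- the sieve product
  obtain ⟨V, hV⟩ : ∃ V : ℝ, V = VK a h (B * W) z := ⟨_, rfl⟩
  have hVl : cV * (1 / 2 ^ J) ^ A2 ≤ V := by
    have hPSm : ∀ p ∈ PS (B * W) z, p.Prime ∧ p ≤ z ∧ ¬ p ∣ B * W := by
      intro p hp
      unfold PS at hp
      rw [mem_filter, mem_Icc] at hp
      exact ⟨hp.2.1, hp.1.2, hp.2.2⟩
    have hcd : ∀ p ∈ PS (B * W) z, ((range p).filter (fun x => ∃ i, p ∣ a * x + h i)).card ≤ 2 ^ k := by
      intro p hp
      obtain ⟨g1, g2, g3⟩ := hPSm p hp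
      exact card_slots a h p g1 (fun hpa => g3 ((haB p g1 hpa).mul_right _))
    have := hVlow J (PS (B * W) z) (fun p => (((range p).filter (fun x => ∃ i, p ∣ a * x + h i)).card : ℝ))
      (fun p hp => ⟨(hPSm p hp).1, (hPSm p hp).2.1.trans_lt hzJ⟩)
      (fun p hp => by exact_mod_cast hcd p hp)
      (fun p hp => by
        obtain ⟨g1, g2, g3⟩ := hPSm p hp
        have g4 := hcd p hp
        have g5 : C * (2 ^ k + 1) < p := by
          by_contra hcon2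
          exact g3 (hWp p g1 (not_lt.1 hcon2))
        have g6 : 2 ^ k + 1 ≤ C * (2 ^ k + 1) := Nat.le_mul_of_pos_left _ (by omega)
        have g7 : ((range p).filter (fun x => ∃ i, p ∣ a * x + h i)).card + 1 ≤ p := by omega
        have g8 : ((((range p).filter (fun x => ∃ i, p ∣ a * x + h i)).card : ℕ) : ℝ) + 1 ≤ p := by
          exact_mod_cast g7
        linarith)
    rw [hV, hA2]
    exact this
  obtain ⟨hV2, -⟩ := num1 Y J A2 ε₁ cV V n1 hε11 hcV hJ2 hVl n8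
  have hlg0 : 0 < Real.log Y := by linarith
  have hV0 : 0 < V := lt_of_lt_of_le (by positivity) hV2
  have hJlog : (2 : ℝ) ^ J ≤ 3 * Real.log Y := by
    have h1 := Real.log_le_log (by positivity) hJ2
    rw [Real.log_pow, Real.log_rpow hYr0] at h1
    push_cast at h1
    have h2 : 0.69 < Real.log 2 := by linarith [Real.log_two_gt_d9]
    have h3 : (0 : ℝ) < 2 ^ J := by positivity
    have h4 : 2 * ε₁ * Real.log Y ≤ 2 * 1 * Real.log Y := by gcongr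
    nlinarith
  have hJle : (J : ℝ) ≤ 3 * Real.log Y := by
    refine le_trans ?_ hJlog
    have : J ≤ 2 ^ J := Nat.lt_two_pow_self.le
    exact_mod_cast this
  have hWr : (0 : ℝ) < W := by exact_mod_cast hW0
  -- the weights of the linear sieve
  obtain ⟨cU, cL0, hc1, hc2, hc3, hc4⟩ := HL Y hY2'
  obtain ⟨hc4, -⟩ := hc4 (fun p => (rt (GD D) p : ℝ) / p) (fun p _ => by positivity) hMer
  have hmain := HA (Pg (GD D) Y ε₁ υ) υ (qs (GD D) Y ε₁ υ) (mus (GD D) Y ε₁ υ) (ls (GD D) Y ε₁ υ) hd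
    (fun T => cL0 (T.map (Function.Embedding.subtype _))) (fun T => (hc1 _).2)
    (fun T hT => lz_le (GD D) Y ε₁ υ hY2' T τ (hc2 _ (by
      intro p hp
      rw [Finset.mem_map] at hp
      obtain ⟨s, _, rfl⟩ := hp
      exact (mem_filter.1 s.2).1) (Or.inr hT)))
    S (nuw a h w W c (B * W) z) (xi (fun s : Pg (GD D) Y ε₁ υ => (s : ℕ)) a h)
    (X / W * V) (ε₁ * f0) ((1 / 2 : ℝ) ^ b₀)
    (fun T => ((J : ℝ) + 2) * ∑ F ∈ (PS (B * W) z).powerset.filter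
            (fun F : Finset ℕ => ∏ p ∈ F, p ≤ (2 ^ 2 ^ J) ^ (C * b₀)),
            ((2 ^ k : ℕ) : ℝ) ^ F.card *
              ρ (W * DT (fun s : Pg (GD D) Y ε₁ υ => (s : ℕ)) T * ∏ p ∈ F, p))
    (by positivity)
    (by
      refine hc4.trans (le_of_eq ?_)
      rw [VV_restrict (pr Y ε₁ υ) (Pg (GD D) Y ε₁ υ) (filter_subset _ _) cL0
        (fun p => (rt (GD D) p : ℝ) / p) (fun p hp hp' => by
          have h0 : rt (GD D) p = 0 := by
            by_contra h1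
            exact hp' (mem_filter.2 ⟨hp, h1⟩)
          rw [h0]
          simp)]
      refine sum_congr rfl fun T _ => ?_
      congr 1
      refine prod_congr rfl fun s _ => ?_
      unfold qs
      rw [one_div, inv_div])
    (fun s => by
      have h1 := hd.q2 s
      unfold mus
      apply one_div_le_one_div_of_le (by linarith)
      linarith)
    (by rw [mul_comm]) (by positivity)
    (by
      refine le_trans ?_ hbE
      have : (0 : ℝ) ≤ (1 / 2 : ℝ) ^ b₀ := by positivity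
      linarith)
    (fun T => by
      apply mul_nonneg (by positivity)
      exact sum_nonneg fun F _ => mul_nonneg (by positivity) (hρ _))
    (fun T _ => by
      have := cntw C k b₀ B W hB4 h a c z J Y D ε₁ υ S w X ρ hY2' hW0 hWB hC' hz1 hzJ.le hPBW hPa hPh hrt T
      rw [← hV] at this
      convert this)
    (fun n hn => by
      unfold nuw
      split_ifs
      · exact hw n hn
      · exact le_rfl)
    (fun v i => WB Y ε₁ ζ υ aw bw (Nx i (xi (fun s : Pg (GD D) Y ε₁ υ => (s : ℕ)) a h v)))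
    (fun v _ _ i => by
      have h1 := slot2 hY2' cL0 i (xi (fun s : Pg (GD D) Y ε₁ υ => (s : ℕ)) a h v)
      have h2 := (hc3 (Nx i (xi (fun s : Pg (GD D) Y ε₁ υ => (s : ℕ)) a h v))).1
      refine le_trans (le_of_eq ?_) h2
      refine Eq.trans ?_ h1
      refine sum_congr rfl fun T _ => ?_
      congr)
    (fun v _ _ i hwv s hs => by
      have h1 : (s : ℕ) ∣ Nx i (xi (fun s : Pg (GD D) Y ε₁ υ => (s : ℕ)) a h v) := by
        rw [dvd_Nx hY2' i _ (s : ℕ) (Pg_mem (GD D) Y ε₁ υ hY2' s).1]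
        exact ⟨s, rfl, hs⟩
      have h2 := WB_ne Y ε₁ ζ υ aw bw _ hwv (s : ℕ) ((mem_filter.1 s.2).1) h1
      show R < tt Y (s : ℕ)
      linarith)
  have hIf : 1 ≤ If (mus (GD D) Y ε₁ υ) (ls (GD D) Y ε₁ υ) R k := one_le_pow₀ (I2_one hd hε hR k)
  -- the upper bound
  have hup := sum_le_sum (s := S) fun v hvS =>
    ptw k B W a c z Y D m ε₁ ζ υ aw bw B0
      (Lam none (qs (GD D) Y ε₁ υ) (mus (GD D) Y ε₁ υ) (yf (ls (GD D) Y ε₁ υ) R k)
        (xi (fun s : Pg (GD D) Y ε₁ υ => (s : ℕ)) a h v) ^ 2) h w v hY2' hεζ hζυ hb hab (hw v hvS) (hξ v) hac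
      (fun i => (hv v hvS i).2.2) hz2 (sq_nonneg _)
      (by
        rw [hB0]
        exact Lam_fin k (1 + aw) R hR ε₁ hε υ (hεζ.trans hζυ) (qs (GD D) Y ε₁ υ) (mus (GD D) Y ε₁ υ)
          (ls (GD D) Y ε₁ υ) _ hd _ c' (few2 hY2' hε (fun i => a * v + h i) Dd c'
            (fun i => (hv v hvS i).1) (fun i => (hv v hvS i).2.1) (by exact_mod_cast hc') _
            (fun s j hs => (hξ v s j).1 hs)))
      hmem (Bad v)
      (fun g1 g2 g3 I g4 => by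
        obtain ⟨i, hi, hi2⟩ := hcon v hvS g1 g2 g3 I g4
        exact ⟨i, hi, not_lt.2 hi2⟩)
  rw [← mul_sum] at hup
  -- the average
  obtain ⟨E, hE⟩ : ∃ E : ℝ, E = X / Real.log Y ^ (A2 + 2) := ⟨_, rfl⟩
  rw [← hE] at hav hBad
  have hθ0 : 0 < θ := by linarith
  have hbs := bad_sum (2 ^ k) a B (A2 + 2) D Y ε₁ υ h S w X θ ρ hX.le hw hLD Bad E (by convert hBad)
    (fun p hp => by
      rw [mem_filter] at hp
      obtain ⟨hp1, hp2⟩ := hp
      obtain ⟨g1, g2, g3⟩ := hprp p hp1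
      have g4 : ((B * W : ℕ) : ℝ) + 1 < p := n4.trans_le g2
      have g5 : B * W + 1 < p := by exact_mod_cast g4
      have g6 : ¬ p ∣ B * W := fun h1 => by
        have := Nat.le_of_dvd (Nat.mul_pos hB hW0) h1
        omega
      have g7 : p.Coprime B := (g1.coprime_iff_not_dvd).2 (fun h1 => g6 (h1.mul_right _))
      refine ⟨g1, fun h1 => g6 ((haB p g1 h1).mul_right _), g7, ?_, ?_⟩
      · rw [hE]
        apply div_le_div_of_nonneg_left hX.le (by positivity)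
        exact n6.trans g2
      · refine le_trans ?_ hav
        have g8 : p ∈ (Icc 1 ⌊(Y : ℝ) ^ θ⌋₊).filter (fun q => q.Coprime B) := by
          rw [mem_filter, mem_Icc]
          exact ⟨⟨g1.one_lt.le, Nat.le_floor g3⟩, g7⟩
        refine le_trans ?_ (single_le_sum (f := fun q : ℕ => (q.divisors.card : ℝ) ^ k * ρ q)
          (fun q _ => mul_nonneg (by positivity) (hρ q)) g8)
        have g9 : (1 : ℝ) ≤ (p.divisors.card : ℝ) ^ k := by
          apply one_le_pow₀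
          have : 0 < p.divisors.card := card_pos.2 ⟨1, Nat.one_mem_divisors.2 g1.ne_zero⟩
          exact_mod_cast this
        calc ρ p = 1 * ρ p := (one_mul _).symm
          _ ≤ (p.divisors.card : ℝ) ^ k * ρ p := mul_le_mul_of_nonneg_right g9 (hρ p))
  have hrem := hB3 k (Pg (GD D) Y ε₁ υ) (fun s => (s : ℕ)) (fun s => (Pg_mem (GD D) Y ε₁ υ hY2' s).1)
    Subtype.val_injective (PS (B * W) z)
    (fun p hp => by
      unfold PS at hp
      exact (mem_filter.1 hp).2.1)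
    (fun s hs => by
      unfold PS at hs
      rw [mem_filter, mem_Icc] at hs
      have g1 := (Pg_mem (GD D) Y ε₁ υ hY2' s).2.1
      have g2 : (z : ℝ) < (s : ℕ) := hz1.trans_le g1
      have g3 : z < (s : ℕ) := by exact_mod_cast g2
      have g4 := hs.1.2
      omega)
    W B ⌊(Y : ℝ) ^ θ⌋₊ hW0 hWB
    (fun s => ((Pg_mem (GD D) Y ε₁ υ hY2' s).1.coprime_iff_not_dvd).2 (fun h1 => hPBW s (h1.mul_right _)))
    (fun s h1 => hPBW s (h1.mul_left _))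
    (fun p hp => by
      unfold PS at hp
      rw [mem_filter, mem_Icc] at hp
      exact ⟨fun h1 => hp.2.2 (h1.mul_left _),
        (hp.2.1.coprime_iff_not_dvd).2 (fun h1 => hp.2.2 (h1.mul_right _))⟩)
    ρ hρ (univ.filter (fun T => lt (ls (GD D) Y ε₁ υ) T ≤ 2 * R + τ))
    ((PS (B * W) z).powerset.filter (fun F : Finset ℕ => ∏ p ∈ F, p ≤ (2 ^ 2 ^ J) ^ (C * b₀)))
    (fun T hT => mem_powerset.1 (mem_filter.1 hT).1)
    (fun T hT F hF => by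
      apply Nat.le_floor
      push_cast
      have g1 := DT_rpow (GD D) Y ε₁ υ hY2' T
      rw [g1]
      have g2 : ((∏ p ∈ F, p : ℕ) : ℝ) ≤ ((2 : ℝ) ^ 2 ^ J) ^ (C * b₀) := by
        exact_mod_cast (mem_filter.1 hF).2
      push_cast at g2
      have g3 : ((2 : ℝ) ^ 2 ^ J) ^ (C * b₀) ≤ (Y : ℝ) ^ δ := by
        calc ((2 : ℝ) ^ 2 ^ J) ^ (C * b₀) ≤ ((Y : ℝ) ^ (2 * ε₁)) ^ (C * b₀) :=
              pow_le_pow_left₀ (by positivity) hJ2 _
          _ = (Y : ℝ) ^ (2 * ε₁ * (C * b₀)) := by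
              rw [← Real.rpow_natCast, ← Real.rpow_mul hYr0.le]
              push_cast
              ring_nf
          _ ≤ _ := Real.rpow_le_rpow_of_exponent_le hYr1 hεb
      have g4 : (Y : ℝ) ^ lt (ls (GD D) Y ε₁ υ) T ≤ (Y : ℝ) ^ (2 * R + τ) :=
        Real.rpow_le_rpow_of_exponent_le hYr1 (mem_filter.1 hT).2
      have g5 : (Y : ℝ) ^ θ = (Y : ℝ) ^ δ * (Y : ℝ) ^ (2 * R + τ) * (Y : ℝ) ^ δ := by
        rw [← Real.rpow_add hYr0, ← Real.rpow_add hYr0]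
        congr 1
        rw [hδ]
        ring
      rw [g5]
      have g6 : (0 : ℝ) ≤ ∏ p ∈ F, (p : ℝ) := prod_nonneg fun p _ => Nat.cast_nonneg p
      have g7 := g2.trans g3
      gcongr)
  have hJ0' : (0 : ℝ) ≤ (J : ℝ) + 2 := by positivity
  have hrem2 := mul_le_mul_of_nonneg_left (hrem.trans hav) hJ0'
  rw [mul_sum] at hrem2
  have hbc := bad_card (Y := Y) (ε₁ := ε₁) (υ := υ) hY2' hε D E1 hD0 hDle
  have h2k : (0 : ℝ) ≤ 2 ^ k := by positivity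
  have hbs2 := mul_le_mul_of_nonneg_left hbs (show 0 ≤ B0 * 2 ^ k by positivity)
  have hCr := mul_le_mul_of_nonneg_left hrem2 hCC.le
  refine fin_num A2 X W (Real.log Y) cV V B0 (2 ^ k) E1 ε₁ CC J
    (((pr Y ε₁ υ).filter (fun p => p ∣ D)).card : ℝ) (If (mus (GD D) Y ε₁ υ) (ls (GD D) Y ε₁ υ) R k) 0
    hX hWr n7 hcV hV2 hB00 h2k (Nat.cast_nonneg _) hε hCC hJle hbc hIf ?_ n9
  rw [← hE]
  push_cast at hbs2
  have hfin := hmain.trans (add_le_add (hup.trans hbs2) hCr)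
  exact hfin

end Pool.Agent.K3h54.PC
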