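import Pool.Agent.K3h54.PC.Stm

/-!
# PC brick P1: the error terms are small on average

Adaptation of `Pool.Agent.R471.PP.er_sumK` to palindromes with digits `i + j`.
-/

set_option autoImplicit false

namespace Pool.Agent.K3h54.PC.P1

open Finset Filter Topology Pool.Agent.Helper112
open Pool.Agent.W89.PW
open Pool.Agent.W261.PWBV (U U_nonneg)
open Pool.Agent.R471.PP (U_sumK doubleK tau_pow_sum)

/-- the sum of the error terms -/
theorem er2_sumK (w : ℕ) {b s t : ℕ} (hb : 2 ≤ b) (hs : 1 ≤ s) (ht : 1 ≤ t) (hP : PtW b s t) {κ : ℝ}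
    (hκ0 : 0 < κ) (hκ1 : κ < 1) (hB : BigW b s t κ) (A : ℕ) : ∀ᶠ L : ℕ in atTop,
    ∑ q ∈ (Icc 1 ⌊(b : ℝ) ^ (κ * L)⌋₊).filter (fun q => q.Coprime (2 * b)),
      (q.divisors.card : ℝ) ^ w * er2 b s t L q ≤ ((s : ℝ) * t) ^ L / (L : ℝ) ^ A := by
  have hb0 : 0 < b := by omega
  have hbr : (0 : ℝ) < b := by exact_mod_cast hb0
  have hb1 : (1 : ℝ) ≤ b := by exact_mod_cast hb0
  filter_upwards [U_sumK w b s t (by omega) hP κ hκ0 hκ1 hB (A + 2 ^ w + 1),
    eventually_ge_atTop ((b + 1) ^ 2 ^ w)] with L hL hLb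
  set D := ⌊(b : ℝ) ^ (κ * L)⌋₊ with hD
  have hLb' : ((b : ℝ) + 1) ^ 2 ^ w ≤ L := by exact_mod_cast hLb
  have hL1 : (1 : ℝ) ≤ L := by
    have : (1 : ℝ) ≤ ((b : ℝ) + 1) ^ 2 ^ w := one_le_pow₀ (by linarith)
    linarith
  have hL0 : (0 : ℝ) < L := by linarith
  have h2 := doubleK w b s t L D
  have h3 := tau_pow_sum w D
  have hlog : 1 + Real.log D ≤ (b + 1) * L := by
    rcases Nat.eq_zero_or_pos D with h0 | h0
    · rw [h0]
      simp only [Nat.cast_zero, Real.log_zero, add_zero]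
      nlinarith
    · have hDle : (D : ℝ) ≤ (b : ℝ) ^ (κ * L) := Nat.floor_le (by positivity)
      have hDle2 : (D : ℝ) ≤ (b : ℝ) ^ ((1 : ℝ) * L) := by
        refine hDle.trans (Real.rpow_le_rpow_of_exponent_le hb1 ?_)
        exact mul_le_mul_of_nonneg_right hκ1.le hL0.le
      have h4 : Real.log D ≤ (1 * L) * Real.log b := by
        rw [← Real.log_rpow hbr]
        exact Real.log_le_log (by exact_mod_cast h0) hDle2
      have h5 : Real.log b ≤ b - 1 := Real.log_le_sub_one_of_pos hbr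
      have h6 : (1 * L) * Real.log b ≤ (1 * L) * ((b : ℝ) - 1) :=
        mul_le_mul_of_nonneg_left h5 (by positivity)
      nlinarith [mul_pos hbr hL0]
  have hlog0 : 0 ≤ 1 + Real.log D := by
    have := Real.log_natCast_nonneg D
    linarith
  have h4 : ∑ e ∈ Icc 1 D, (e.divisors.card : ℝ) ^ w / e ≤ ((b : ℝ) + 1) ^ 2 ^ w * (L : ℝ) ^ 2 ^ w := by
    refine h3.trans ?_
    calc (1 + Real.log D) ^ 2 ^ w ≤ (((b : ℝ) + 1) * (L : ℝ)) ^ 2 ^ w := by gcongr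
      _ = ((b : ℝ) + 1) ^ 2 ^ w * (L : ℝ) ^ 2 ^ w := by rw [mul_pow]
  refine (show _ = _ from rfl).trans_le (h2.trans ?_)
  have hS0 : 0 ≤ ∑ e ∈ Icc 1 D, (e.divisors.card : ℝ) ^ w / e :=
    sum_nonneg fun _ _ => by positivity
  calc ((s : ℝ) * t) ^ L * ((∑ d ∈ (Icc 2 D).filter (fun q => q.Coprime (2 * b)),
      (d.divisors.card : ℝ) ^ w * U b s t L d / d) *
        ∑ e ∈ Icc 1 D, (e.divisors.card : ℝ) ^ w / e)
      ≤ ((s : ℝ) * t) ^ L * ((1 / (L : ℝ) ^ (A + 2 ^ w + 1)) * (((b : ℝ) + 1) ^ 2 ^ w * (L : ℝ) ^ 2 ^ w)) :=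
        mul_le_mul_of_nonneg_left (mul_le_mul hL h4 hS0 (by positivity)) (by positivity)
    _ ≤ ((s : ℝ) * t) ^ L / (L : ℝ) ^ A := by
        generalize ((b : ℝ) + 1) ^ 2 ^ w = B at hLb'
        have h5 : (1 / (L : ℝ) ^ (A + 2 ^ w + 1)) * (B * (L : ℝ) ^ 2 ^ w) = B / L * (1 / (L : ℝ) ^ A) := by
          have hy : ((L : ℝ) ^ A) ≠ 0 := by positivity
          have hz : ((L : ℝ) ^ 2 ^ w) ≠ 0 := by positivity
          have hx : (L : ℝ) ≠ 0 := hL0.ne'
          rw [pow_succ, pow_add]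
          generalize (L : ℝ) ^ A = y at hy
          generalize (L : ℝ) ^ 2 ^ w = z at hz
          generalize (L : ℝ) = x at hx
          field_simp
        rw [h5]
        have h6 : B / (L : ℝ) ≤ 1 := by rw [div_le_one hL0]; exact hLb'
        have h7 : (0 : ℝ) < 1 / (L : ℝ) ^ A := by positivity
        calc ((s : ℝ) * t) ^ L * (B / L * (1 / (L : ℝ) ^ A))
            ≤ ((s : ℝ) * t) ^ L * (1 * (1 / (L : ℝ) ^ A)) := by gcongr
          _ = _ := by ring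

theorem main : StP1 := by
  intro w b s t hb hs ht hP κ hκ0 hκ1 hB A
  exact er2_sumK w hb hs ht hP hκ0 hκ1 hB A

end Pool.Agent.K3h54.PC.P1
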