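import Pool.Agent.K3h54.PC.Stm

/-!
# PC brick P3: the numerical parameters
-/

set_option autoImplicit false

namespace Pool.Agent.K3h54.PC.P3

open Finset Filter Topology
open Pool.Agent.W89.PW
open Pool.Agent.W139.PX
open Pool.Agent.W139.PW (majOK_pair)


theorem main : StP3 := by
  intro b hb
  rcases Nat.lt_or_ge b 3 with h2 | h3
  · obtain rfl : b = 2 := by omega
    obtain ⟨H, hH⟩ : ∃ H : ℝ, H = Real.sqrt (1 / 2) := ⟨_, rfl⟩
    have hH0 : 0 < H := by rw [hH]; exact Real.sqrt_pos.2 (by norm_num)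
    have hH2 : H ^ 2 = 1 / 2 := by rw [hH]; exact Real.sq_sqrt (by norm_num)
    have hH1 : H ≤ 1 := by nlinarith
    have hHh : 1 / 2 ≤ H := by nlinarith
    have hMaj : MajP 2 2 1 H (1 / H ^ 3) := majP_alt le_rfl (by norm_num) le_rfl le_rfl (by norm_num) hH0 hH1 (by
      rw [hH2]; norm_num)
    have hκ : (((2 : ℕ) : ℝ)) ^ (49 / 100 : ℝ) * H < 1 := by
      rw [hH, Real.sqrt_eq_rpow, one_div, Real.inv_rpow (by norm_num)]
      rw [← div_eq_mul_inv, div_lt_one (by positivity)]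
      push_cast
      exact Real.rpow_lt_rpow_of_exponent_lt (by norm_num) (by norm_num)
    have hm4 : ((2 : ℕ) : ℝ) * m4 2 1 < 1 := by rw [m4_two]; norm_num
    have hHb : 1 ≤ ((2 : ℕ) : ℝ) * H := by push_cast; linarith
    have hCM : 0 < 1 / H ^ 3 := by positivity
    refine ⟨2, 1, H, 1 / H ^ 3, 49 / 100, by norm_num, le_rfl, rfl,
      Pool.Agent.W571.PW.Pt.main 2 2 1 le_rfl le_rfl le_rfl rfl,
      bigW_of_majP le_rfl (by norm_num) le_rfl rfl hm4 hMaj hH0 hHb hCM (by norm_num) hκ, hMaj, hH0, hHb, hCM,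
      hm4, hκ, by norm_num⟩
  · obtain ⟨s, hs⟩ : ∃ s, s = (b + 1) / 2 := ⟨_, rfl⟩
    obtain ⟨t, ht⟩ : ∃ t, t = b + 1 - s := ⟨_, rfl⟩
    have hs2 : 2 ≤ s := by omega
    have ht1 : 1 ≤ t := by omega
    have hsb : s ≤ b := by omega
    have htb : t ≤ b := by omega
    have hst : s + t = b + 1 := by omega
    have hm4 : (b : ℝ) * m4 s t < 1 := by
      have h := Pool.Agent.W22.PWM4.main b h3
      rw [← hs, ← ht] at h
      linarith
    have hH0 : 0 < HH s t := Pool.Agent.W809.PWSqr.HH_pos (by omega)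
    have hH1 : HH s t ≤ 1 := Pool.Agent.W809.PWSqr.HH_le_one (by omega) ht1
    have hbR : (3 : ℝ) ≤ b := by exact_mod_cast h3
    have hHb : 1 ≤ (b : ℝ) * HH s t := by
      have h1 := Pool.Agent.W809.PWSqr.HH_ge (b := b) (s := s) (t := t) (by omega) ht1 hst
      have h4 : (1 : ℝ) ≤ (b : ℝ) * (2 / ((b : ℝ) + 1)) := by
        rw [← mul_div_assoc, le_div_iff₀ (by positivity)]
        linarith
      exact h4.trans (mul_le_mul_of_nonneg_left h1 (by linarith))
    have hMaj : MajP b s t (HH s t) 1 :=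
      majP_of_majOK hb hH0.le hH1 (majOK_pair b s t (by omega) hsb ht1 htb)
    obtain ⟨κ, hκ⟩ : ∃ κ : ℝ, κ = if 9 ≤ b then 183 / 250 else if 3 ≤ b then 63 / 100 else 49 / 100 := ⟨_, rfl⟩
    have hκ1 : 0 < κ ∧ (b : ℝ) ^ κ * HH s t < 1 := by
      rcases lt_or_ge b 9 with h9 | h9
      · rw [if_neg (by omega), if_pos h3] at hκ
        rw [hκ]
        exact ⟨by norm_num, kap3 h3 (by omega) hs ht⟩
      · rw [if_pos h9] at hκ
        rw [hκ]
        exact ⟨by norm_num, kap9 h9 hs ht⟩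
    exact ⟨s, t, HH s t, 1, κ, by omega, ht1, hst, Pool.Agent.W571.PW.Pt.main b s t hb hs2 ht1 hst,
      bigW_of_majP hb (by omega) ht1 hst hm4 hMaj hH0 hHb one_pos hκ1.1 hκ1.2, hMaj, hH0, hHb, one_pos, hm4,
      hκ1.2, hκ⟩

end Pool.Agent.K3h54.PC.P3
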