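import Pool.Agent.K3h54.PC.A1
import Pool.Agent.K3h54.PC.A2
import Pool.Agent.K3h54.PC.A3
import Pool.Agent.K3h54.PC.B1
import Pool.Agent.K3h54.PC.B2
import Pool.Agent.K3h54.PC.B3
import Pool.Agent.K3h54.PC.B4
import Pool.Agent.K3h54.PC.P1
import Pool.Agent.K3h54.PC.P2
import Pool.Agent.K3h54.PC.P3
import Pool.Agent.K3h87.PC.P4
import Pool.Agent.K3h54.PC.MTW4
import Pool.Agent.K3h54.PC.FIN

/-!
# Clusters of almost prime palindromes: the parts put together
-/

set_option autoImplicit false

namespace Pool.Agent.K3h54.PC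

theorem fin : StFin :=
  FIN.main (mtw (A3.main A1.main A2.main) B1.main B2.main B3.main B4.main) P1.main P2.main P3.main
    Pool.Agent.K3h87.PC.main

end Pool.Agent.K3h54.PC
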