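import Pool.Agent.K3h54.PC.A1
import Pool.Agent.K3h54.PC.A2
import Pool.Agent.K3h54.PC.A3
import Pool.Agent.K3h54.PC.B1
import Pool.Agent.K3h54.PC.B2
import Pool.Agent.K3h54.PC.B3
import Pool.Agent.K3h54.PC.B4
import Pool.Agent.K3h54.PC.P1
import Pool.Agent.K3h54.PC.P2
import Pool.Agent.K3h87.PC.P4
import Pool.Agent.K3h54.PC.MTW4
import Pool.Agent.K3h54.PC.FINQ
import Pool.Agent.K3h54.PM.G8
import Pool.Agent.K3h54.PM.G9

/-!
# Clusters of almost prime palindromes, outer digits, with a lower bound for the number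
-/

set_option autoImplicit false

namespace Pool.Agent.K3h54.PC

/-- the theorem of Maynard and Tao for almost primes in a weighted set -/
theorem mtwFin : StMTW := mtw (A3.main A1.main A2.main) B1.main B2.main B3.main B4.main

theorem finQ : StFinQ :=
  FINQ.main mtwFin P1.main P2.main Pool.Agent.K3h87.PC.main Pool.Agent.K3h54.PM.G8.main
    Pool.Agent.K3h54.PM.G9.main

end Pool.Agent.K3h54.PC
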