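import Pool.Agent.R498.MT.Core
import Pool.Agent.Y816.PS.A
import Pool.Agent.R471.PP.Lev
import Pool.Agent.W139.PX.E3

/-!
# Clusters of almost prime palindromes: the statements of the parts
-/

set_option autoImplicit false
set_option linter.unusedSectionVars false

namespace Pool.Agent.K3h54.PC

open Finset Filter
open Pool.Agent.R498.MT
open Pool.Agent.Y677.RSZ (rt)
open Pool.Agent.TH423.SH (PS)
open Pool.Agent.W23.DC (Mer pr tt)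
open Pool.Agent.Y882.KW (WB WW)
open Pool.Agent.W89.PW (pv PtW BigW m4)
open Pool.Agent.W261.PWBV (U)
open Pool.Agent.W139.PX (MajP)

/-- number of coloured places -/
def nc {S J : Type} [Fintype S] [DecidableEq S] [DecidableEq J] (U : S → Option J) : ℕ :=
  (univ.filter (fun t => U t ≠ none)).card

/-- (A1) Möbius inversion for the colourings.
Proof: `κ x = ∑ V, g V * ∏ t, c (V t) (x t)` with `c none none = 1`, `c none (some j) = 0`, `c (some j) none = -1`,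
`c (some j) (some i) = if i = j then 1 else 0`; then `∑ x, c v x * [u = none ∨ u = x] = [u = v]`; use `sum_prod`. -/
def StA1 : Prop := ∀ (S J : Type) [Fintype S] [DecidableEq S] [Fintype J] [DecidableEq J]
  (g : (S → Option J) → ℝ), ∃ κ : (S → Option J) → ℝ, ∀ U : S → Option J,
    ∑ x, κ x * (if Sub U x then (1 : ℝ) else 0) = g U

open Classical in
/-- (A2) the effect of an error on the quadratic form. -/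
def StA2 : Prop := ∀ (S J : Type) [Fintype S] [DecidableEq S] [Fintype J] [DecidableEq J]
  (i : Option J) (q μ : S → ℝ), (∀ t, 2 ≤ q t) → (∀ t, 0 ≤ μ t) → (∀ t, μ t * (q t - 1) ≤ 1) →
  ∀ (y : (S → Option J) → ℝ), (∀ σ, |y σ| ≤ 1) → ∀ (T : Finset S), (∀ t ∈ T, i ≠ none) →
  ∀ (κ : (S → Option J) → ℝ) (Good : (S → Option J) → Prop) (Rem : (S → Option J) → ℝ),
  (∀ V, 0 ≤ Rem V) →
  (∀ V, Good V → |∑ x, κ x * (if Sub V x then (1 : ℝ) else 0)| ≤ Rem V) →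
  (∀ σ τ, y σ ≠ 0 → y τ ≠ 0 → ∀ V : S → Option J,
      (∀ t, co (lc2 i (q t) (decide (t ∈ T)) (σ t) (τ t)) (V t) ≠ 0) → Good V) →
  |∑ x, κ x * (Lam i q μ y x ^ 2 * (if ∀ t ∈ T, x t = i then 1 else 0))| ≤
    (∏ t, (1 + (Fintype.card J : ℝ) * μ t) ^ 2) *
      ∑ V ∈ univ.filter (fun V => Good V ∧ ∀ t ∈ T, V t ≠ none), (5 : ℝ) ^ nc V * Rem V

open Classical in
/-- (A3) `R498.MT.asm` with an additional remainder. -/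
def StA3 : Prop := ∀ (k : ℕ) (C₁ R c₀ τ : ℝ), 0 ≤ C₁ → 0 < R → 0 < c₀ → ∀ m : ℕ, τ ≤ 1 → 0 ≤ τ →
  3 * ((m : ℝ) + 1) * 1474560 ≤ c₀ * R * k → ∀ ε₁ : ℝ, 0 < ε₁ → ε₁ ≤ e0 k C₁ R →
  ∃ CC : ℝ, 0 < CC ∧ ∀ (S : Type) [Fintype S] [DecidableEq S] (w : ℝ) (q μ l : S → ℝ),
  Dat q μ l ε₁ R w (om k C₁ ε₁) → ∀ (cL : Finset S → ℝ), (∀ T, |cL T| ≤ C₁) →
  (∀ T, cL T ≠ 0 → lz l T ≤ τ) →
  ∀ (N : Finset ℕ) (ν : ℕ → ℝ) (ξ : ℕ → S → Option (Fin (2 ^ k))) (X V E : ℝ)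
    (Rem : (S → Option (Fin (2 ^ k))) → ℝ),
  0 ≤ X → V ≤ ∑ T, cL T * ∏ t ∈ T, 1 / q t → (∀ t, 1 / q t ≤ μ t) → c₀ * ε₁ ≤ V → 0 ≤ E →
  E ≤ ε₁ ^ (16 * (2 ^ k) ^ 2 + 1) → (∀ T, 0 ≤ Rem T) →
  (∀ T, lt l T ≤ 2 * R + τ →
    |∑ n ∈ N, ν n * (if Sub T (ξ n) then 1 else 0) - X * ∏ t, rr (fun _ => 1 / q t) (T t)| ≤
      E * X * ∏ t, rr (fun _ => 1 / q t) (T t) + Rem T) →
  (∀ n ∈ N, 0 ≤ ν n) → ∀ (wb : ℕ → Fin (2 ^ k) → ℝ),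
  (∀ n ∈ N, ν n ≠ 0 → ∀ i, ∑ T, cL T * (if ∀ t ∈ T, ξ n t = some i then 1 else 0) ≤ wb n i) →
  (∀ n ∈ N, ν n ≠ 0 → ∀ i, wb n i ≠ 0 → ∀ t, ξ n t = some i → R < l t) →
  2 * (X * If μ l R k) ≤
    ∑ n ∈ N, ν n * (Lam none q μ (yf l R k) (ξ n) ^ 2 * (∑ i, wb n i - m)) +
      CC * ∑ T ∈ univ.filter (fun T => lt l T ≤ 2 * R + τ), Rem T

/-- the polynomial `D n + 1`: exactly one root modulo every prime which does not divide `D`, no root modulo the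
divisors of `D` -/
def GD (D : ℕ) : ℤ → ℤ := fun n => (D : ℤ) * n + 1

/-- (B1) Mertens' formula without the prime divisors of a number of polynomial size. -/
def StB1 : Prop := (∀ (D p : ℕ), p.Prime → rt (GD D) p = if p ∣ D then 0 else 1) ∧
  (∀ (C : ℕ) (ε₁ υ η : ℝ), 0 < ε₁ → υ ≤ 1 → 0 < η → ∃ Y0 : ℕ, ∀ Y : ℕ, Y0 ≤ Y → ∀ D : ℕ, 0 < D →
      D ≤ Y ^ C → Mer (pr Y ε₁ υ) (tt Y) (fun p => (rt (GD D) p : ℝ) / p) ε₁ υ η) ∧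
  (∀ (C : ℕ) (ε₁ υ R ω : ℝ), 0 < ε₁ → R ≤ υ → υ ≤ 1 → 0 < ω → ∃ Y0 : ℕ, ∀ Y : ℕ, Y0 ≤ Y →
    ∀ D : ℕ, 0 < D → D ≤ Y ^ C →
      Dat (qs (GD D) Y ε₁ υ) (mus (GD D) Y ε₁ υ) (ls (GD D) Y ε₁ υ) ε₁ R υ ω)

/-- the sieve product of the slots `a v + h i` for the primes up to `z` which do not divide `M` -/
noncomputable def VK {K : ℕ} (a : ℕ) (h : Fin K → ℕ) (M z : ℕ) : ℝ :=
  ∏ p ∈ PS M z, (1 - (((range p).filter (fun x => ∃ i, p ∣ a * x + h i)).card : ℝ) / p)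

open Classical in
/-- (B2) the fundamental lemma for the slots, with an average remainder. -/
def StB2 : Prop := ∃ C : ℕ, 1 ≤ C ∧ ∀ (K b₀ M : ℕ), C * (K + 1) ≤ b₀ → 0 < M →
  (∀ p : ℕ, p.Prime → p ≤ C * (K + 1) → p ∣ M) →
  ∀ (a : ℕ) (h : Fin K → ℕ) (S : Finset ℕ) (w : ℕ → ℝ) (X : ℝ) (ρ : ℕ → ℝ) (B : ℕ), B ∣ M → 0 ≤ X →
  (∀ v ∈ S, 0 ≤ w v) → (∀ q, 0 ≤ ρ q) → (∀ p : ℕ, p.Prime → ¬ p ∣ M → ¬ p ∣ a) →
  (∀ q r : ℕ, 0 < q → q.Coprime B →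
    |∑ v ∈ S.filter (fun v => v ≡ r [MOD q]), w v - X / q| ≤ ρ q) →
  ∀ (D r z J : ℕ), 0 < D → D.Coprime B → (∀ p ∈ PS M z, ¬ p ∣ D) → z ≤ 2 ^ 2 ^ J →
  |∑ v ∈ S.filter (fun v => v ≡ r [MOD D] ∧ ∀ p ∈ PS M z, ∀ i, ¬ p ∣ a * v + h i), w v -
      X / D * VK a h M z| ≤
    (1 / 2 : ℝ) ^ b₀ * (X / D * VK a h M z) +
      ((J : ℝ) + 2) * ∑ T ∈ (PS M z).powerset.filter
        (fun T : Finset ℕ => ∏ p ∈ T, p ≤ (2 ^ 2 ^ J) ^ (C * b₀)),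
        (K : ℝ) ^ T.card * ρ (D * ∏ p ∈ T, p)

/-- (B3) the sum of the remainders over the colourings. -/
def StB3 : Prop := ∀ (k : ℕ) (S : Type) [Fintype S] [DecidableEq S] (pp : S → ℕ),
  (∀ s, (pp s).Prime) → Function.Injective pp → ∀ (P : Finset ℕ), (∀ p ∈ P, p.Prime) →
  (∀ s, pp s ∉ P) → ∀ (W B Q : ℕ), 0 < W → W.Coprime B → (∀ s, (pp s).Coprime B) →
  (∀ s, ¬ pp s ∣ W) → (∀ p ∈ P, ¬ p ∣ W ∧ p.Coprime B) → ∀ (ρ : ℕ → ℝ), (∀ q, 0 ≤ ρ q) →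
  ∀ (FU : Finset (S → Option (Fin (2 ^ k)))) (FT : Finset (Finset ℕ)), (∀ T ∈ FT, T ⊆ P) →
  (∀ V ∈ FU, ∀ T ∈ FT, W * DT pp V * ∏ p ∈ T, p ≤ Q) →
  ∑ V ∈ FU, ∑ T ∈ FT, ((2 ^ k : ℕ) : ℝ) ^ T.card * ρ (W * DT pp V * ∏ p ∈ T, p) ≤
    ∑ q ∈ (Icc 1 Q).filter (fun q => q.Coprime B), (q.divisors.card : ℝ) ^ k * ρ q

open Classical in
/-- the colouring: the slot divisible by the prime -/
noncomputable def xi {K : ℕ} {S : Type} (pp : S → ℕ) (a : ℕ) (h : Fin K → ℕ) (v : ℕ) (s : S) :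
    Option (Fin K) :=
  if H : ∃ j, pp s ∣ a * v + h j then some H.choose else none

/-- (B4) the colouring and the residue classes. -/
def StB4 : Prop := ∀ (K : ℕ) (S : Type) [Fintype S] [DecidableEq S] (pp : S → ℕ),
  (∀ s, (pp s).Prime) → Function.Injective pp → ∀ (a : ℕ) (h : Fin K → ℕ), (∀ s, ¬ pp s ∣ a) →
  (∀ s i j, i ≠ j → ¬ h i ≡ h j [MOD pp s]) →
  (∀ v s j, xi pp a h v s = some j ↔ pp s ∣ a * v + h j) ∧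
  ∀ (V : S → Option (Fin K)) (W c : ℕ), 0 < W → (∀ s, ¬ pp s ∣ W) → ∃ r : ℕ, ∀ v : ℕ,
    (v ≡ c [MOD W] ∧ Sub V (xi pp a h v)) ↔ v ≡ r [MOD W * DT pp V]

open Classical in
/-- (MTW) the theorem of Maynard and Tao for almost primes in a weighted set with an average level of
distribution. -/
def StMTW : Prop := ∀ (m : ℕ) (τ ζ υ aw bw θ R : ℝ), 0 < ζ → 2 * ζ < τ → τ ≤ 4 * ζ → τ ≤ 1 → ζ ≤ υ →
  υ < τ → 0 ≤ aw → 0 ≤ bw → bw * υ ≤ aw →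
  (∫ x in ζ..υ, (aw - bw * x) / (τ - x) / x < Real.log (τ / ζ - 1) / τ) → 0 < R → R < ζ →
  2 * R + τ < θ → ∀ (B Dd : ℕ), 0 < B →
  ∃ (k W A : ℕ) (ε₁ : ℝ) (Y₀ : ℕ), 0 < W ∧ 0 < ε₁ ∧ ε₁ ≤ ζ ∧ ∀ Y : ℕ, Y₀ ≤ Y →
    ∀ (a : ℕ) (h : Fin (2 ^ k) → ℕ), (∀ p : ℕ, p.Prime → p ∣ a → p ∣ B) → Function.Injective h →
    (∀ i, h i ≤ Y ^ Dd) → (∀ i j, h i ≡ h j [MOD W]) →
    ∀ (S : Finset ℕ) (w : ℕ → ℝ) (X : ℝ) (ρ : ℕ → ℝ), 0 < X → (∀ v ∈ S, 0 ≤ w v) →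
    (∀ q, 0 ≤ ρ q) →
    (∀ q r : ℕ, 0 < q → q.Coprime B →
      |∑ v ∈ S.filter (fun v => v ≡ r [MOD q]), w v - X / q| ≤ ρ q) →
    ∑ q ∈ (Icc 1 ⌊(Y : ℝ) ^ θ⌋₊).filter (fun q => q.Coprime B), (q.divisors.card : ℝ) ^ k * ρ q ≤
      X / Real.log Y ^ A →
    (∀ v ∈ S, ∀ i, 0 < a * v + h i ∧ a * v + h i ≤ Y ^ Dd ∧ (a * v + h i).Coprime B) →
    ∀ Bad : ℕ → Prop, ∑ v ∈ S.filter (fun v => Bad v), w v ≤ X / Real.log Y ^ A →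
    ∃ v ∈ S, ¬ Bad v ∧ 0 < w v ∧
      (∀ i, ∀ p : ℕ, p.Prime → p ∣ a * v + h i → (Y : ℝ) ^ ε₁ ≤ p) ∧
      ∃ I : Finset (Fin (2 ^ k)), m ≤ I.card ∧ ∀ i ∈ I, 0 < WW Y ζ υ aw bw (a * v + h i)

/-- the error term for the palindromes with digits `i + j` -/
noncomputable def er2 (b s t L q : ℕ) : ℝ :=
  ((s : ℝ) * t) ^ L / q * ∑ d ∈ q.divisors.filter (fun d => 1 < d), U b s t L d

/-- (P1) the error terms are small on average (port of `R471.PP.er_sumK` from `(b, 1)` to `(s, t)`). -/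
def StP1 : Prop := ∀ (w b s t : ℕ), 2 ≤ b → 1 ≤ s → 1 ≤ t → PtW b s t → ∀ κ : ℝ, 0 < κ → κ < 1 →
  BigW b s t κ → ∀ A : ℕ, ∀ᶠ L : ℕ in atTop,
    ∑ q ∈ (Icc 1 ⌊(b : ℝ) ^ (κ * L)⌋₊).filter (fun q => q.Coprime (2 * b)),
      (q.divisors.card : ℝ) ^ w * er2 b s t L q ≤ ((s : ℝ) * t) ^ L / (L : ℝ) ^ A

open Classical in
/-- few palindromes are in given residue classes modulo large squares -/
def SqH (b s t : ℕ) (κ : ℝ) : Prop := ∀ η : ℝ, 0 < η → ∀ A : ℕ, ∀ᶠ L : ℕ in atTop, ∀ h : ℕ → ℕ,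
    (((univ : Finset (Fin L → Fin s × Fin t)).filter (fun m => ∃ p : ℕ, p.Coprime (2 * b) ∧
      (b : ℝ) ^ (η * L) ≤ p ∧ (p : ℝ) ≤ (b : ℝ) ^ (κ * L) ∧ pv b s t L m ≡ h p [MOD p ^ 2])).card : ℝ)
      ≤ ((s : ℝ) * t) ^ L / (L : ℝ) ^ A

/-- (P2) port of `W139.PX.sqW_of_majP` (class `0`) to arbitrary classes. -/
def StP2 : Prop := ∀ (b s t : ℕ) (H CM κ : ℝ), MajP b s t H CM → 0 < H → 1 ≤ b * H → 0 < CM → 2 ≤ b →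
  1 ≤ s → 1 ≤ t → s + t = b + 1 → (b : ℝ) * m4 s t < 1 → 0 < κ → (b : ℝ) ^ κ * H < 1 → SqH b s t κ

/-- (P3) the numerical parameters. -/
def StP3 : Prop := ∀ b : ℕ, 2 ≤ b → ∃ (s t : ℕ) (H CM κ : ℝ), 1 ≤ s ∧ 1 ≤ t ∧ s + t = b + 1 ∧
  PtW b s t ∧ BigW b s t κ ∧ MajP b s t H CM ∧ 0 < H ∧ 1 ≤ b * H ∧ 0 < CM ∧
  (b : ℝ) * m4 s t < 1 ∧ (b : ℝ) ^ κ * H < 1 ∧
  κ = if 9 ≤ b then 183 / 250 else if 3 ≤ b then 63 / 100 else 49 / 100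

/-- the number with the reversed `M` digits -/
def rv (b M x : ℕ) : ℕ := ∑ i ∈ range M, (x / b ^ i % b) * b ^ (M - 1 - i)

/-- the constant term of the slot with the prefix `x` -/
def hx (b M L x : ℕ) : ℕ :=
  (x * b ^ (2 * L + 1 + M) + rv b M x) - (b ^ (2 * L + 1 + M) + b ^ (M - 1))

/-- (P4) the digits of `b ^ (M - 1) * pv + hx`. -/
def StP4 : Prop := ∀ (b s t M x : ℕ), 2 ≤ b → s + t = b + 1 → 1 ≤ M → b ^ (M - 1) ≤ x → x < b ^ M →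
  (∀ L : ℕ, ∀ m : Fin L → Fin s × Fin t,
    b ^ (M - 1) * pv b s t L m + hx b M L x < b ^ (2 * L + 1 + 2 * M) ∧
    (Nat.digits b (b ^ (M - 1) * pv b s t L m + hx b M L x)).reverse =
      Nat.digits b (b ^ (M - 1) * pv b s t L m + hx b M L x) ∧
    (b ^ (M - 1) * pv b s t L m + hx b M L x) / b ^ (2 * L + 1 + M) = x ∧
    (b ^ (M - 1) * pv b s t L m + hx b M L x) / b ^ M % b ^ (2 * L + 1) =
      pv b s t L m / b % b ^ (2 * L + 1) ∧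
    ((x / b ^ (M - 1)).Coprime b → (b ^ (M - 1) * pv b s t L m + hx b M L x).Coprime (2 * b))) ∧
  (∀ W x' : ℕ, b ^ (M - 1) ≤ x' → x' < b ^ M → x ≡ x' [MOD W] → rv b M x ≡ rv b M x' [MOD W] →
    ∀ L : ℕ, hx b M L x ≡ hx b M L x' [MOD W]) ∧
  ∀ L x' : ℕ, b ^ (M - 1) ≤ x' → x' < b ^ M → hx b M L x = hx b M L x' → x = x'

/-- (P5) the final theorem. -/
def StFin : Prop := ∀ b : ℕ, 2 ≤ b → ∀ m : ℕ, ∃ K : ℕ, ∀ (M : ℕ) (S : Finset ℕ), K ≤ S.card →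
  (∀ x ∈ S, b ^ (M - 1) ≤ x ∧ x < b ^ M ∧ (x / b ^ (M - 1)).Coprime b) → ∀ᶠ L : ℕ in atTop,
  ∃ H ⊆ S, H.card = m ∧ ∃ w : ℕ, w < b ^ (2 * L + 1) ∧ ∀ x ∈ H, ∃ n : ℕ,
    n < b ^ (2 * L + 1 + 2 * M) ∧ (Nat.digits b n).reverse = Nat.digits b n ∧
    n / b ^ (2 * L + 1 + M) = x ∧ n / b ^ M % b ^ (2 * L + 1) = w ∧
    n.primeFactorsList.length ≤ (if 9 ≤ b then 3 else if 3 ≤ b then 4 else 5) ∧
    ∀ p : ℕ, p.Prime → p ∣ n → (b : ℝ) ^ ((L : ℝ) / 10) ≤ p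

end Pool.Agent.K3h54.PC
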